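import Pool.Agent.FCW.Targets

/-!
# The half harmonic sum and the Fermat quotient
-/

namespace Pool.Agent.FCW

namespace HARM_

variable (p : ℕ) [hp : Fact p.Prime]

theorem choose_pred (hp3 : 3 ≤ p) (k : ℕ) (hk : k ≤ p - 1) :
    (((p - 1).choose k : ℕ) : ZMod p) = (-1) ^ k := by
  induction k with
  | zero => simp
  | succ k ih =>
    have h1 := ih (by omega)
    have h2 : p.choose (k + 1) = (p - 1).choose k + (p - 1).choose (k + 1) := by
      conv_lhs => rw [show p = (p - 1) + 1 by omega]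
      exact Nat.choose_succ_succ _ _
    have h3 : ((p.choose (k + 1) : ℕ) : ZMod p) = 0 := by
      rw [ZMod.natCast_eq_zero_iff]
      exact hp.out.dvd_choose_self (by omega) (by omega)
    rw [h2, Nat.cast_add, h1] at h3
    rw [pow_succ]
    linear_combination h3

theorem cast_ne {k : ℕ} (hk : k ∈ Finset.Ico 1 p) : (k : ZMod p) ≠ 0 := by
  rw [Finset.mem_Ico] at hk
  intro h
  rw [ZMod.natCast_eq_zero_iff] at h
  exact absurd (Nat.le_of_dvd (by omega) h) (by omega)

theorem Hs_eq : Hs p = ∑ k ∈ (Finset.Ico 1 p).filter (fun k => 2 * k < p), ((k : ZMod p))⁻¹ := by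
  unfold Hs
  refine Finset.sum_bij (fun u _ => (u : ZMod p).val) ?_ ?_ ?_ ?_
  · intro u hu
    rw [half, Finset.mem_filter] at hu
    rw [Finset.mem_filter, Finset.mem_Ico]
    refine ⟨⟨?_, ZMod.val_lt _⟩, hu.2⟩
    rw [Nat.one_le_iff_ne_zero, ne_eq, ZMod.val_eq_zero]
    exact u.ne_zero
  · intro u _ v _ h
    exact Units.ext (ZMod.val_injective p h)
  · intro k hk
    rw [Finset.mem_filter] at hk
    have hk0 := cast_ne p hk.1
    have hkp : k < p := (Finset.mem_Ico.1 hk.1).2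
    have hv : ((Units.mk0 (k : ZMod p) hk0 : (ZMod p)ˣ) : ZMod p).val = k := by
      rw [Units.val_mk0]
      exact ZMod.val_cast_of_lt hkp
    refine ⟨Units.mk0 (k : ZMod p) hk0, ?_, hv⟩
    rw [half, Finset.mem_filter]
    refine ⟨Finset.mem_univ _, ?_⟩
    rw [hv]
    exact hk.2
  · intro u _
    rw [ZMod.natCast_zmod_val, Units.val_inv_eq_inv_val]

theorem two_ne (hp3 : 3 ≤ p) : (2 : ZMod p) ≠ 0 := by
  have h : ((2 : ℕ) : ZMod p) ≠ 0 := cast_ne p (Finset.mem_Ico.2 ⟨by omega, by omega⟩)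
  exact_mod_cast h

theorem total (hp3 : 3 ≤ p) : ∑ k ∈ Finset.Ico 1 p, ((k : ZMod p))⁻¹ = 0 := by
  have h : ∑ k ∈ Finset.Ico 1 p, ((k : ZMod p))⁻¹ = ∑ k ∈ Finset.Ico 1 p, -((k : ZMod p))⁻¹ := by
    refine Finset.sum_nbij' (fun k => p - k) (fun k => p - k) ?_ ?_ ?_ ?_ ?_
    · intro k hk
      rw [Finset.mem_Ico] at hk ⊢
      omega
    · intro k hk
      rw [Finset.mem_Ico] at hk ⊢
      omega
    · intro k hk
      rw [Finset.mem_Ico] at hk
      omega
    · intro k hk
      rw [Finset.mem_Ico] at hk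
      omega
    · intro k hk
      rw [Finset.mem_Ico] at hk
      rw [Nat.cast_sub hk.2.le, ZMod.natCast_self, zero_sub, inv_neg, neg_neg]
  rw [Finset.sum_neg_distrib] at h
  have h2 : (2 : ZMod p) * ∑ k ∈ Finset.Ico 1 p, ((k : ZMod p))⁻¹ = 0 := by
    linear_combination h
  exact (mul_eq_zero.1 h2).resolve_left (two_ne p hp3)

theorem evens : ∑ k ∈ (Finset.Ico 1 p).filter Even, ((k : ZMod p))⁻¹ =
    2⁻¹ * Hs p := by
  rw [Hs_eq, Finset.mul_sum]
  symm
  refine Finset.sum_nbij' (fun k => 2 * k) (fun k => k / 2) ?_ ?_ ?_ ?_ ?_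
  · intro k hk
    rw [Finset.mem_filter, Finset.mem_Ico] at hk ⊢
    exact ⟨by omega, even_two_mul k⟩
  · intro k hk
    rw [Finset.mem_filter, Finset.mem_Ico] at hk ⊢
    obtain ⟨h1, r, hr⟩ := hk
    omega
  · intro k _
    omega
  · intro k hk
    rw [Finset.mem_filter] at hk
    obtain ⟨h1, r, hr⟩ := hk
    omega
  · intro k _
    push_cast
    rw [mul_inv]

theorem alt (hp3 : 3 ≤ p) : ∑ k ∈ Finset.Ico 1 p, (-1) ^ (k - 1) * ((k : ZMod p))⁻¹ = - Hs p := by
  have h : ∀ k ∈ Finset.Ico 1 p, (-1) ^ (k - 1) * ((k : ZMod p))⁻¹ =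
      ((k : ZMod p))⁻¹ - 2 * (if Even k then ((k : ZMod p))⁻¹ else 0) := by
    intro k hk
    rw [Finset.mem_Ico] at hk
    by_cases he : Even k
    · rw [if_pos he]
      have ho : Odd (k - 1) := by
        obtain ⟨r, hr⟩ := he
        exact ⟨r - 1, by omega⟩
      rw [ho.neg_one_pow]
      ring
    · rw [if_neg he]
      have ho : Even (k - 1) := by
        obtain ⟨r, hr⟩ := Nat.not_even_iff_odd.1 he
        exact ⟨r, by omega⟩
      rw [ho.neg_one_pow]
      ring
  rw [Finset.sum_congr rfl h, Finset.sum_sub_distrib, total p hp3, ← Finset.mul_sum,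
    ← Finset.sum_filter, evens p, ← mul_assoc, mul_inv_cancel₀ (two_ne p hp3)]
  ring

end HARM_

open HARM_ in
theorem p_HARM : T_HARM := by
  intro p hp hp3 hH
  have hpp := hp.out
  -- divisibility of the binomial coefficients
  have hdiv : ∀ k ∈ Finset.Ico 1 p, p ∣ p.choose k := by
    intro k hk
    rw [Finset.mem_Ico] at hk
    exact hpp.dvd_choose_self (by omega) hk.2
  have hD : ∀ k ∈ Finset.Ico 1 p, ((p.choose k / p : ℕ) : ZMod p) =
      (-1) ^ (k - 1) * ((k : ZMod p))⁻¹ := by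
    intro k hk
    have hk' := Finset.mem_Ico.1 hk
    have h1 : p * (p.choose k / p) = p.choose k := Nat.mul_div_cancel' (hdiv k hk)
    have h2 : p * (p - 1).choose (k - 1) = p.choose k * k := by
      have := Nat.add_one_mul_choose_eq (p - 1) (k - 1)
      rwa [Nat.sub_add_cancel (by omega : 1 ≤ p),
        Nat.sub_add_cancel hk'.1] at this
    have h3 : (p - 1).choose (k - 1) = (p.choose k / p) * k := by
      apply Nat.eq_of_mul_eq_mul_left hpp.pos
      rw [h2, ← mul_assoc, h1]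
    have h4 := congrArg (Nat.cast : ℕ → ZMod p) h3
    rw [choose_pred p hp3 _ (by omega), Nat.cast_mul] at h4
    rw [h4, mul_assoc, mul_inv_cancel₀ (cast_ne p hk), mul_one]
  have hS : ((∑ k ∈ Finset.Ico 1 p, p.choose k / p : ℕ) : ZMod p) = 0 := by
    rw [Nat.cast_sum, Finset.sum_congr rfl hD, alt p hp3, hH, neg_zero]
  rw [ZMod.natCast_eq_zero_iff] at hS
  have hsum : p * (∑ k ∈ Finset.Ico 1 p, p.choose k / p) + 2 = 2 ^ p := by
    rw [Finset.mul_sum, Finset.sum_congr rfl fun k hk => Nat.mul_div_cancel' (hdiv k hk)]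
    have h1 := Nat.sum_range_choose p
    rw [Finset.sum_range_succ, Finset.range_eq_Ico,
      Finset.sum_eq_sum_Ico_succ_bot hpp.pos] at h1
    simp only [Nat.choose_zero_right, Nat.choose_self, zero_add] at h1
    rw [← h1]
    ring
  have h5 : p ^ 2 ∣ 2 * (2 ^ (p - 1) - 1) := by
    have h6 : 2 * (2 ^ (p - 1) - 1) = p * (∑ k ∈ Finset.Ico 1 p, p.choose k / p) := by
      have h7 : 2 ^ p = 2 * 2 ^ (p - 1) := by
        conv_lhs => rw [show p = (p - 1) + 1 by omega, pow_succ]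
        ring
      rw [Nat.mul_sub, ← h7]
      omega
    rw [h6, sq]
    exact Nat.mul_dvd_mul_left p hS
  refine Nat.Coprime.dvd_of_dvd_mul_left ?_ h5
  apply Nat.Coprime.pow_left
  rw [Nat.coprime_primes hpp Nat.prime_two]
  omega

end Pool.Agent.FCW
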