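import Pool.Agent.FCW.MainF

/-!
# Even exponents: valuations at the primes above `p`
-/

open NumberField IsDedekindDomain

namespace Pool.Agent.FCW

namespace EPK_

variable {K : Type} [Field K] [NumberField K]

/-- making two integers coprime at the primes above `q` -/
theorem scale {q : 𝓞 K} (hq0 : q ≠ 0) (hqu : ¬ IsUnit q) {x y : 𝓞 K} (hx : x ≠ 0) :
    ∃ (δ c : 𝓞 K), δ ≠ 0 ∧ (∀ z ∈ Ideal.span {x, y}, ∃ z', c * z = δ * z') ∧
      (∀ Q : Ideal (𝓞 K), Q.IsPrime → q ∈ Q → c ∉ Q) ∧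
      (∀ x' y' : 𝓞 K, c * x = δ * x' → c * y = δ * y' →
        ∀ Q : Ideal (𝓞 K), Q.IsPrime → q ∈ Q → x' ∈ Q → y' ∉ Q) := by
  obtain ⟨J, hJ⟩ : ∃ J : Ideal (𝓞 K), J = Ideal.span {x, y} := ⟨_, rfl⟩
  have hJ0 : J ≠ 0 := by
    intro h
    apply hx
    have h1 : x ∈ J := hJ ▸ Ideal.subset_span (Set.mem_insert _ _)
    rw [h] at h1
    simpa using h1
  have hI0 : Ideal.span {q} * J ≠ 0 := mul_ne_zero (by simpa using hq0) hJ0
  obtain ⟨δ, hδ⟩ := IsDedekindDomain.exists_sup_span_eq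
    (I := Ideal.span {q} * J) (J := J) Ideal.mul_le_right hI0
  have hle : Ideal.span {δ} ≤ J := hδ ▸ le_sup_right
  obtain ⟨C, hC⟩ := Ideal.dvd_iff_le.mpr hle
  have hqC : Ideal.span {q} ⊔ C = ⊤ := by
    apply mul_left_cancel₀ hJ0
    rw [Ideal.mul_sup, ← hC, mul_comm J, hδ, ← Ideal.one_eq_top, mul_one]
  have hδ0 : δ ≠ 0 := by
    intro h
    rw [h, Ideal.span_singleton_zero, ← Ideal.zero_eq_bot] at hC
    rcases mul_eq_zero.mp hC.symm with h1 | h1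
    · exact hJ0 h1
    · rw [h1, Ideal.zero_eq_bot, sup_bot_eq, Ideal.span_singleton_eq_top] at hqC
      exact hqu hqC
  obtain ⟨a, ha, c, hc, hac⟩ := Submodule.mem_sup.mp ((Ideal.eq_top_iff_one _).mp hqC)
  have hcQ : ∀ Q : Ideal (𝓞 K), Q.IsPrime → q ∈ Q → c ∉ Q := by
    intro Q hQ hq hc1
    apply hQ.ne_top
    rw [Ideal.eq_top_iff_one, ← hac]
    exact Q.add_mem ((Ideal.span_singleton_le_iff_mem _).mpr hq ha) hc1
  refine ⟨δ, c, hδ0, ?_, hcQ, ?_⟩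
  · intro z hz
    rw [← hJ] at hz
    have h1 : z * c ∈ J * C := Ideal.mul_mem_mul hz hc
    rw [← hC] at h1
    obtain ⟨z', hz'⟩ := Ideal.mem_span_singleton.mp h1
    exact ⟨z', by rw [← hz', mul_comm]⟩
  · intro x' y' h1 h2 Q hQ hq hx' hy'
    apply hcQ Q hQ hq
    have h3 : J * Ideal.span {c} ≤ J * Q := by
      rw [Ideal.mul_le]
      intro r hr s hs
      obtain ⟨t, rfl⟩ := Ideal.mem_span_singleton.mp hs
      rw [hJ] at hr
      obtain ⟨a', b', rfl⟩ := Ideal.mem_span_pair.mp hr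
      have hδJ : δ ∈ J := hle (Ideal.mem_span_singleton_self _)
      have h6 : (a' * x + b' * y) * (c * t) = a' * t * (δ * x') + b' * t * (δ * y') := by
        rw [← h1, ← h2]
        ring
      rw [h6]
      exact Ideal.add_mem _ (Ideal.mul_mem_left _ _ (Ideal.mul_mem_mul hδJ hx'))
        (Ideal.mul_mem_left _ _ (Ideal.mul_mem_mul hδJ hy'))
    have h4 := Ideal.dvd_iff_le.mpr h3
    have h5 := Ideal.dvd_iff_le.mp ((mul_dvd_mul_iff_left hJ0).mp h4)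
    exact (Ideal.span_singleton_le_iff_mem _).mp h5

theorem mem_of_pow {I : Ideal (𝓞 K)} {z : 𝓞 K} {n : ℕ} (hn : n ≠ 0) (h : z ^ n ∈ I ^ n) :
    z ∈ I := by
  have h1 : Ideal.span {z} ^ n ≤ I ^ n := by
    rw [Ideal.span_singleton_pow, Ideal.span_singleton_le_iff_mem]
    exact h
  have h2 := (UniqueFactorizationMonoid.pow_dvd_pow_iff_dvd hn).mp (Ideal.dvd_iff_le.mpr h1)
  exact (Ideal.span_singleton_le_iff_mem _).mp (Ideal.dvd_iff_le.mp h2)

end EPK_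

/-- The valuations of a solution at a prime above `p` are not all equal. -/
def T_EPK : Prop := ∀ (K : Type) [Field K] [NumberField K], Module.finrank ℚ K = 2 →
  ∀ (p : ℕ) [Fact p.Prime], 7 ≤ p → ¬ p ^ 2 ∣ 2 ^ (p - 1) - 1 → ∀ x y z : K, x * y * z ≠ 0 →
  x ^ (2 * p) + y ^ (2 * p) = z ^ (2 * p) →
  ∀ P : HeightOneSpectrum (𝓞 K), (p : 𝓞 K) ∈ P.asIdeal →
  ¬ (P.valuation K x = P.valuation K y ∧ P.valuation K y = P.valuation K z)

theorem p_EPK (hEP : T_EP) : T_EPK := by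
  classical
  intro K _ _ hK p _ h7 hW x y z hxyz h P hP hval
  have hp : p.Prime := Fact.out
  have hp2 : 2 * p ≠ 0 := by have := hp.pos; omega
  obtain ⟨b, hb⟩ := IsLocalization.exist_integer_multiples_of_finset
    (nonZeroDivisors (𝓞 K)) ({x, y, z} : Finset K)
  have hb0 : (b : 𝓞 K) ≠ 0 := nonZeroDivisors.ne_zero b.2
  obtain ⟨X, hX⟩ := hb x (by simp)
  obtain ⟨Y, hY⟩ := hb y (by simp)
  obtain ⟨Z, hZ⟩ := hb z (by simp)
  rw [Algebra.smul_def] at hX hY hZ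
  have hbK : algebraMap (𝓞 K) K b ≠ 0 := by
    rw [Ne, FaithfulSMul.algebraMap_eq_zero_iff]
    exact hb0
  have hz : z ≠ 0 := right_ne_zero_of_mul hxyz
  have hxy : x * y ≠ 0 := left_ne_zero_of_mul hxyz
  have hx : x ≠ 0 := left_ne_zero_of_mul hxy
  have hy : y ≠ 0 := right_ne_zero_of_mul hxy
  have hX0 : X ≠ 0 := by
    rintro rfl
    rw [map_zero] at hX
    exact mul_ne_zero hbK hx hX.symm
  have hXYZ : X ^ (2 * p) + Y ^ (2 * p) = Z ^ (2 * p) := by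
    apply FaithfulSMul.algebraMap_injective (𝓞 K) K
    rw [map_add, map_pow, map_pow, map_pow, hX, hY, hZ, mul_pow, mul_pow, mul_pow, ← h]
    ring
  have hq0 : (p : 𝓞 K) ≠ 0 := by exact_mod_cast hp.ne_zero
  have hqu : ¬ IsUnit (p : 𝓞 K) := fun hu => P.isPrime.ne_top (Ideal.eq_top_of_isUnit_mem _ hP hu)
  obtain ⟨δ, c, hδ, hall, hcQ, hcop⟩ := EPK_.scale hq0 hqu (y := Y) hX0
  obtain ⟨X', hX'⟩ := hall X (Ideal.subset_span (by simp))
  obtain ⟨Y', hY'⟩ := hall Y (Ideal.subset_span (by simp))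
  obtain ⟨Z', hZ'⟩ := hall Z (EPK_.mem_of_pow hp2 (by
    rw [← hXYZ]
    exact Ideal.add_mem _ (Ideal.pow_mem_pow (Ideal.subset_span (by simp)) _)
      (Ideal.pow_mem_pow (Ideal.subset_span (by simp)) _)))
  have h' : X' ^ (2 * p) + Y' ^ (2 * p) = Z' ^ (2 * p) := by
    apply mul_left_cancel₀ (pow_ne_zero (2 * p) hδ)
    rw [mul_add, ← mul_pow, ← mul_pow, ← mul_pow, ← hX', ← hY', ← hZ', mul_pow, mul_pow,
      mul_pow, ← hXYZ]
    ring
  have hcop' := hcop X' Y' hX' hY'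
  have key := hEP K hK p h7 hW X' Y' Z' h' hcop' P.asIdeal P.isPrime hP
  -- valuations
  have vc : P.valuation K (algebraMap (𝓞 K) K c) = 1 := by
    rw [HeightOneSpectrum.valuation_eq_one_iff_notMem]
    exact hcQ P.asIdeal P.isPrime hP
  have vδ : P.valuation K (algebraMap (𝓞 K) K δ) ≠ 0 := by
    rw [Valuation.ne_zero_iff, Ne, FaithfulSMul.algebraMap_eq_zero_iff]
    exact hδ
  have vb : P.valuation K (algebraMap (𝓞 K) K b) ≠ 0 := by
    rw [Valuation.ne_zero_iff]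
    exact hbK
  have tr : ∀ (w : K) (W W' : 𝓞 K), algebraMap (𝓞 K) K W = algebraMap (𝓞 K) K b * w →
      c * W = δ * W' → P.valuation K (algebraMap (𝓞 K) K b) * P.valuation K w =
        P.valuation K (algebraMap (𝓞 K) K δ) * P.valuation K (algebraMap (𝓞 K) K W') := by
    intro w W W' h1 h2
    rw [← map_mul, ← h1, ← map_mul, ← map_mul, ← h2, map_mul, map_mul, vc, one_mul]
  have t1 := tr x X X' hX hX'
  have t2 := tr y Y Y' hY hY'
  have t3 := tr z Z Z' hZ hZ'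
  rw [hval.1, hval.2] at t1
  rw [hval.2] at t2
  have e1 : P.valuation K (algebraMap (𝓞 K) K X') = P.valuation K (algebraMap (𝓞 K) K Y') :=
    mul_left_cancel₀ vδ (t1.symm.trans t2)
  have e2 : P.valuation K (algebraMap (𝓞 K) K Y') = P.valuation K (algebraMap (𝓞 K) K Z') :=
    mul_left_cancel₀ vδ (t2.symm.trans t3)
  have hmem : ∀ W : 𝓞 K, P.valuation K (algebraMap (𝓞 K) K W) < 1 ↔ W ∈ P.asIdeal :=
    fun W => HeightOneSpectrum.valuation_lt_one_iff_mem P W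
  have i1 : X' ∈ P.asIdeal ↔ Y' ∈ P.asIdeal := by rw [← hmem, ← hmem, e1]
  have i2 : Y' ∈ P.asIdeal ↔ Z' ∈ P.asIdeal := by rw [← hmem, ← hmem, e2]
  have hXP : X' ∈ P.asIdeal := by
    rcases P.isPrime.mem_or_mem key with h1 | h1
    · rcases P.isPrime.mem_or_mem h1 with h2 | h2
      · exact h2
      · exact i1.mpr h2
    · exact i1.mpr (i2.mpr h1)
  exact hcop' P.asIdeal P.isPrime hP hXP (i1.mp hXP)

end Pool.Agent.FCW
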