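import Pool.Agent.FCW.Targets

/-!
# The logarithmic derivative (job FCW-EIB)
-/

open NumberField Polynomial

namespace Pool.Agent.FCW

namespace EIB_

section alg

variable {R : Type*} [CommRing R]

/-- the Euler derivation -/
noncomputable def th (P : R[X]) : R[X] := X * derivative P

/-- the bracket of two polynomials -/
noncomputable def br (P Q : R[X]) : R[X] := th P * Q - P * th Q

theorem th_mul (P Q : R[X]) : th (P * Q) = th P * Q + P * th Q := by
  unfold th
  rw [derivative_mul]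
  ring

theorem br_mul (P₁ P₂ Q₁ Q₂ : R[X]) :
    br (P₁ * P₂) (Q₁ * Q₂) = br P₁ Q₁ * (P₂ * Q₂) + (P₁ * Q₁) * br P₂ Q₂ := by
  unfold br
  rw [th_mul, th_mul]
  ring

theorem br_swap (P Q : R[X]) : br Q P = - br P Q := by
  unfold br
  ring

theorem br_pow (a b : R[X]) (n : ℕ) :
    (a * b) * br (a ^ n) (b ^ n) = (n : R[X]) * (a ^ n * b ^ n) * br a b := by
  induction n with
  | zero => simp [br, th]
  | succ n ih =>
    rw [pow_succ, pow_succ, br_mul]
    push_cast
    linear_combination (a * b) * ih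

theorem br_single (a b : R[X]) (n m : ℕ) :
    (a * b) * br (a ^ n * b ^ m) (b ^ n * a ^ m) =
      ((n : R[X]) - m) * ((a ^ n * b ^ m) * (b ^ n * a ^ m)) * br a b := by
  rw [br_mul]
  have h1 := br_pow a b n
  have h2 := br_pow b a m
  rw [br_swap a b] at h2
  linear_combination (b ^ m * a ^ m) * h1 + (a ^ n * b ^ n) * h2

theorem br_prod {ι : Type*} [DecidableEq ι] (s : Finset ι) (a b : ι → R[X]) (n m : ι → ℕ) :
    (∏ j ∈ s, (a j * b j)) *
      br (∏ j ∈ s, (a j ^ n j * b j ^ m j)) (∏ j ∈ s, (b j ^ n j * a j ^ m j)) =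
    ((∏ j ∈ s, (a j ^ n j * b j ^ m j)) * (∏ j ∈ s, (b j ^ n j * a j ^ m j))) *
      ∑ j ∈ s, ((n j : R[X]) - m j) * br (a j) (b j) * ∏ i ∈ s.erase j, (a i * b i) := by
  induction s using Finset.induction_on with
  | empty => simp [br, th]
  | insert j₀ s hj ih =>
    rw [Finset.prod_insert hj, Finset.prod_insert hj, Finset.prod_insert hj,
      Finset.sum_insert hj, br_mul, Finset.erase_insert hj]
    have h1 : ∑ j ∈ s, ((n j : R[X]) - m j) * br (a j) (b j) *
        ∏ i ∈ (insert j₀ s).erase j, (a i * b i) = (a j₀ * b j₀) *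
        ∑ j ∈ s, ((n j : R[X]) - m j) * br (a j) (b j) * ∏ i ∈ s.erase j, (a i * b i) := by
      rw [Finset.mul_sum]
      apply Finset.sum_congr rfl
      intro j hjs
      have hne : j₀ ≠ j := by
        rintro rfl
        exact hj hjs
      rw [Finset.erase_insert_of_ne hne, Finset.prod_insert]
      · ring
      · intro h
        exact hj (Finset.mem_of_mem_erase h)
    rw [h1]
    have h2 := br_single (a j₀) (b j₀) (n j₀) (m j₀)
    linear_combination ((∏ j ∈ s, (a j * b j)) * ((∏ j ∈ s, (a j ^ n j * b j ^ m j)) *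
      (∏ j ∈ s, (b j ^ n j * a j ^ m j)))) * h2 +
      ((a j₀ * b j₀) * (a j₀ ^ n j₀ * b j₀ ^ m j₀) * (b j₀ ^ n j₀ * a j₀ ^ m j₀)) * ih

/-- the reduction of `FX` -/
noncomputable def fx (a t b : R) (k : ℕ) : R[X] := C a + C t * X ^ k + C b * X ^ (2 * k)

theorem th_X_pow (k : ℕ) : th (X ^ k : R[X]) = C (k : R) * X ^ k := by
  unfold th
  rcases k with _ | k
  · simp
  · rw [derivative_X_pow, Nat.add_sub_cancel]
    ring

theorem th_fx (a t b : R) (k : ℕ) :
    th (fx a t b k) = C (k : R) * (C t * X ^ k + 2 * C b * (X ^ k) ^ 2) := by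
  have h1 : th (fx a t b k) = C t * th (X ^ k) + C b * th (X ^ (2 * k)) := by
    unfold th fx
    simp only [derivative_add, derivative_C, derivative_C_mul]
    ring
  rw [h1, th_X_pow, th_X_pow]
  have h2 : (X : R[X]) ^ (2 * k) = (X ^ k) ^ 2 := by rw [← pow_mul, mul_comm]
  rw [h2]
  push_cast
  simp only [C_mul, C_ofNat]
  ring

/-- the numerator, without the factor `b - a` -/
noncomputable def num (a t b : R) (k : ℕ) : R[X] :=
  C t * X ^ k + C (2 * (a + b)) * X ^ (2 * k) + C t * X ^ (3 * k)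

theorem br_fx (a t b : R) (k : ℕ) :
    br (fx a t b k) (fx b t a k) = C (k : R) * C (b - a) * num a t b k := by
  unfold br
  rw [th_fx, th_fx]
  unfold fx num
  have h2 : (X : R[X]) ^ (2 * k) = (X ^ k) ^ 2 := by rw [← pow_mul, mul_comm]
  have h3 : (X : R[X]) ^ (3 * k) = (X ^ k) ^ 3 := by rw [← pow_mul, mul_comm]
  rw [h2, h3]
  simp only [C_mul, C_sub, C_add, C_ofNat]
  ring

theorem deg_fx (a t b : R) (k : ℕ) : (fx a t b k).natDegree ≤ 2 * k := by
  unfold fx
  refine (natDegree_add_le _ _).trans (max_le ((natDegree_add_le _ _).trans (max_le ?_ ?_)) ?_)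
  · simp
  · exact (natDegree_C_mul_X_pow_le _ _).trans (by omega)
  · exact natDegree_C_mul_X_pow_le _ _

theorem deg_num (a t b : R) (k : ℕ) : (num a t b k).natDegree ≤ 4 * k := by
  unfold num
  refine (natDegree_add_le _ _).trans (max_le ((natDegree_add_le _ _).trans (max_le ?_ ?_)) ?_)
  · exact (natDegree_C_mul_X_pow_le _ _).trans (by omega)
  · exact (natDegree_C_mul_X_pow_le _ _).trans (by omega)
  · exact (natDegree_C_mul_X_pow_le _ _).trans (by omega)

/-- If a sum of multiples of increasing powers of `X` vanishes, all coefficients vanish. -/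
theorem van [IsDomain R] {m e : ℕ} (he : 1 ≤ e) (c : Fin m → R) (V : Fin m → R[X])
    (hV : ∀ j, (V j).coeff 0 ≠ 0)
    (h : ∑ j : Fin m, C (c j) * (X ^ (e * ((j : ℕ) + 1)) * V j) = 0) : ∀ j, c j = 0 := by
  by_contra hc
  push Not at hc
  obtain ⟨j₀, hj₀, hmin⟩ : ∃ j₀, c j₀ ≠ 0 ∧ ∀ j < j₀, c j = 0 := by
    obtain ⟨j, hj⟩ := hc
    obtain ⟨j₀, hj₀, hmin⟩ := WellFounded.has_min (α := Fin m) wellFounded_lt {j | c j ≠ 0} ⟨j, hj⟩
    refine ⟨j₀, hj₀, fun j hj => ?_⟩
    by_contra hne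
    exact hmin j hne hj
  have h1 := congrArg (fun P => coeff P (e * ((j₀ : ℕ) + 1))) h
  simp only [finsetSum_coeff, coeff_C_mul, coeff_X_pow_mul', coeff_zero] at h1
  rw [Finset.sum_eq_single j₀] at h1
  · rw [if_pos le_rfl, Nat.sub_self] at h1
    exact mul_ne_zero hj₀ (hV j₀) h1
  · intro j _ hj
    rcases lt_or_gt_of_ne hj with hlt | hgt
    · rw [hmin j hlt, zero_mul]
    · rw [if_neg, mul_zero]
      have h2 : (j₀ : ℕ) + 1 < (j : ℕ) + 1 := by
        have : (j₀ : ℕ) < (j : ℕ) := hgt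
        omega
      have h3 : e * ((j₀ : ℕ) + 1) < e * ((j : ℕ) + 1) :=
        Nat.mul_lt_mul_of_pos_left h2 (by omega)
      omega
  · intro hj
    exact absurd (Finset.mem_univ _) hj

end alg

section main

variable (p : ℕ) [Fact p.Prime]

/-- reduction of polynomials -/
noncomputable abbrev rd : ℤ[X] →+* (ZMod p)[X] := mapRingHom (Int.castRingHom (ZMod p))

theorem rd_FX (A T B : ℤ) (k : ℕ) :
    rd p (FX A T B k) = fx (A : ZMod p) (T : ZMod p) (B : ZMod p) k := by
  unfold FX fx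
  simp

theorem rd_PX {m : ℕ} (A T B : ℤ) (f : Fin m → ℤ) :
    rd p (PX A T B f) = ∏ j : Fin m, (fx (A : ZMod p) (T : ZMod p) (B : ZMod p) ((j : ℕ) + 1) ^
      (f j).toNat * fx (B : ZMod p) (T : ZMod p) (A : ZMod p) ((j : ℕ) + 1) ^ (-f j).toNat) := by
  unfold PX
  rw [map_prod]
  apply Finset.prod_congr rfl
  intro j _
  rw [map_mul, map_pow, map_pow, rd_FX, rd_FX]

theorem cyc_red : (cyclotomic p (ZMod p)) = (X - 1) ^ (p - 1) := by
  have hp := (Fact.out : p.Prime)
  have h := cyclotomic_mul_prime_pow_eq (ZMod p) (p := p) (m := 1) (k := 1)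
    (by intro h; exact hp.one_lt.ne' (Nat.dvd_one.mp h)) (by norm_num)
  simpa using h

theorem dvd_red (W : ℤ[X]) (h : (p : Oc p) ∣ aeval (zt p) W) :
    ((X : (ZMod p)[X]) - 1) ^ (p - 1) ∣ rd p W := by
  have hp := (Fact.out : p.Prime)
  obtain ⟨x, hx⟩ := h
  obtain ⟨H, rfl⟩ := exists_poly p x
  have h1 : aeval (zt p) (W - C (p : ℤ) * H) = 0 := by
    rw [map_sub, map_mul, hx, aeval_C]
    simp
  have h2 : aeval ((zt p : Oc p) : Cy p) (W - C (p : ℤ) * H) = 0 := by
    have := congrArg (algebraMap (Oc p) (Cy p)) h1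
    rw [map_zero, ← aeval_algebraMap_apply] at this
    exact this
  have hprim : IsPrimitiveRoot ((zt p : Oc p) : Cy p) p :=
    (zt_prim p).map_of_injective (f := algebraMap (Oc p) (Cy p)) RingOfIntegers.coe_injective
  have h3 : cyclotomic p ℤ ∣ W - C (p : ℤ) * H := by
    rw [cyclotomic_eq_minpoly hprim hp.pos]
    exact minpoly.isIntegrallyClosed_dvd (hprim.isIntegral hp.pos) h2
  have h4 := map_dvd (rd p) h3
  rw [map_sub, map_mul] at h4
  have h5 : rd p (C (p : ℤ)) = 0 := by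
    simp
  rw [h5, zero_mul, sub_zero] at h4
  have h6 : rd p (cyclotomic p ℤ) = (X - 1) ^ (p - 1) := by
    rw [← cyc_red]
    simp
  rwa [h6] at h4

end main

end EIB_

open EIB_ in
theorem p_EIB : T_EIB := by
  intro p _ m hm hmp A T B hA hB hN f hf hfp k hdvd
  have hp := (Fact.out : p.Prime)
  by_contra hAB
  have h2 := dvd_red p (PX A T B f - X ^ k * PX B T A f) (by
    rw [map_sub, map_mul, map_pow, aeval_X]
    exact hdvd)
  rw [map_sub, map_mul, map_pow] at h2
  have hX : rd p X = X := by simp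
  rw [hX] at h2
  have hpZ : ∀ n : ℤ, ¬ (p : ℤ) ∣ n → (n : ZMod p) ≠ 0 := fun n hn h0 =>
    hn ((ZMod.intCast_zmod_eq_zero_iff_dvd n p).mp h0)
  have ha := hpZ A hA
  have hb := hpZ B hB
  have hn := hpZ _ hN
  have hab := hpZ _ hAB
  push_cast at hn hab
  set a : ZMod p := (A : ZMod p) with haa
  set t : ZMod p := (T : ZMod p) with htt
  set b : ZMod p := (B : ZMod p) with hbb
  set n' : Fin m → ℕ := fun j => (f j).toNat with hn'
  set m' : Fin m → ℕ := fun j => (-f j).toNat with hm'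
  set P : (ZMod p)[X] := ∏ j : Fin m, (fx a t b ((j : ℕ) + 1) ^ n' j *
    fx b t a ((j : ℕ) + 1) ^ m' j) with hP
  set Q : (ZMod p)[X] := ∏ j : Fin m, (fx b t a ((j : ℕ) + 1) ^ n' j *
    fx a t b ((j : ℕ) + 1) ^ m' j) with hQ
  have hPP : rd p (PX A T B f) = P := rd_PX p A T B f
  have hQQ : rd p (PX B T A f) = Q := rd_PX p B T A f
  rw [hPP, hQQ] at h2
  set G : (ZMod p)[X] := ∏ j : Fin m, (fx a t b ((j : ℕ) + 1) * fx b t a ((j : ℕ) + 1)) with hG
  set c : Fin m → ZMod p := fun j => ((j : ℕ) + 1 : ℕ) * (f j : ZMod p) with hc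
  set U : (ZMod p)[X] := ∑ j : Fin m, C (c j) * (C (b - a) * num a t b ((j : ℕ) + 1) *
    ∏ i ∈ Finset.univ.erase j, (fx a t b ((i : ℕ) + 1) * fx b t a ((i : ℕ) + 1))) with hU
  -- the logarithmic derivative
  have hbr : G * br P Q = P * Q * U := by
    rw [hG, hP, hQ, br_prod]
    congr 1
    rw [hU]
    apply Finset.sum_congr rfl
    intro j _
    rw [br_fx]
    have h3 : ((n' j : ℕ) : (ZMod p)[X]) - ((m' j : ℕ) : (ZMod p)[X]) = C (f j : ZMod p) := by
      have h4 : ((n' j : ℤ) - (m' j : ℤ)) = f j := Int.toNat_sub_toNat_neg (f j)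
      rw [← h4]
      push_cast
      simp
    rw [h3, hc]
    simp only [C_mul]
    ring
  -- divisibility
  set W : (ZMod p)[X] := P - X ^ k * Q with hW
  have hthW : ((X : (ZMod p)[X]) - 1) ^ (p - 2) ∣ th W := by
    have h3 := pow_sub_one_dvd_derivative_of_pow_dvd h2
    rw [show p - 1 - 1 = p - 2 by omega] at h3
    exact Dvd.dvd.mul_left h3 X
  have hW' : ((X : (ZMod p)[X]) - 1) ^ (p - 2) ∣ W :=
    (pow_dvd_pow _ (by omega)).trans h2
  have hid : br P Q - C (k : ZMod p) * (P * Q) =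
      th W * Q - W * th Q - C (k : ZMod p) * (W * Q) := by
    have h3 : P = W + X ^ k * Q := by rw [hW]; ring
    have h4 : th P = th W + (C (k : ZMod p) * X ^ k * Q + X ^ k * th Q) := by
      have h5 : th (W + X ^ k * Q) = th W + th (X ^ k * Q) := by
        unfold th
        rw [derivative_add]
        ring
      rw [h3, h5, th_mul, th_X_pow]
    unfold br
    rw [h4, h3]
    ring
  have hdiv : ((X : (ZMod p)[X]) - 1) ^ (p - 2) ∣ P * Q * (U - C (k : ZMod p) * G) := by
    have h3 : P * Q * (U - C (k : ZMod p) * G) = G * (br P Q - C (k : ZMod p) * (P * Q)) := by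
      rw [mul_sub, mul_sub, hbr]
      ring
    rw [h3, hid]
    refine Dvd.dvd.mul_left ?_ _
    refine dvd_sub (dvd_sub (Dvd.dvd.mul_right hthW _) (Dvd.dvd.mul_right hW' _)) ?_
    exact Dvd.dvd.mul_left (Dvd.dvd.mul_right hW' _) _
  have hfx1 : ∀ j : ℕ, eval 1 (fx a t b j) = a + t + b := by
    intro j
    unfold fx
    simp
  have hfx1' : ∀ j : ℕ, eval 1 (fx b t a j) = a + t + b := by
    intro j
    unfold fx
    simp
    ring
  have hPQ1 : eval 1 (P * Q) ≠ 0 := by
    rw [eval_mul, hP, hQ, eval_prod, eval_prod]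
    refine mul_ne_zero ?_ ?_
    · rw [Finset.prod_ne_zero_iff]
      intro j _
      rw [eval_mul, eval_pow, eval_pow, hfx1, hfx1']
      exact mul_ne_zero (pow_ne_zero _ hn) (pow_ne_zero _ hn)
    · rw [Finset.prod_ne_zero_iff]
      intro j _
      rw [eval_mul, eval_pow, eval_pow, hfx1, hfx1']
      exact mul_ne_zero (pow_ne_zero _ hn) (pow_ne_zero _ hn)
  have hcop : IsCoprime (((X : (ZMod p)[X]) - 1) ^ (p - 2)) (P * Q) := by
    apply IsCoprime.pow_left
    have h3 : ((X : (ZMod p)[X]) - 1) = X - C 1 := by simp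
    rw [h3, (irreducible_X_sub_C (1 : ZMod p)).coprime_iff_not_dvd, dvd_iff_isRoot]
    exact hPQ1
  have hdiv2 : ((X : (ZMod p)[X]) - 1) ^ (p - 2) ∣ U - C (k : ZMod p) * G :=
    hcop.dvd_of_dvd_mul_left hdiv
  -- degrees
  have hsum : ∑ j : Fin m, 4 * ((j : ℕ) + 1) = 2 * m * (m + 1) := by
    rw [Fin.sum_univ_eq_sum_range (fun j => 4 * (j + 1)) m]
    clear * -
    induction m with
    | zero => simp
    | succ m ih => rw [Finset.sum_range_succ, ih]; ring
  have hdG : ∀ j : Fin m, (fx a t b ((j : ℕ) + 1) * fx b t a ((j : ℕ) + 1)).natDegree ≤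
      4 * ((j : ℕ) + 1) := by
    intro j
    refine natDegree_mul_le.trans ?_
    have h3 := deg_fx a t b ((j : ℕ) + 1)
    have h4 := deg_fx b t a ((j : ℕ) + 1)
    omega
  have hGdeg : G.natDegree ≤ 2 * m * (m + 1) := by
    rw [hG, ← hsum]
    refine (natDegree_prod_le _ _).trans ?_
    exact Finset.sum_le_sum fun j _ => hdG j
  have hUdeg : U.natDegree ≤ 2 * m * (m + 1) := by
    rw [hU]
    apply natDegree_sum_le_of_forall_le
    intro j _
    refine (natDegree_C_mul_le _ _).trans (natDegree_mul_le.trans ?_)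
    have h3 : (C (b - a) * num a t b ((j : ℕ) + 1)).natDegree ≤ 4 * ((j : ℕ) + 1) :=
      (natDegree_C_mul_le _ _).trans (deg_num a t b _)
    have h4 : (∏ i ∈ Finset.univ.erase j, (fx a t b ((i : ℕ) + 1) *
        fx b t a ((i : ℕ) + 1))).natDegree ≤ ∑ i ∈ Finset.univ.erase j, 4 * ((i : ℕ) + 1) :=
      (natDegree_prod_le _ _).trans (Finset.sum_le_sum fun i _ => hdG i)
    have h5 := Finset.add_sum_erase Finset.univ (fun i : Fin m => 4 * ((i : ℕ) + 1))
      (Finset.mem_univ j)
    rw [hsum] at h5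
    omega
  have hzero : U - C (k : ZMod p) * G = 0 := by
    apply eq_zero_of_dvd_of_natDegree_lt hdiv2
    have h3 : ((X : (ZMod p)[X]) - 1) = X - C 1 := by simp
    rw [h3, natDegree_pow, natDegree_X_sub_C, mul_one]
    have h4 : (U - C (k : ZMod p) * G).natDegree ≤ 2 * m * (m + 1) :=
      (natDegree_sub_le _ _).trans (max_le hUdeg ((natDegree_C_mul_le _ _).trans hGdeg))
    omega
  -- the value at zero
  have hfx0 : ∀ j : ℕ, (fx a t b (j + 1)).coeff 0 = a := by
    intro j
    unfold fx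
    simp [coeff_X_pow]
  have hfx0' : ∀ j : ℕ, (fx b t a (j + 1)).coeff 0 = b := by
    intro j
    unfold fx
    simp [coeff_X_pow]
  have hG0 : G.coeff 0 ≠ 0 := by
    rw [hG, coeff_zero_prod, Finset.prod_ne_zero_iff]
    intro j _
    rw [mul_coeff_zero, hfx0, hfx0']
    exact mul_ne_zero ha hb
  have hU0 : U.coeff 0 = 0 := by
    rw [hU, finsetSum_coeff]
    apply Finset.sum_eq_zero
    intro j _
    rw [mul_coeff_zero, mul_coeff_zero, mul_coeff_zero]
    have h3 : (num a t b ((j : ℕ) + 1)).coeff 0 = 0 := by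
      unfold num
      simp [coeff_X_pow]
    rw [h3]
    ring
  have hk0 : (k : ZMod p) = 0 := by
    have h3 := congrArg (fun P => coeff P 0) hzero
    simp only [coeff_sub, mul_coeff_zero, coeff_C_zero, coeff_zero, hU0, zero_sub,
      neg_eq_zero] at h3
    exact (mul_eq_zero.mp h3).resolve_right hG0
  have hUz : U = 0 := by
    rw [hk0, C_0, zero_mul, sub_zero] at hzero
    exact hzero
  have hba : b - a ≠ 0 := by
    intro h
    apply hab
    rw [sub_eq_zero] at h ⊢
    exact h.symm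
  have hprod0 : ∀ j : Fin m, (∏ i ∈ Finset.univ.erase j, (fx a t b ((i : ℕ) + 1) *
      fx b t a ((i : ℕ) + 1))).coeff 0 ≠ 0 := by
    intro j
    rw [coeff_zero_prod, Finset.prod_ne_zero_iff]
    intro i _
    rw [mul_coeff_zero, hfx0, hfx0']
    exact mul_ne_zero ha hb
  have hp2 : (2 : ZMod p) ≠ 0 := by
    intro h
    have h3 : ((2 : ℕ) : ZMod p) = 0 := by exact_mod_cast h
    rw [ZMod.natCast_eq_zero_iff] at h3
    have := Nat.le_of_dvd (by norm_num) h3
    omega
  have hc0 : ∀ j, c j = 0 := by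
    by_cases ht : t = 0
    · have hab' : a + b ≠ 0 := by
        intro h
        apply hn
        rw [ht, add_zero]
        exact h
      apply van (e := 2) (by norm_num) c (fun j => C (b - a) * C (2 * (a + b)) *
        ∏ i ∈ Finset.univ.erase j, (fx a t b ((i : ℕ) + 1) * fx b t a ((i : ℕ) + 1)))
      · intro j
        rw [mul_coeff_zero, mul_coeff_zero, coeff_C_zero, coeff_C_zero]
        exact mul_ne_zero (mul_ne_zero hba (mul_ne_zero hp2 hab')) (hprod0 j)
      · rw [← hUz, hU]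
        apply Finset.sum_congr rfl
        intro j _
        have h3 : num a t b ((j : ℕ) + 1) = C (2 * (a + b)) * X ^ (2 * ((j : ℕ) + 1)) := by
          unfold num
          rw [ht]
          simp
        rw [h3]
        ring
    · apply van (e := 1) le_rfl c (fun j => C (b - a) * (C t + C (2 * (a + b)) *
        X ^ ((j : ℕ) + 1) + C t * X ^ (2 * ((j : ℕ) + 1))) *
        ∏ i ∈ Finset.univ.erase j, (fx a t b ((i : ℕ) + 1) * fx b t a ((i : ℕ) + 1)))
      · intro j
        rw [mul_coeff_zero, mul_coeff_zero, coeff_C_zero]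
        refine mul_ne_zero (mul_ne_zero hba ?_) (hprod0 j)
        simpa [coeff_X_pow] using ht
      · rw [← hUz, hU]
        apply Finset.sum_congr rfl
        intro j _
        have h3 : num a t b ((j : ℕ) + 1) = X ^ ((j : ℕ) + 1) * (C t + C (2 * (a + b)) *
            X ^ ((j : ℕ) + 1) + C t * X ^ (2 * ((j : ℕ) + 1))) := by
          unfold num
          ring
        rw [h3, one_mul]
        ring
  apply hf
  funext j
  have h3 := hc0 j
  rw [hc] at h3
  simp only at h3
  have h4 : (((j : ℕ) + 1 : ℕ) : ZMod p) ≠ 0 := by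
    intro h
    rw [ZMod.natCast_eq_zero_iff] at h
    have h5 := Nat.le_of_dvd (by omega) h
    have h6 := j.2
    have h7 : m ≤ 2 * m * (m + 1) := by nlinarith
    omega
  have h5 := (mul_eq_zero.mp h3).resolve_left h4
  rw [ZMod.intCast_zmod_eq_zero_iff_dvd] at h5
  exact Int.eq_zero_of_abs_lt_dvd h5 (hfp j)

end Pool.Agent.FCW
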