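import Pool.Agent.FCW.Targets

/-!
# MODP: residues modulo `p`
-/

open NumberField

namespace Pool.Agent.FCW

namespace MODP_

variable {K : Type} [Field K] [NumberField K] {τ : 𝓞 K ≃+* 𝓞 K}

theorem cast_inj {m n : ℤ} (h : (m : 𝓞 K) = n) : m = n := Int.cast_injective h

/-- divisibility by an integer descends -/
theorem dvd_descend (hτ : IsConj K τ) {q m : ℤ} (hq : q ≠ 0) (h : (q : 𝓞 K) ∣ (m : 𝓞 K)) :
    q ∣ m := by
  obtain ⟨u, hu⟩ := h
  have h1 := congrArg τ hu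
  rw [map_intCast, map_mul, map_intCast, hu] at h1
  have hq' : (q : 𝓞 K) ≠ 0 := fun h0 => hq (by exact_mod_cast h0)
  have h2 := mul_left_cancel₀ hq' h1
  obtain ⟨n, hn⟩ := hτ.fix u h2.symm
  refine ⟨n, ?_⟩
  rw [hn] at hu
  exact_mod_cast hu

theorem pow_add_dvd {R : Type*} [CommRing R] {p : ℕ} (hp : p.Prime) (x y z : R)
    (h : x ^ p + y ^ p + z ^ p = 0) : (p : R) ∣ (x + y + z) ^ p := by
  obtain ⟨r, hr⟩ := exists_add_pow_prime_eq hp (x + y) z
  obtain ⟨s, hs⟩ := exists_add_pow_prime_eq hp x y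
  rw [hr, hs]
  refine ⟨r * (x + y) * z + s * x * y, ?_⟩
  linear_combination h

end MODP_

open MODP_ in
theorem p_MODP : T_MODP := by
  intro K _ _ τ hτ p hp x y z hxyz hcop g a b c T₁ T₂ hg h1 h2 h3
  have hp0 : (p : ℤ) ≠ 0 := by exact_mod_cast hp.ne_zero
  have hcx : IsCoprime x (p : 𝓞 K) := hcop.of_mul_left_left.of_mul_left_left
  have hctx : IsCoprime (τ x) (p : 𝓞 K) := by
    have h := hcx.map (τ : 𝓞 K →+* 𝓞 K)
    rwa [map_natCast] at h
  have hcn : IsCoprime (x * τ x) (p : 𝓞 K) := hcx.mul_left hctx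
  have hkey : ¬ (p : 𝓞 K) ∣ x * τ x := by
    intro hd
    have hu : IsUnit (p : 𝓞 K) := hcn.isUnit_of_dvd' hd dvd_rfl
    have h4 : ((p : ℤ) : 𝓞 K) ∣ ((1 : ℤ) : 𝓞 K) := by
      rw [Int.cast_natCast, Int.cast_one]
      exact isUnit_iff_dvd_one.1 hu
    have h5 := dvd_descend hτ hp0 h4
    have h6 : (p : ℤ) ≤ 1 := Int.le_of_dvd one_pos h5
    have h7 := hp.two_le
    omega
  have hpa : ¬ (p : ℤ) ∣ a := by
    rintro ⟨k, rfl⟩
    apply hkey
    rw [h1]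
    refine ⟨(g : 𝓞 K) * k, ?_⟩
    push_cast
    ring
  have hpg : ¬ (p : ℤ) ∣ g := by
    rintro ⟨k, rfl⟩
    apply hkey
    rw [h1]
    refine ⟨(k : 𝓞 K) * a, ?_⟩
    push_cast
    ring
  refine ⟨hpa, ?_⟩
  -- the trace form with `x + y + z`
  have he := pow_add_dvd hp x y z hxyz
  have he' := pow_add_dvd hp (τ x) (τ y) (τ z) (by
    rw [← map_pow, ← map_pow, ← map_pow, ← map_add, ← map_add, hxyz, map_zero])
  have hv : ((g * (2 * a + T₁ + T₂) : ℤ) : 𝓞 K) =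
      x * (τ x + τ y + τ z) + (x + y + z) * τ x := by
    push_cast
    linear_combination -2 * h1 - h2 - h3
  have hvp : ((p : ℤ) : 𝓞 K) ∣ (((g * (2 * a + T₁ + T₂)) ^ p : ℤ) : 𝓞 K) := by
    rw [Int.cast_pow, hv, Int.cast_natCast]
    obtain ⟨r, hr⟩ := exists_add_pow_prime_eq hp (x * (τ x + τ y + τ z)) ((x + y + z) * τ x)
    rw [hr, mul_pow, mul_pow]
    refine dvd_add (dvd_add (he'.mul_left _) (he.mul_right _)) ?_
    exact Dvd.intro (x * (τ x + τ y + τ z) * ((x + y + z) * τ x) * r) (by ring)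
  have h5 := dvd_descend hτ hp0 hvp
  have hpp : Prime (p : ℤ) := Nat.prime_iff_prime_int.1 hp
  rcases hpp.dvd_or_dvd (hpp.dvd_of_dvd_pow h5) with h6 | h6
  · exact absurd h6 hpg
  · exact h6

end Pool.Agent.FCW
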