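import Pool.Agent.FCW.Targets

/-!
# FCW-ANN: annihilation of ideals by the Stickelberger product
-/

set_option autoImplicit false

open NumberField

namespace Pool.Agent.FCW

namespace ANN_

variable (p : ℕ) [Fact p.Prime]

lemma stI_mul (I J : Ideal (Oc p)) : stI p (I * J) = stI p I * stI p J := by
  unfold stI
  rw [← Finset.prod_mul_distrib]
  exact Finset.prod_congr rfl fun u _ => Ideal.map_mul _ _ _

lemma stI_top : stI p ⊤ = ⊤ := by
  unfold stI
  rw [← Ideal.one_eq_top]
  refine Finset.prod_eq_one fun u _ => ?_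
  rw [Ideal.one_eq_top, Ideal.map_top]

lemma stI_cc (I : Ideal (Oc p)) :
    stI p (I.map (cc p : Oc p →+* Oc p)) = (stI p I).map (cc p : Oc p →+* Oc p) := by
  unfold stI
  have hm := map_prod (Ideal.mapHom (cc p : Oc p →+* Oc p))
    (fun u : (ZMod p)ˣ => I.map (sg p u⁻¹ : Oc p →+* Oc p)) (half p)
  simp only [Ideal.mapHom_apply] at hm
  rw [hm]
  refine Finset.prod_congr rfl fun u _ => ?_
  rw [Ideal.map_map, Ideal.map_map]
  congr 1
  ext x
  simp only [RingHom.comp_apply, RingHom.coe_coe, cc_sg]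

omit [Fact p.Prime] in
lemma exists_prime (l : Ideal (Oc p)) (hl : l.IsPrime) (n : ℕ) (hn : n ≠ 0)
    (h : (n : Oc p) ∈ l) : ∃ q : ℕ, q.Prime ∧ (q : Oc p) ∈ l := by
  induction n using Nat.strong_induction_on with
  | _ n ih =>
    by_cases h1 : n = 1
    · subst h1
      rw [Nat.cast_one] at h
      exact absurd ((Ideal.eq_top_iff_one l).2 h) hl.ne_top
    · have hq := Nat.minFac_prime h1
      obtain ⟨m, hm⟩ := Nat.minFac_dvd n
      have hm0 : m ≠ 0 := by
        rintro rfl
        exact hn (by rw [hm, mul_zero])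
      have h2 : ((n.minFac : ℕ) : Oc p) * ((m : ℕ) : Oc p) ∈ l := by
        rw [← Nat.cast_mul, ← hm]
        exact h
      rcases hl.mem_or_mem h2 with h3 | h3
      · exact ⟨n.minFac, hq, h3⟩
      · refine ih m ?_ hm0 h3
        have h4 := hq.two_le
        have h5 : 0 < m := Nat.pos_of_ne_zero hm0
        nlinarith

lemma coprime_of_one (h5 : 5 ≤ p) (q : ℕ) (hq : q.Prime) (h : (q : ZMod p) = 1) :
    q.Coprime (2 * p) := by
  have hp : p.Prime := Fact.out
  have hne : (1 : ZMod p) ≠ 0 := one_ne_zero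
  apply Nat.Coprime.mul_right
  · rw [Nat.coprime_primes hq Nat.prime_two]
    rintro rfl
    apply hne
    have h2 : ((2 : ℕ) : ZMod p) = 1 + 1 := by norm_num
    rw [h2] at h
    exact add_eq_right.1 h
  · rw [Nat.coprime_primes hq hp]
    rintro rfl
    rw [ZMod.natCast_self] at h
    exact hne h.symm

end ANN_

open ANN_ in
theorem p_ANN (h1 : T_JAC) (h2 : T_SELF) : T_ANN := by
  intro p _ h5 b
  induction b using UniqueFactorizationMonoid.induction_on_prime with
  | h₁ => intro h; exact absurd rfl h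
  | h₂ x hx =>
    intro _ _
    have hx' : x = ⊤ := Ideal.isUnit_iff.1 hx
    subst hx'
    refine ⟨1, 1, Nat.coprime_one_left _, ?_, ?_⟩
    · rw [map_one, mul_one, Nat.cast_one]
    · rw [map_one, Ideal.map_top]
  | h₃ a l ha hl ih =>
    intro hla hPM
    have hlp : l.IsPrime := Ideal.isPrime_of_prime hl
    have hl0 : l ≠ ⊥ := hl.ne_zero
    obtain ⟨γa, na, hna, hga, hea⟩ := ih ha
      (fun l' hl' hal q hq hql => hPM l' hl' (Ideal.mul_le_right.trans hal) q hq hql)
    have hN : Ideal.absNorm l ≠ 0 := by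
      rw [Ne, Ideal.absNorm_eq_zero_iff]
      exact hl0
    obtain ⟨q, hq, hql⟩ := exists_prime p l hlp _ hN (Ideal.absNorm_mem l)
    obtain ⟨γl, nl, hnl, hgl, hel⟩ : ∃ (γ : Oc p) (n : ℕ), n.Coprime (2 * p) ∧
        γ * cc p γ = (n : Oc p) ∧
        stI p l * Ideal.span {cc p γ} =
          stI p (l.map (cc p : Oc p →+* Oc p)) * Ideal.span {γ} := by
      rcases hPM l hlp Ideal.mul_le_left q hq hql with h | h
      · obtain ⟨J, hJ, hst⟩ := h1 p (by omega) l q hq hlp hql h
        refine ⟨J, q, coprime_of_one p h5 q hq h, hJ, ?_⟩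
        rw [stI_cc, hst, Ideal.map_span, Set.image_singleton]
        exact mul_comm _ _
      · refine ⟨1, 1, Nat.coprime_one_left _, ?_, ?_⟩
        · rw [map_one, mul_one, Nat.cast_one]
        · rw [h2 p l q hq hlp hql h, map_one]
    refine ⟨γl * γa, nl * na, Nat.Coprime.mul_left hnl hna, ?_, ?_⟩
    · rw [map_mul, Nat.cast_mul, ← hgl, ← hga]
      ring
    · rw [map_mul, Ideal.map_mul, stI_mul, stI_mul, ← Ideal.span_singleton_mul_span_singleton,
        ← Ideal.span_singleton_mul_span_singleton, mul_mul_mul_comm, hel, hea,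
        mul_mul_mul_comm]

end Pool.Agent.FCW
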