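import Pool.Agent.FCW.Targets2

/-!
# Residues modulo `4`
-/

open NumberField

namespace Pool.Agent.FCW

namespace C4_

/-- the algebra modulo `4` -/
theorem quot {Q : Type} [CommRing Q] (h4 : (4 : Q) = 0) (k l : Q) (hk : k ^ 2 + k + 1 = 0)
    (hl : l ^ 2 + l + 1 = 0) (p : ℕ) (hp : p % 3 = 1 ∨ p % 3 = 2) (h : k ^ p + l ^ p = 1) :
    (2 : Q) = 0 := by
  have hk3 : k ^ 3 = 1 := by linear_combination (k - 1) * hk
  have hl3 : l ^ 3 = 1 := by linear_combination (l - 1) * hl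
  have hkp : ∀ s : Q, s ^ 3 = 1 → s ^ p = s ^ (p % 3) := by
    intro s hs
    conv_lhs => rw [← Nat.div_add_mod p 3, pow_add, pow_mul, hs, one_pow, one_mul]
  rw [hkp k hk3, hkp l hl3] at h
  have hkl : k + l = 1 := by
    rcases hp with hp | hp
    · rw [hp, pow_one, pow_one] at h
      exact h
    · rw [hp] at h
      linear_combination hk + hl - h - h4
  have hl' : l = 1 - k := by linear_combination hkl
  rw [hl'] at hl
  linear_combination hl - hk + k * h4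

/-- `κ² + κ + 1 = 0` modulo `4` -/
theorem dvd4 {R : Type} [CommRing R] (α : R) (t m : ℤ) (ht : ¬ (2 : ℤ) ∣ t) (hm : ¬ (2 : ℤ) ∣ m)
    (h : α ^ 2 = (t : R) * α - (m : R)) : (4 : R) ∣ (α ^ 2) ^ 2 + α ^ 2 + 1 := by
  obtain ⟨u, hu⟩ : ∃ u, t = 2 * u + 1 := ⟨t / 2, by omega⟩
  obtain ⟨v, hv⟩ : ∃ v, m = 2 * v + 1 := ⟨m / 2, by omega⟩
  have h1 : (α ^ 2) ^ 2 + α ^ 2 + 1 =
      (((t ^ 3 + t - 2 * t * m : ℤ)) : R) * α + ((m ^ 2 - t ^ 2 * m - m + 1 : ℤ) : R) := by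
    rw [h]
    push_cast
    linear_combination (t : R) ^ 2 * h
  have h2 : t ^ 3 + t - 2 * t * m = 4 * (t * (u ^ 2 + u - v)) := by
    rw [hu, hv]; ring
  have h3 : m ^ 2 - t ^ 2 * m - m + 1 = 4 * (v ^ 2 - (u ^ 2 + u) * m) := by
    rw [hu, hv]; ring
  rw [h1, h2, h3]
  refine ⟨((t * (u ^ 2 + u - v) : ℤ) : R) * α + ((v ^ 2 - (u ^ 2 + u) * m : ℤ) : R), ?_⟩
  push_cast
  ring

/-- the element `x * τ z / g` -/
theorem elt (K : Type) [Field K] [NumberField K] (τ : 𝓞 K ≃+* 𝓞 K) (hτ : IsConj K τ)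
    (x z : 𝓞 K) (g a t c : ℤ) (hg : g ≠ 0) (h : NF K τ x z g a t c) :
    ∃ α : 𝓞 K, (g : 𝓞 K) * α = x * τ z ∧ α ^ 2 = (t : 𝓞 K) * α - ((a * c : ℤ) : 𝓞 K) := by
  have hg0 : (g : 𝓞 K) ≠ 0 := by exact_mod_cast hg
  have h1 : x * τ z ∈ Ideal.span {(g : 𝓞 K)} := by
    rw [← h.ideal]
    refine Ideal.mul_mem_mul (Ideal.subset_span (by simp)) ?_
    exact Ideal.mem_map_of_mem (τ : 𝓞 K →+* 𝓞 K) (Ideal.subset_span (by simp))
  obtain ⟨α, hα⟩ := Ideal.mem_span_singleton'.1 h1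
  have hα' : (g : 𝓞 K) * α = x * τ z := by rw [← hα, mul_comm]
  have h2 : (g : 𝓞 K) * τ α = z * τ x := by
    have h3 := congrArg τ hα'
    rw [map_mul, map_mul, map_intCast, hτ.invol] at h3
    rw [h3, mul_comm]
  have hsum : α + τ α = (t : 𝓞 K) := by
    apply mul_left_cancel₀ hg0
    rw [mul_add, hα', h2, h.hT]
  have hprod : α * τ α = ((a * c : ℤ) : 𝓞 K) := by
    apply mul_left_cancel₀ (mul_ne_zero hg0 hg0)
    push_cast
    calc (g : 𝓞 K) * g * (α * τ α) = ((g : 𝓞 K) * α) * ((g : 𝓞 K) * τ α) := by ring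
      _ = (x * τ x) * (z * τ z) := by rw [hα', h2]; ring
      _ = (g : 𝓞 K) * g * (a * c) := by rw [h.hA, h.hB]; ring
  refine ⟨α, hα', ?_⟩
  rw [← hsum, ← hprod]
  ring

end C4_

theorem p_C4 : T_C4 := by
  intro K _ _ τ hτ p hp hp5 x y z heq g a b c t₂ t₃ hg h2 h3 ha hb hc ht2 ht3
  have hg0 : (g : 𝓞 K) ≠ 0 := by exact_mod_cast hg
  obtain ⟨α, hα, hα2⟩ := C4_.elt K τ hτ x z g a t₂ c hg h2
  obtain ⟨β, hβ, hβ2⟩ := C4_.elt K τ hτ y z g b t₃ c hg h3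
  have hac : ¬ (2 : ℤ) ∣ a * c := by
    intro h
    rcases (Int.prime_two.dvd_mul).1 h with h | h
    · exact ha h
    · exact hc h
  have hbc : ¬ (2 : ℤ) ∣ b * c := by
    intro h
    rcases (Int.prime_two.dvd_mul).1 h with h | h
    · exact hb h
    · exact hc h
  have hk := C4_.dvd4 α t₂ (a * c) ht2 hac hα2
  have hl := C4_.dvd4 β t₃ (b * c) ht3 hbc hβ2
  have hmain : α ^ (2 * p) + β ^ (2 * p) = (c : 𝓞 K) ^ (2 * p) := by
    apply mul_left_cancel₀ (pow_ne_zero (2 * p) hg0)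
    rw [mul_add, ← mul_pow, ← mul_pow, ← mul_pow, hα, hβ, ← h2.hB, mul_pow, mul_pow, mul_pow,
      ← add_mul, heq]
  have hc8 : (4 : 𝓞 K) ∣ (c : 𝓞 K) ^ (2 * p) - 1 := by
    have h4 : (4 : ℤ) ∣ c ^ (2 * p) - 1 := by
      obtain ⟨v, hv⟩ : ∃ v, c = 2 * v + 1 := ⟨c / 2, by omega⟩
      have h5 : (4 : ℤ) ∣ c ^ 2 - 1 := ⟨v ^ 2 + v, by rw [hv]; ring⟩
      rw [pow_mul]
      refine h5.trans ?_
      have := sub_dvd_pow_sub_pow (c ^ 2) 1 p
      rwa [one_pow] at this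
    obtain ⟨w, hw⟩ := h4
    refine ⟨(w : 𝓞 K), ?_⟩
    have := congrArg (Int.cast : ℤ → 𝓞 K) hw
    push_cast at this
    exact this
  set I : Ideal (𝓞 K) := Ideal.span {(4 : 𝓞 K)} with hI
  have hz : ∀ r : 𝓞 K, (4 : 𝓞 K) ∣ r → Ideal.Quotient.mk I r = 0 := by
    intro r hr
    rw [Ideal.Quotient.eq_zero_iff_mem]
    exact Ideal.mem_span_singleton.2 hr
  have h4 : (4 : 𝓞 K ⧸ I) = 0 := by
    have := hz 4 dvd_rfl
    rwa [map_ofNat] at this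
  have hk' := hz _ hk
  have hl' := hz _ hl
  rw [map_add, map_add, map_pow, map_one] at hk' hl'
  have hc' := hz _ hc8
  rw [← hmain, pow_mul, pow_mul, map_sub, map_add, map_pow, map_pow, map_one] at hc'
  have hp3 : p % 3 = 1 ∨ p % 3 = 2 := by
    have h5 : p % 3 ≠ 0 := by
      intro h
      have h6 : 3 ∣ p := Nat.dvd_of_mod_eq_zero h
      have := (Nat.prime_dvd_prime_iff_eq Nat.prime_three hp).1 h6
      omega
    omega
  have h2' := C4_.quot h4 _ _ hk' hl' p hp3 (sub_eq_zero.1 hc')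
  have h7 : Ideal.Quotient.mk I 2 = 0 := by rw [map_ofNat]; exact h2'
  rw [Ideal.Quotient.eq_zero_iff_mem, hI, Ideal.mem_span_singleton] at h7
  obtain ⟨r, hr⟩ := h7
  have h20 : (2 : 𝓞 K) ≠ 0 := two_ne_zero
  have hr1 : 2 * r = 1 := by
    apply mul_left_cancel₀ h20
    rw [mul_one, ← mul_assoc]
    rw [show (2 : 𝓞 K) * 2 = 4 by norm_num]
    exact hr.symm
  have hr2 : 2 * τ r = 1 := by
    have := congrArg τ hr1
    rwa [map_mul, map_ofNat, map_one] at this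
  have hr3 : τ r = r := mul_left_cancel₀ h20 (hr2.trans hr1.symm)
  obtain ⟨n, hn⟩ := hτ.fix r hr3
  rw [hn] at hr1
  have h8 : (2 * n : ℤ) = 1 := by
    have : ((2 * n : ℤ) : 𝓞 K) = ((1 : ℤ) : 𝓞 K) := by push_cast; exact hr1
    exact_mod_cast this
  omega

end Pool.Agent.FCW
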