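import Pool.Agent.FCW.Targets

/-!
# FCW: CONJ, conjugation on a quadratic field
-/

open NumberField

namespace Pool.Agent.FCW

theorem p_CONJ : T_CONJ := by
  classical
  intro K _ _ hK
  have hq : Algebra.IsQuadraticExtension ℚ K := ⟨hK⟩
  have hG : IsGalois ℚ K := inferInstance
  have hcard : Nat.card (K ≃ₐ[ℚ] K) = 2 := by
    rw [IsGalois.card_aut_eq_finrank, hK]
  have hnt : Nontrivial (K ≃ₐ[ℚ] K) := by
    have : 1 < Nat.card (K ≃ₐ[ℚ] K) := by rw [hcard]; norm_num
    exact Finite.one_lt_card_iff_nontrivial.1 this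
  obtain ⟨σ, hσ⟩ := exists_ne (1 : K ≃ₐ[ℚ] K)
  have hord : orderOf σ = 2 := by
    have h1 : orderOf σ ∣ 2 := by rw [← hcard]; exact orderOf_dvd_natCard σ
    rcases (Nat.dvd_prime Nat.prime_two).1 h1 with h | h
    · exact absurd (orderOf_eq_one_iff.1 h) hσ
    · exact h
  have hsq : ∀ x : K, σ (σ x) = x := by
    intro x
    have h1 : σ ^ 2 = 1 := by rw [← hord]; exact pow_orderOf_eq_one σ
    have h2 := congrArg (fun f : K ≃ₐ[ℚ] K => f x) h1
    simpa [pow_two] using h2
  have hall : ∀ g : K ≃ₐ[ℚ] K, g = 1 ∨ g = σ := by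
    intro g
    have h3 : g ∈ Subgroup.zpowers σ := mem_zpowers_of_prime_card hcard hσ
    rw [mem_zpowers_iff_mem_range_orderOf, hord] at h3
    simp only [Finset.mem_image, Finset.mem_range] at h3
    obtain ⟨n, hn, rfl⟩ := h3
    interval_cases n
    · left; simp
    · right; simp
  have hfix : ∀ x : K, σ x = x → ∃ r : ℚ, algebraMap ℚ K r = x := by
    intro x hx
    have h4 := (IsGalois.mem_range_algebraMap_iff_fixed (F := ℚ) x).2 (by
      intro g
      rcases hall g with rfl | rfl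
      · rfl
      · exact hx)
    exact h4
  have hτ : ∀ x : 𝓞 K, ((RingOfIntegers.mapRingEquiv σ.toRingEquiv x : 𝓞 K) : K) = σ (x : K) :=
    fun x => rfl
  refine ⟨RingOfIntegers.mapRingEquiv σ.toRingEquiv, ?_, ?_, ?_⟩
  · intro x
    apply RingOfIntegers.ext
    rw [hτ, hτ, hsq]
  · intro x hx
    have h5 : σ (x : K) = x := by rw [← hτ, hx]
    obtain ⟨r, hr⟩ := hfix _ h5
    have h6 : IsIntegral ℤ (algebraMap ℚ K r) := by
      rw [hr]
      exact x.2
    have h7 : IsIntegral ℤ r := (isIntegral_algebraMap_iff (algebraMap ℚ K).injective).1 h6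
    obtain ⟨n, hn⟩ := IsIntegrallyClosed.isIntegral_iff.1 h7
    refine ⟨n, RingOfIntegers.ext ?_⟩
    rw [← hr, ← hn]
    simp
  · by_contra hcon
    push Not at hcon
    apply hσ
    ext k
    obtain ⟨a, b, hb, rfl⟩ := IsFractionRing.div_surjective (A := 𝓞 K) k
    have h8 : ∀ a : 𝓞 K, σ (a : K) = a := by
      intro a
      rw [← hτ, hcon]
    show σ (algebraMap (𝓞 K) K a / algebraMap (𝓞 K) K b) = _
    rw [map_div₀]
    exact congrArg₂ (· / ·) (h8 a) (h8 b)

end Pool.Agent.FCW
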