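import Pool.Agent.FCW.Targets

set_option autoImplicit false

/-!
# FCW-DATA: the three norm forms of a solution
-/

open NumberField

namespace Pool.Agent.FCW

namespace DATA_

variable {K : Type} [Field K] [NumberField K]

/-- the third member of a solution lies in the ideal of the two others -/
theorem mem_span {p : ℕ} (hp : 1 ≤ p) {x y z : 𝓞 K} (h : x ^ p + y ^ p + z ^ p = 0) :
    z ∈ Ideal.span {x, y} := by
  have hz : z ^ p ∈ (Ideal.span {x, y}) ^ p := by
    have h1 : z ^ p = -(x ^ p + y ^ p) := by linear_combination h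
    rw [h1, neg_mem_iff]
    refine add_mem (Ideal.pow_mem_pow ?_ p) (Ideal.pow_mem_pow ?_ p)
    · exact Ideal.subset_span (by simp)
    · exact Ideal.subset_span (by simp)
  have h2 : (Ideal.span {x, y}) ^ p ∣ (Ideal.span {z}) ^ p := by
    rw [Ideal.dvd_iff_le, Ideal.span_singleton_pow, Ideal.span_singleton_le_iff_mem]
    exact hz
  have h3 : Ideal.span {x, y} ∣ Ideal.span {z} :=
    (UniqueFactorizationMonoid.pow_dvd_pow_iff_dvd (by omega)).1 h2
  rw [Ideal.dvd_iff_le, Ideal.span_singleton_le_iff_mem] at h3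
  exact h3

theorem span_eq {p : ℕ} (hp : 1 ≤ p) {x y z : 𝓞 K} (h : x ^ p + y ^ p + z ^ p = 0) :
    Ideal.span {x, y} = Ideal.span {x, z} := by
  apply le_antisymm
  · rw [Ideal.span_le]
    rintro t (rfl | rfl)
    · exact Ideal.subset_span (by simp)
    · have h1 : t ∈ Ideal.span {z, x} := mem_span hp (x := z) (y := x) (z := t)
        (by linear_combination h)
      rwa [Set.pair_comm] at h1
  · rw [Ideal.span_le]
    rintro t (rfl | rfl)
    · exact Ideal.subset_span (by simp)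
    · exact mem_span hp h

theorem int_eq {g g' : ℤ} (hg : 0 < g) (hg' : 0 < g')
    (h : Ideal.span {(g : 𝓞 K)} = Ideal.span {(g' : 𝓞 K)}) : g = g' := by
  have h1 : Ideal.absNorm (Ideal.span {(g : 𝓞 K)}) = Ideal.absNorm (Ideal.span {(g' : 𝓞 K)}) := by
    rw [h]
  rw [Ideal.absNorm_span_singleton, Ideal.absNorm_span_singleton] at h1
  have h2 : ∀ n : ℤ, Algebra.norm ℤ (n : 𝓞 K) =
      n ^ Fintype.card (Module.Free.ChooseBasisIndex ℤ (𝓞 K)) := by
    intro n
    have := Algebra.norm_algebraMap_of_basis (RingOfIntegers.basis K) n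
    simpa using this
  rw [h2, h2, Int.natAbs_pow, Int.natAbs_pow] at h1
  have h3 : Fintype.card (Module.Free.ChooseBasisIndex ℤ (𝓞 K)) ≠ 0 := Fintype.card_ne_zero
  have h4 := Nat.pow_left_injective h3 h1
  have h4' : g.natAbs = g'.natAbs := h4
  omega

theorem cancel {g A B : ℤ} (hg : 0 < g) {t : 𝓞 K} (h1 : t = (g : 𝓞 K) * (A : 𝓞 K))
    (h2 : t = (g : 𝓞 K) * (B : 𝓞 K)) : A = B := by
  have h3 : (g : 𝓞 K) ≠ 0 := by exact_mod_cast hg.ne'
  have h4 : (A : 𝓞 K) = (B : 𝓞 K) := mul_left_cancel₀ h3 (h1.symm.trans h2)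
  exact_mod_cast h4

end DATA_

open DATA_ in
/-- DATA: the three norm forms of a solution. -/
theorem p_DATA (h : T_NF) : T_DATA := by
  intro K _ _ τ hτ p hp x y z hx hy _ heq
  obtain ⟨g1, A1, T1, B1, hg1, n1⟩ := h K τ hτ x y hx
  obtain ⟨g2, A2, T2, B2, hg2, n2⟩ := h K τ hτ x z hx
  obtain ⟨g3, A3, T3, B3, hg3, n3⟩ := h K τ hτ y z hy
  have e12 : Ideal.span {x, y} = Ideal.span {x, z} := span_eq hp heq
  have e23 : Ideal.span {x, y} = Ideal.span {y, z} := by
    rw [Set.pair_comm]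
    exact span_eq hp (by linear_combination heq)
  have hg12 : g1 = g2 := by
    apply int_eq (K := K) hg1 hg2
    rw [← n1.ideal, ← n2.ideal, e12]
  have hg13 : g1 = g3 := by
    apply int_eq (K := K) hg1 hg3
    rw [← n1.ideal, ← n3.ideal, e23]
  subst hg12
  subst hg13
  have a12 : A2 = A1 := cancel hg1 n2.hA n1.hA
  have a13 : A3 = B1 := cancel hg1 n3.hA n1.hB
  have b23 : B3 = B2 := cancel hg1 n3.hB n2.hB
  subst a12
  subst a13
  subst b23
  exact ⟨g1, _, _, _, T1, T2, T3, hg1, n1, n2, n3⟩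

end Pool.Agent.FCW
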