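import Pool.Agent.FCW.Targets2
import Pool.Agent.FCW.DATA

set_option autoImplicit false

/-!
# FCW-DATAB: the three norm forms of a solution, any exponent
-/

open NumberField

namespace Pool.Agent.FCW

namespace DATAB_

variable {K : Type} [Field K] [NumberField K]

/-- an element whose `n`-th power is an integral combination of `x ^ n` and `y ^ n` lies in the
ideal of `x` and `y` -/
theorem mem_span {n : ℕ} (hn : 1 ≤ n) {x y z : 𝓞 K} (a b : 𝓞 K)
    (h : z ^ n = a * x ^ n + b * y ^ n) : z ∈ Ideal.span {x, y} := by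
  have hz : z ^ n ∈ (Ideal.span {x, y}) ^ n := by
    rw [h]
    refine add_mem (Ideal.mul_mem_left _ _ (Ideal.pow_mem_pow ?_ n))
      (Ideal.mul_mem_left _ _ (Ideal.pow_mem_pow ?_ n))
    · exact Ideal.subset_span (by simp)
    · exact Ideal.subset_span (by simp)
  have h2 : (Ideal.span {x, y}) ^ n ∣ (Ideal.span {z}) ^ n := by
    rw [Ideal.dvd_iff_le, Ideal.span_singleton_pow, Ideal.span_singleton_le_iff_mem]
    exact hz
  have h3 : Ideal.span {x, y} ∣ Ideal.span {z} :=
    (UniqueFactorizationMonoid.pow_dvd_pow_iff_dvd (by omega)).1 h2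
  rw [Ideal.dvd_iff_le, Ideal.span_singleton_le_iff_mem] at h3
  exact h3

theorem span_eq {n : ℕ} (hn : 1 ≤ n) {x y z : 𝓞 K} (a b c d : 𝓞 K)
    (h : z ^ n = a * x ^ n + b * y ^ n) (h' : y ^ n = c * x ^ n + d * z ^ n) :
    Ideal.span {x, y} = Ideal.span {x, z} := by
  apply le_antisymm
  · rw [Ideal.span_le]
    rintro t (rfl | rfl)
    · exact Ideal.subset_span (by simp)
    · exact mem_span hn c d h'
  · rw [Ideal.span_le]
    rintro t (rfl | rfl)
    · exact Ideal.subset_span (by simp)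
    · exact mem_span hn a b h

end DATAB_

open DATA_ in
/-- DATAB: the three norm forms of a solution, any exponent. -/
theorem p_DATAB (h : T_NF) : T_DATAB := by
  intro K _ _ τ hτ n hn x y z hx hy _ heq
  obtain ⟨g1, A1, T1, B1, hg1, n1⟩ := h K τ hτ x y hx
  obtain ⟨g2, A2, T2, B2, hg2, n2⟩ := h K τ hτ x z hx
  obtain ⟨g3, A3, T3, B3, hg3, n3⟩ := h K τ hτ y z hy
  have e12 : Ideal.span {x, y} = Ideal.span {x, z} :=
    DATAB_.span_eq hn 1 1 (-1) 1 (by linear_combination -heq) (by linear_combination heq)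
  have e23 : Ideal.span {x, y} = Ideal.span {y, z} := by
    rw [Set.pair_comm]
    exact DATAB_.span_eq hn 1 1 (-1) 1 (by linear_combination -heq) (by linear_combination heq)
  have hg12 : g1 = g2 := by
    apply int_eq (K := K) hg1 hg2
    rw [← n1.ideal, ← n2.ideal, e12]
  have hg13 : g1 = g3 := by
    apply int_eq (K := K) hg1 hg3
    rw [← n1.ideal, ← n3.ideal, e23]
  subst hg12
  subst hg13
  have a12 : A2 = A1 := cancel hg1 n2.hA n1.hA
  have a13 : A3 = B1 := cancel hg1 n3.hA n1.hB
  have b23 : B3 = B2 := cancel hg1 n3.hB n2.hB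
  subst a12
  subst a13
  subst b23
  exact ⟨g1, _, _, _, T1, T2, T3, hg1, n1, n2, n3⟩

end Pool.Agent.FCW
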