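import Pool.Agent.FCW.Targets

/-!
# The discriminant of the norm form
-/

open NumberField

namespace Pool.Agent.FCW

namespace DISC_

theorem intCast_inj {K : Type} [Field K] [NumberField K] {a b : ℤ}
    (h : (a : 𝓞 K) = (b : 𝓞 K)) : a = b := by
  exact_mod_cast h

/-- the square root of `d` in the ring of integers -/
theorem exists_S {K : Type} [Field K] [NumberField K] {τ : 𝓞 K ≃+* 𝓞 K} (hτ : IsConj K τ)
    {d : ℤ} {s : K} (hs : s ^ 2 = (d : K)) (hr : ∀ r : ℚ, s ≠ (r : K)) :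
    ∃ S : 𝓞 K, S ^ 2 = (d : 𝓞 K) ∧ τ S = - S := by
  have hint : IsIntegral ℤ s := by
    have h1 : IsIntegral ℤ (s ^ 2) := by
      rw [hs]
      have := isIntegral_algebraMap (R := ℤ) (A := K) (x := d)
      simpa using this
    exact h1.of_pow (by norm_num)
  let S : 𝓞 K := ⟨s, hint⟩
  have hS : (algebraMap (𝓞 K) K) S = s := rfl
  have hS2 : S ^ 2 = (d : 𝓞 K) := by
    apply RingOfIntegers.coe_injective (K := K)
    rw [map_pow, hS, hs, map_intCast]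
  refine ⟨S, hS2, ?_⟩
  have h2 : (τ S) ^ 2 = S ^ 2 := by
    rw [← map_pow, hS2, map_intCast]
  rcases sq_eq_sq_iff_eq_or_eq_neg.1 h2 with h | h
  · exfalso
    obtain ⟨n, hn⟩ := hτ.fix S h
    apply hr n
    rw [← hS, hn, map_intCast]
    simp
  · exact h

end DISC_

open DISC_ in
theorem p_DISC : T_DISC := by
  intro K _ _ τ hτ d hd s hs hr x y g A T B hg hNF
  obtain ⟨S, hS2, hτS⟩ := exists_S hτ hs hr
  have hg' : (g : 𝓞 K) ≠ 0 := by exact_mod_cast hg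
  have hmem : x * τ y ∈ Ideal.span {(g : 𝓞 K)} := by
    rw [← hNF.ideal]
    refine Ideal.mul_mem_mul (Ideal.subset_span (by simp)) ?_
    exact Ideal.mem_map_of_mem (τ : 𝓞 K →+* 𝓞 K) (Ideal.subset_span (by simp))
  obtain ⟨u, hu⟩ := Ideal.mem_span_singleton'.1 hmem
  have hτu : τ u * (g : 𝓞 K) = y * τ x := by
    have h1 := congrArg τ hu
    rw [map_mul, map_mul, map_intCast, hτ.invol] at h1
    rw [h1, mul_comm]
  -- w
  have hw : (u - τ u) ^ 2 = ((T ^ 2 - 4 * A * B : ℤ) : 𝓞 K) := by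
    have h3 : (g : 𝓞 K) ^ 2 * (u - τ u) ^ 2 = (g : 𝓞 K) ^ 2 * ((T ^ 2 - 4 * A * B : ℤ) : 𝓞 K) := by
      have e1 : (g : 𝓞 K) ^ 2 * (u - τ u) ^ 2 = (u * g - τ u * g) ^ 2 := by ring
      have e2 : (u * (g : 𝓞 K) - τ u * g) ^ 2 =
          (x * τ y + y * τ x) ^ 2 - 4 * (x * τ x) * (y * τ y) := by
        rw [hu, hτu]; ring
      rw [e1, e2, hNF.hA, hNF.hT, hNF.hB]
      push_cast
      ring
    exact mul_left_cancel₀ (pow_ne_zero 2 hg') h3
  have hτw : τ (u - τ u) = -(u - τ u) := by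
    rw [map_sub, hτ.invol]; ring
  obtain ⟨m, hm⟩ := hτ.fix ((u - τ u) * S) (by rw [map_mul, hτw, hτS, neg_mul_neg])
  have hm2 : m ^ 2 = (T ^ 2 - 4 * A * B) * d := by
    apply intCast_inj (K := K)
    rw [Int.cast_pow, ← hm, mul_pow, hw, hS2, Int.cast_mul]
  have hdm : d ∣ m := by
    have h1 : d ∣ m ^ 2 := ⟨T ^ 2 - 4 * A * B, by rw [hm2, mul_comm]⟩
    exact (hd.dvd_pow_iff_dvd (by norm_num)).1 h1
  obtain ⟨r, rfl⟩ := hdm
  refine ⟨r, ?_⟩
  have hd0 : d ≠ 0 := hd.ne_zero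
  apply mul_right_cancel₀ hd0
  rw [← hm2]
  ring

end Pool.Agent.FCW
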