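import Pool.Agent.FCW.Targets

/-!
# Primes of degree one in the cyclotomic field (job DIST)
-/

open NumberField

namespace Pool.Agent.FCW

namespace DIST_

variable (p : ℕ) [Fact p.Prime]

theorem frob_eq {l : Ideal (Oc p)} {q : ℕ} (hq : q.Prime) (hl : l.IsPrime) (hql : (q : Oc p) ∈ l)
    (h1 : (q : ZMod p) = 1) (x : Oc p) :
    (Ideal.Quotient.mk l x) ^ q = Ideal.Quotient.mk l x := by
  have := Fact.mk hq
  have hz : (q : Oc p ⧸ l) = 0 := by
    rw [← map_natCast (Ideal.Quotient.mk l)]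
    exact Ideal.Quotient.eq_zero_iff_mem.2 hql
  have : CharP (Oc p ⧸ l) q := (CharP.charP_iff_prime_eq_zero hq).2 hz
  have h := hom_ext p ((frobenius (Oc p ⧸ l) q).comp (Ideal.Quotient.mk l))
    (Ideal.Quotient.mk l) (by
      rw [RingHom.comp_apply, frobenius_def, ← map_pow, ← zv_natCast, h1, zv_one])
  exact RingHom.congr_fun h x

theorem card_eq {l : Ideal (Oc p)} {q : ℕ} (hq : q.Prime) (hl : l.IsPrime)
    (hql : (q : Oc p) ∈ l) (h1 : (q : ZMod p) = 1) :
    Nat.card (Oc p ⧸ l) = q ∧ ∀ x : Oc p, ∃ c : ℕ, x - (c : Oc p) ∈ l := by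
  classical
  have := Fact.mk hq
  have hz : (q : Oc p ⧸ l) = 0 := by
    rw [← map_natCast (Ideal.Quotient.mk l)]
    exact Ideal.Quotient.eq_zero_iff_mem.2 hql
  have : CharP (Oc p ⧸ l) q := (CharP.charP_iff_prime_eq_zero hq).2 hz
  have hdeg : (Polynomial.X ^ q - Polynomial.X : Polynomial (Oc p ⧸ l)).natDegree = q := by
    rw [Polynomial.natDegree_sub_eq_left_of_natDegree_lt, Polynomial.natDegree_X_pow]
    rw [Polynomial.natDegree_X_pow, Polynomial.natDegree_X]
    exact hq.one_lt
  have hne : (Polynomial.X ^ q - Polynomial.X : Polynomial (Oc p ⧸ l)) ≠ 0 := by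
    intro h0
    rw [h0, Polynomial.natDegree_zero] at hdeg
    exact hq.ne_zero hdeg.symm
  have hroot : ∀ y : Oc p ⧸ l,
      y ∈ (Polynomial.X ^ q - Polynomial.X : Polynomial (Oc p ⧸ l)).roots.toFinset := by
    intro y
    rw [Multiset.mem_toFinset, Polynomial.mem_roots hne]
    obtain ⟨x, rfl⟩ := Ideal.Quotient.mk_surjective y
    simp [Polynomial.IsRoot, frob_eq p hq hl hql h1 x]
  have hfin : Finite (Oc p ⧸ l) := by
    refine Finite.of_injective (β := ((Polynomial.X ^ q - Polynomial.X :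
      Polynomial (Oc p ⧸ l)).roots.toFinset)) (fun y => ⟨y, hroot y⟩) ?_
    intro a b hab
    exact congrArg Subtype.val hab
  have hle : Nat.card (Oc p ⧸ l) ≤ q := by
    have := Fintype.ofFinite (Oc p ⧸ l)
    rw [Nat.card_eq_fintype_card, ← Finset.card_univ]
    calc (Finset.univ : Finset (Oc p ⧸ l)).card
        ≤ (Polynomial.X ^ q - Polynomial.X : Polynomial (Oc p ⧸ l)).roots.toFinset.card :=
          Finset.card_le_card fun y _ => hroot y
      _ ≤ _ := Multiset.toFinset_card_le _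
      _ ≤ _ := Polynomial.card_roots' _
      _ = q := hdeg
  have hinj : Function.Injective (ZMod.castHom (dvd_refl q) (Oc p ⧸ l)) :=
    (ZMod.castHom (dvd_refl q) (Oc p ⧸ l)).injective
  have hge : q ≤ Nat.card (Oc p ⧸ l) := by
    have h := Nat.card_le_card_of_injective _ hinj
    rwa [Nat.card_zmod] at h
  have hcard : Nat.card (Oc p ⧸ l) = q := le_antisymm hle hge
  refine ⟨hcard, fun x => ?_⟩
  have hbij := hinj.bijective_of_nat_card_le (by rw [Nat.card_zmod]; exact hle)
  obtain ⟨c, hc⟩ := hbij.2 (Ideal.Quotient.mk l x)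
  refine ⟨c.val, ?_⟩
  rw [← Ideal.Quotient.eq_zero_iff_mem, map_sub, map_natCast, ← hc, sub_eq_zero]
  rw [ZMod.castHom_apply, ZMod.natCast_val]

theorem one_sub_zv_dvd {a : ZMod p} (ha : a ≠ 0) : (1 - zv p a : Oc p) ∣ (p : Oc p) := by
  obtain ⟨n, hn⟩ : ∃ n, p = n + 1 := ⟨p - 1, by have := (Fact.out : p.Prime).pos; omega⟩
  have hprim : IsPrimitiveRoot (zt p) (n + 1) := by rw [← hn]; exact zt_prim p
  have h := hprim.prod_one_sub_pow_eq_order
  have h2 : (p : Oc p) = (n : Oc p) + 1 := by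
    have h3 : ((p : ℕ) : Oc p) = ((n + 1 : ℕ) : Oc p) := congrArg _ hn
    rw [h3]
    push_cast
    rfl
  rw [h2, ← h]
  have hlt : a.val < n + 1 := by rw [← hn]; exact ZMod.val_lt a
  have hpos : a.val ≠ 0 := by rwa [Ne, ZMod.val_eq_zero]
  have hmem : a.val - 1 ∈ Finset.range n := Finset.mem_range.2 (by omega)
  have h3 := Finset.dvd_prod_of_mem (fun k => (1 - zt p ^ (k + 1) : Oc p)) hmem
  have h4 : a.val - 1 + 1 = a.val := by omega
  simp only [h4] at h3
  exact h3

end DIST_

theorem p_DIST : T_DIST := by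
  intro p _ l q hq hl hql h1
  obtain ⟨hcard, hc⟩ := DIST_.card_eq p hq hl hql h1
  refine ⟨?_, ?_⟩
  · rw [Ideal.absNorm_apply, Submodule.cardQuot_apply]
    exact hcard
  · intro u v huv
    by_contra hne
    set w : (ZMod p)ˣ := v⁻¹ * u with hw
    have hw1 : w ≠ 1 := fun h => hne (by
      rw [hw, inv_mul_eq_one] at h
      exact h.symm)
    have hmap : l.map (sg p w : Oc p →+* Oc p) = l := by
      have h2 := congrArg (fun I : Ideal (Oc p) => I.map (sg p v⁻¹ : Oc p →+* Oc p)) huv
      simp only [Ideal.map_map] at h2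
      have e1 : (sg p v⁻¹ : Oc p →+* Oc p).comp (sg p u : Oc p →+* Oc p) =
          (sg p w : Oc p →+* Oc p) := by
        ext x
        exact congrArg _ (sg_mul p v⁻¹ u x).symm
      have e2 : (sg p v⁻¹ : Oc p →+* Oc p).comp (sg p v : Oc p →+* Oc p) = RingHom.id (Oc p) := by
        refine RingHom.ext fun x => ?_
        have h3 := sg_mul p v⁻¹ v x
        rw [inv_mul_cancel, sg_one] at h3
        exact h3.symm
      rw [e1, e2, Ideal.map_id] at h2
      exact h2
    obtain ⟨c, hcz⟩ := hc (zt p)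
    have h4 : zv p w - (c : Oc p) ∈ l := by
      have h5 := Ideal.mem_map_of_mem (sg p w : Oc p →+* Oc p) hcz
      rw [hmap] at h5
      have h6 : (sg p w : Oc p →+* Oc p) (zt p - (c : Oc p)) = zv p w - (c : Oc p) := by
        rw [map_sub, map_natCast]
        exact congrArg (fun t => t - (c : Oc p)) (sg_zt p w)
      rwa [h6] at h5
    have h5 : zt p * (1 - zv p ((w : ZMod p) - 1)) ∈ l := by
      have h6 : zt p * (1 - zv p ((w : ZMod p) - 1)) =
          (zt p - (c : Oc p)) - (zv p w - (c : Oc p)) := by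
        have h7 : zt p * zv p ((w : ZMod p) - 1) = zv p w := by
          rw [← zv_one p, ← zv_add]
          congr 1
          ring
        rw [mul_sub, mul_one, h7]
        ring
      rw [h6]
      exact l.sub_mem hcz h4
    have ha : ((w : ZMod p) - 1) ≠ 0 := fun h => hw1 (Units.ext (by
      rw [sub_eq_zero] at h
      simpa using h))
    have h8 : (1 - zv p ((w : ZMod p) - 1)) ∈ l := by
      rcases hl.mem_or_mem h5 with h | h
      · exfalso
        apply hl.ne_top
        rw [Ideal.eq_top_iff_one, ← zt_pow p]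
        exact l.pow_mem_of_mem h p (Fact.out : p.Prime).pos
      · exact h
    have hp : (p : Oc p) ∈ l := l.mem_of_dvd (DIST_.one_sub_zv_dvd p ha) h8
    have hcop : Nat.Coprime p q := by
      rw [Nat.coprime_primes (Fact.out : p.Prime) hq]
      rintro rfl
      rw [ZMod.natCast_self] at h1
      exact zero_ne_one h1
    have h9 : IsCoprime (p : ℤ) (q : ℤ) := Nat.isCoprime_iff_coprime.2 hcop
    obtain ⟨a, b, hab⟩ := h9
    apply hl.ne_top
    rw [Ideal.eq_top_iff_one]
    have h10 : (1 : Oc p) = (a : Oc p) * (p : Oc p) + (b : Oc p) * (q : Oc p) := by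
      have := congrArg (fun t : ℤ => (t : Oc p)) hab
      push_cast at this
      exact this.symm
    rw [h10]
    exact l.add_mem (l.mul_mem_left _ hp) (l.mul_mem_left _ hql)

end Pool.Agent.FCW
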