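import Pool.Agent.FCW.Targets

/-! # Pigeonhole in the class group -/

open NumberField

namespace Pool.Agent.FCW

namespace EIA_

variable (p : ℕ) [Fact p.Prime]

/-- the factor at `ζ ^ k` -/
noncomputable def Pj (A T B : ℤ) (k : ℕ) : Oc p := A + T * zt p ^ k + B * zt p ^ (2 * k)

theorem aeval_FX (A T B : ℤ) (k : ℕ) :
    Polynomial.aeval (zt p) (FX A T B k) = Pj p A T B k := by
  unfold FX Pj
  rw [map_add, map_add, map_mul, map_mul, map_pow, map_pow, Polynomial.aeval_X]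
  simp

theorem zt_mul_cc (k : ℕ) : zt p ^ k * cc p (zt p ^ k) = 1 := by
  rw [← zv_natCast, cc_zv, ← zv_add, add_neg_cancel, zv_zero]

theorem cc_int (n : ℤ) : cc p (n : Oc p) = n := map_intCast _ n

theorem Pj_swap (A T B : ℤ) (k : ℕ) :
    Pj p B T A k = zt p ^ (2 * k) * cc p (Pj p A T B k) := by
  unfold Pj
  rw [map_add, map_add, map_mul, map_mul, cc_int, cc_int, cc_int]
  have h1 := zt_mul_cc p k
  have h2 := zt_mul_cc p (2 * k)
  have h3 : zt p ^ (2 * k) * cc p (zt p ^ k) = zt p ^ k := by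
    rw [two_mul, pow_add, mul_assoc, h1, mul_one]
  linear_combination (-(T : Oc p)) * h3 - (B : Oc p) * h2

theorem sg_Fz (u : (ZMod p)ˣ) (A T B : ℤ) (k : ℕ) (h : (u : ZMod p) = k) :
    sg p u (Fz p A T B) = Pj p A T B k := by
  unfold Fz Pj
  rw [map_add, map_add, map_mul, map_mul, map_pow, sg_zt, h, zv_natCast, sg_int, sg_int, sg_int,
    ← pow_mul, mul_comm k 2]

theorem pi_prime : Prime (zt p - 1) :=
  (IsCyclotomicExtension.zeta_spec p ℚ (Cy p)).zeta_sub_one_prime'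

theorem pi_dvd_int (n : ℤ) : zt p - 1 ∣ (n : Oc p) ↔ (p : ℤ) ∣ n :=
  IsCyclotomicExtension.Rat.zeta_sub_one_dvd_intCast_iff' p
    (IsCyclotomicExtension.zeta_spec p ℚ (Cy p))

theorem pi_dvd_p : zt p - 1 ∣ (p : Oc p) := by
  have h := (pi_dvd_int p (p : ℤ)).mpr dvd_rfl
  simpa using h

theorem pi_dvd_pow (k : ℕ) : zt p - 1 ∣ zt p ^ k - 1 := by
  have h := sub_dvd_pow_sub_pow (zt p) 1 k
  rwa [one_pow] at h

theorem pi_dvd_Pj (A T B : ℤ) (k : ℕ) : zt p - 1 ∣ Pj p A T B k - ((A + T + B : ℤ) : Oc p) := by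
  have h1 := pi_dvd_pow p k
  have h2 := pi_dvd_pow p (2 * k)
  have h3 : Pj p A T B k - ((A + T + B : ℤ) : Oc p) =
      (T : Oc p) * (zt p ^ k - 1) + (B : Oc p) * (zt p ^ (2 * k) - 1) := by
    unfold Pj
    push_cast
    ring
  rw [h3]
  exact dvd_add (dvd_mul_of_dvd_right h1 _) (dvd_mul_of_dvd_right h2 _)

/-- the ring of integers modulo `p` -/
abbrev Rp : Type := Oc p ⧸ (Ideal.span ({(p : Oc p)} : Set (Oc p)) : Ideal (Oc p))

instance charRp : CharP (Rp p) p := by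
  apply CharP.quotient
  intro h
  exact (pi_prime p).not_isUnit (isUnit_of_dvd_unit (pi_dvd_p p) h)

/-- reduction modulo `p` -/
noncomputable def red : Oc p →+* Rp p := Ideal.Quotient.mk _

omit [Fact p.Prime] in
theorem red_eq (x y : Oc p) : red p x = red p y ↔ (p : Oc p) ∣ x - y := by
  unfold red
  rw [Ideal.Quotient.eq, Ideal.mem_span_singleton]

/-- the Frobenius after the reduction -/
noncomputable def fr : Oc p →+* Rp p := (frobenius (Rp p) p).comp (red p)

theorem fr_apply (x : Oc p) : fr p x = red p x ^ p := rfl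

theorem fr_cc (x : Oc p) : fr p (cc p x) = fr p x := by
  have h : (fr p).comp (cc p : Oc p →+* Oc p) = fr p := by
    apply hom_ext
    have h1 : (cc p : Oc p →+* Oc p) (zt p) = zv p (-1) := by
      have h2 := cc_zv p 1
      rwa [zv_one] at h2
    rw [RingHom.comp_apply, h1, fr_apply, fr_apply, ← map_pow, ← map_pow, zv_pow, zt_pow]
    have h3 : ((p : ℕ) : ZMod p) * (-1) = 0 := by
      rw [ZMod.natCast_self, zero_mul]
    rw [h3, zv_zero]
  exact RingHom.congr_fun h x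

/-- `x^p` is an integer modulo `p`, the same for `x` and its conjugate -/
theorem pow_p (x : Oc p) : ∃ h : ℤ, red p x ^ p = (h : Rp p) ∧ red p (cc p x) ^ p = (h : Rp p) := by
  obtain ⟨P, hP⟩ := exists_poly p x
  have h0 : red p x ^ p = ((P.eval 1 : ℤ) : Rp p) := by
    rw [← fr_apply, ← hP, Polynomial.aeval_def, Polynomial.hom_eval₂]
    have h1 : fr p (zt p) = 1 := by
      rw [fr_apply, ← map_pow, zt_pow, map_one]
    rw [h1]
    have h2 : (fr p).comp (algebraMap ℤ (Oc p)) = Int.castRingHom (Rp p) := RingHom.ext_int _ _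
    rw [h2, Polynomial.eval₂_at_one]
    rfl
  refine ⟨P.eval 1, h0, ?_⟩
  rw [← fr_apply, fr_cc, fr_apply, h0]

theorem int_unit (h : ℤ) (hh : ¬ (p : ℤ) ∣ h) : IsUnit (h : Rp p) := by
  have hp : p.Prime := Fact.out
  have h1 : IsCoprime (p : ℤ) h := by
    rw [Prime.coprime_iff_not_dvd (Nat.prime_iff_prime_int.mp hp)]
    exact hh
  obtain ⟨a, b, hab⟩ := h1
  have h2 : ((a * p + b * h : ℤ) : Rp p) = 1 := by rw [hab, Int.cast_one]
  have h3 : ((p : ℕ) : Rp p) = 0 := CharP.cast_eq_zero _ p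
  push_cast at h2
  refine IsUnit.of_mul_eq_one (b : Rp p) ?_
  linear_combination h2 - (a : Rp p) * h3

/-- `x^p` is a unit modulo `p` if `x` is prime to `ζ - 1` -/
theorem pow_p_unit (x : Oc p) (hx : ¬ zt p - 1 ∣ x) :
    ∃ h : Rp p, IsUnit h ∧ red p x ^ p = h ∧ red p (cc p x) ^ p = h := by
  obtain ⟨h, h1, h2⟩ := pow_p p x
  refine ⟨h, int_unit p h ?_, h1, h2⟩
  intro hh
  have h3 : red p (x ^ p) = red p (h : Oc p) := by
    rw [map_pow, h1, map_intCast]
  rw [red_eq] at h3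
  have h4 : zt p - 1 ∣ x ^ p - (h : Oc p) := (pi_dvd_p p).trans h3
  have h5 : zt p - 1 ∣ (h : Oc p) := (pi_dvd_int p h).mpr hh
  have h6 : zt p - 1 ∣ x ^ p := (dvd_sub_left h5).mp h4
  exact hx ((pi_prime p).dvd_of_dvd_pow h6)

/-- a unit is a root of unity times its conjugate -/
theorem unit_conj (hp : 3 ≤ p) (e : Oc p) (he : IsUnit e) :
    ∃ (s : ℕ) (t : ℤ), (t = 1 ∨ t = -1) ∧ e = (t : Oc p) * zt p ^ s * cc p e := by
  have hpp : p.Prime := Fact.out
  have hodd : Odd p := hpp.odd_of_ne_two (by omega)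
  obtain ⟨u, rfl⟩ := he
  have hv : IsUnit (cc p (u : Oc p)) := u.isUnit.map (cc p)
  obtain ⟨v, hv⟩ := hv
  set w : Oc p := (u : Oc p) * ((v⁻¹ : (Oc p)ˣ) : Oc p) with hw
  have hwe : (u : Oc p) = w * cc p (u : Oc p) := by
    rw [hw, ← hv, mul_assoc, Units.inv_mul, mul_one]
  have hfin : IsOfFinOrder ((w : Oc p) : Cy p) := by
    have h0 : ∃ (n : ℕ) (_ : 0 < n), ((w : Oc p) : Cy p) ^ n = 1 := by
      apply NumberField.Embeddings.pow_eq_one_of_norm_eq_one (Cy p) ℂ
      · exact w.isIntegral_coe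
      · intro φ
        have h1 := congrArg (fun x : Oc p => φ (x : Cy p)) hwe
        simp only [map_mul] at h1
        have h2 : φ (cc p (u : Oc p) : Cy p) = (starRingEnd ℂ) (φ ((u : Oc p) : Cy p)) :=
          cc_conj p (φ.comp (algebraMap (Oc p) (Cy p))) (u : Oc p)
        rw [h2] at h1
        have h3 := congrArg norm h1
        rw [norm_mul, RCLike.norm_conj] at h3
        have h4 : ‖φ ((u : Oc p) : Cy p)‖ ≠ 0 := by
          rw [norm_ne_zero_iff]
          intro h5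
          rw [map_eq_zero] at h5
          exact u.ne_zero (by exact_mod_cast h5)
        exact mul_right_cancel₀ h4 (by rw [one_mul]; exact h3.symm)
    obtain ⟨n, hn, h⟩ := h0
    exact isOfFinOrder_iff_pow_eq_one.mpr ⟨n, hn, h⟩
  obtain ⟨r, _, hr⟩ := (IsCyclotomicExtension.zeta_spec p ℚ
    (Cy p)).exists_pow_or_neg_mul_pow_of_isOfFinOrder hodd hfin
  rcases hr with hr | hr
  · refine ⟨r, 1, Or.inl rfl, ?_⟩
    rw [Int.cast_one, one_mul]
    have : w = zt p ^ r := by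
      apply FaithfulSMul.algebraMap_injective (Oc p) (Cy p)
      rw [map_pow]
      exact hr
    rw [← this]
    exact hwe
  · refine ⟨r, -1, Or.inr rfl, ?_⟩
    have : w = -zt p ^ r := by
      apply FaithfulSMul.algebraMap_injective (Oc p) (Cy p)
      rw [map_neg, map_pow]
      exact hr
    rw [Int.cast_neg, Int.cast_one, neg_one_mul, ← this]
    exact hwe

theorem aeval_PX {m : ℕ} (A T B : ℤ) (f : Fin m → ℤ) :
    Polynomial.aeval (zt p) (PX A T B f) =
      (∏ j : Fin m, Pj p A T B ((j : ℕ) + 1) ^ (f j).toNat) *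
      (∏ j : Fin m, Pj p B T A ((j : ℕ) + 1) ^ (-f j).toNat) := by
  unfold PX
  rw [map_prod, ← Finset.prod_mul_distrib]
  apply Finset.prod_congr rfl
  intro j _
  rw [map_mul, map_pow, map_pow, aeval_FX, aeval_FX]

theorem prod_swap {m : ℕ} (A T B : ℤ) (g : Fin m → ℕ) :
    ∃ s : ℕ, (∏ j : Fin m, Pj p B T A ((j : ℕ) + 1) ^ g j) =
      zt p ^ s * cc p (∏ j : Fin m, Pj p A T B ((j : ℕ) + 1) ^ g j) := by
  refine ⟨∑ j : Fin m, 2 * ((j : ℕ) + 1) * g j, ?_⟩
  rw [map_prod, ← Finset.prod_pow_eq_pow_sum, ← Finset.prod_mul_distrib]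
  apply Finset.prod_congr rfl
  intro j _
  rw [Pj_swap, mul_pow, map_pow, ← pow_mul]

theorem not_pi_Pj (A T B : ℤ) (hN : ¬ (p : ℤ) ∣ A + T + B) (k : ℕ) :
    ¬ zt p - 1 ∣ Pj p A T B k := by
  intro h
  have h1 := dvd_sub h (pi_dvd_Pj p A T B k)
  rw [sub_sub_cancel, pi_dvd_int] at h1
  exact hN h1

theorem not_pi_prod {m : ℕ} (A T B : ℤ) (hN : ¬ (p : ℤ) ∣ A + T + B) (g : Fin m → ℕ) :
    ¬ zt p - 1 ∣ ∏ j : Fin m, Pj p A T B ((j : ℕ) + 1) ^ g j := by
  intro h
  rw [(pi_prime p).dvd_finsetProd_iff] at h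
  obtain ⟨j, _, hj⟩ := h
  exact not_pi_Pj p A T B hN _ ((pi_prime p).dvd_of_dvd_pow hj)

/-- reduction modulo `ζ - 1` -/
noncomputable def rpi : Oc p →+* Oc p ⧸ (Ideal.span ({zt p - 1} : Set (Oc p))) :=
  Ideal.Quotient.mk _

theorem rpi_eq (x y : Oc p) : rpi p x = rpi p y ↔ zt p - 1 ∣ x - y := by
  unfold rpi
  rw [Ideal.Quotient.eq, Ideal.mem_span_singleton]

theorem rpi_Pj (A T B : ℤ) (k : ℕ) :
    rpi p (Pj p A T B k) = rpi p ((A + T + B : ℤ) : Oc p) := by
  rw [rpi_eq]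
  exact pi_dvd_Pj p A T B k

theorem rpi_zt (k : ℕ) : rpi p (zt p ^ k) = 1 := by
  rw [← map_one (rpi p), rpi_eq]
  exact pi_dvd_pow p k

theorem rpi_PX {m : ℕ} (A T B : ℤ) (f : Fin m → ℤ) :
    rpi p (Polynomial.aeval (zt p) (PX A T B f)) =
      rpi p (Polynomial.aeval (zt p) (PX B T A f)) := by
  rw [aeval_PX, aeval_PX, map_mul, map_mul, map_prod, map_prod, map_prod, map_prod]
  have h1 : (B + T + A : ℤ) = A + T + B := by ring
  congr 1 <;>
  · apply Finset.prod_congr rfl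
    intro j _
    rw [map_pow, map_pow, rpi_Pj, rpi_Pj, h1]

theorem not_pi_PX {m : ℕ} (A T B : ℤ) (hN : ¬ (p : ℤ) ∣ A + T + B) (f : Fin m → ℤ) :
    ¬ zt p - 1 ∣ Polynomial.aeval (zt p) (PX A T B f) := by
  intro h
  rw [aeval_PX] at h
  rcases (pi_prime p).dvd_or_dvd h with h | h
  · exact not_pi_prod p A T B hN _ h
  · refine not_pi_prod p B T A ?_ _ h
    intro h1
    apply hN
    have h2 : (B + T + A : ℤ) = A + T + B := by ring
    rwa [h2] at h1

omit [Fact p.Prime] in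
/-- pigeonhole -/
theorem pigeon (m : ℕ)
    (hcard : Nat.card {c : ClassGroup (Oc p) // c ^ p = 1} < p ^ m)
    (I : Fin m → (nonZeroDivisors (Ideal (Oc p)))) (P : Fin m → Oc p)
    (hI : ∀ j, (I j : Ideal (Oc p)) ^ p = Ideal.span {P j}) (hP0 : ∀ j, P j ≠ 0) :
    ∃ f : Fin m → ℤ, f ≠ 0 ∧ (∀ j, |f j| < p) ∧ ∃ x y e : Oc p, x ≠ 0 ∧ y ≠ 0 ∧ IsUnit e ∧
      x ^ p * ∏ j, P j ^ (f j).toNat = e * y ^ p * ∏ j, P j ^ (-f j).toNat := by
  classical
  have hone : ∀ j, ClassGroup.mk0 (I j) ^ p = 1 := by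
    intro j
    rw [← map_pow]
    have h1 : (I j) ^ p = ⟨(I j : Ideal (Oc p)) ^ p, pow_mem (I j).2 p⟩ := by
      apply Subtype.ext
      rfl
    rw [h1, ClassGroup.mk0_eq_one_iff, hI]
    exact ⟨⟨P j, rfl⟩⟩
  let Φ : (Fin m → Fin p) → {c : ClassGroup (Oc p) // c ^ p = 1} := fun e =>
    ⟨∏ j, ClassGroup.mk0 (I j) ^ (e j : ℕ), by
      rw [← Finset.prod_pow]
      apply Finset.prod_eq_one
      intro j _
      rw [← pow_mul, mul_comm, pow_mul, hone, one_pow]⟩
  have hni : ¬ Function.Injective Φ := by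
    intro hinj
    have h1 := Nat.card_le_card_of_injective Φ hinj
    rw [Nat.card_fun, Nat.card_fin, Nat.card_fin] at h1
    omega
  rw [Function.not_injective_iff] at hni
  obtain ⟨e, e', hee, hne⟩ := hni
  have h1 : ClassGroup.mk0 (∏ j, I j ^ (e j : ℕ)) = ClassGroup.mk0 (∏ j, I j ^ (e' j : ℕ)) := by
    have h2 := congrArg Subtype.val hee
    simp only [Φ] at h2
    rw [map_prod, map_prod]
    simp only [map_pow]
    exact h2
  rw [ClassGroup.mk0_eq_mk0_iff] at h1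
  obtain ⟨x, y, hx, hy, hxy⟩ := h1
  have hco : ∀ e : Fin m → Fin p, (((∏ j, I j ^ (e j : ℕ) :
      (nonZeroDivisors (Ideal (Oc p)))) : Ideal (Oc p))) ^ p =
      Ideal.span {∏ j, P j ^ (e j : ℕ)} := by
    intro e
    rw [Submonoid.coe_finsetProd, ← Finset.prod_pow, ← Ideal.prod_span_singleton]
    apply Finset.prod_congr rfl
    intro j _
    rw [SubmonoidClass.coe_pow, ← pow_mul, mul_comm, pow_mul, hI, Ideal.span_singleton_pow]
  have h2 := congrArg (fun J : Ideal (Oc p) => J ^ p) hxy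
  simp only [mul_pow] at h2
  rw [hco, hco, Ideal.span_singleton_pow, Ideal.span_singleton_pow,
    Ideal.span_singleton_mul_span_singleton, Ideal.span_singleton_mul_span_singleton,
    Ideal.span_singleton_eq_span_singleton] at h2
  obtain ⟨u, hu⟩ := h2.symm
  refine ⟨fun j => (e j : ℤ) - (e' j : ℤ), ?_, ?_, x, y, u, hx, hy, u.isUnit, ?_⟩
  · intro h0
    apply hne
    funext j
    have h3 := congrFun h0 j
    simp only [Pi.zero_apply] at h3
    apply Fin.ext
    omega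
  · intro j
    have h3 := (e j).isLt
    have h4 := (e' j).isLt
    simp only
    rw [abs_lt]
    constructor <;> omega
  · have hmin : ∀ (a b : Fin m → Fin p), ∏ j, P j ^ (a j : ℕ) =
        (∏ j, P j ^ (min (a j : ℕ) (b j : ℕ))) * ∏ j, P j ^ ((a j : ℤ) - (b j : ℤ)).toNat := by
      intro a b
      rw [← Finset.prod_mul_distrib]
      apply Finset.prod_congr rfl
      intro j _
      rw [← pow_add]
      congr 1
      omega
    have hc : ∏ j, P j ^ (min (e j : ℕ) (e' j : ℕ)) ≠ 0 := by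
      rw [Finset.prod_ne_zero_iff]
      intro j _
      exact pow_ne_zero _ (hP0 j)
    have h3 := hmin e e'
    have h4 := hmin e' e
    have h5 : (∏ j, P j ^ (min (e' j : ℕ) (e j : ℕ))) =
        ∏ j, P j ^ (min (e j : ℕ) (e' j : ℕ)) := by
      apply Finset.prod_congr rfl
      intro j _
      rw [min_comm]
    have h6 : (∏ j, P j ^ ((e' j : ℤ) - (e j : ℤ)).toNat) =
        ∏ j, P j ^ (-((e j : ℤ) - (e' j : ℤ))).toNat := by
      apply Finset.prod_congr rfl
      intro j _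
      rw [neg_sub]
    rw [h5, h6] at h4
    rw [h3, h4] at hu
    apply mul_left_cancel₀ hc
    linear_combination -hu

theorem ring_aux {R : Type*} [CommRing R] (π x y e X Y : R) (a c p : ℕ)
    (h : (π ^ a * x) ^ p * X = e * (π ^ (a + 1 + c) * y) ^ p * Y) :
    (π ^ a) ^ p * (x ^ p * X) = (π ^ a) ^ p * ((π * π ^ c) ^ p * (e * y ^ p * Y)) := by
  rw [pow_add, pow_add, pow_one] at h
  simp only [mul_pow] at h ⊢
  linear_combination h

/-- removing the powers of `ζ - 1` -/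
theorem remove_pi (x y e X Y : Oc p) (hx : x ≠ 0) (hy : y ≠ 0) (he : IsUnit e)
    (hX : ¬ zt p - 1 ∣ X) (hY : ¬ zt p - 1 ∣ Y) (h : x ^ p * X = e * y ^ p * Y) :
    ∃ x' y' : Oc p, ¬ zt p - 1 ∣ x' ∧ ¬ zt p - 1 ∣ y' ∧ x' ^ p * X = e * y' ^ p * Y := by
  have hp0 : p ≠ 0 := (Fact.out : p.Prime).ne_zero
  have hπ := pi_prime p
  obtain ⟨x1, hx1, hx1'⟩ := (FiniteMultiplicity.of_not_isUnit hπ.not_isUnit
    hx).exists_eq_pow_mul_and_not_dvd
  obtain ⟨y1, hy1, hy1'⟩ := (FiniteMultiplicity.of_not_isUnit hπ.not_isUnit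
    hy).exists_eq_pow_mul_and_not_dvd
  set a := multiplicity (zt p - 1) x
  set b := multiplicity (zt p - 1) y
  have he' : ¬ zt p - 1 ∣ e := fun h0 => hπ.not_isUnit (isUnit_of_dvd_unit h0 he)
  have hnx : ¬ zt p - 1 ∣ x1 ^ p * X := by
    intro h0
    rcases hπ.dvd_or_dvd h0 with h0 | h0
    · exact hx1' (hπ.dvd_of_dvd_pow h0)
    · exact hX h0
  have hny : ¬ zt p - 1 ∣ e * y1 ^ p * Y := by
    intro h0
    rcases hπ.dvd_or_dvd h0 with h0 | h0
    · rcases hπ.dvd_or_dvd h0 with h0 | h0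
      · exact he' h0
      · exact hy1' (hπ.dvd_of_dvd_pow h0)
    · exact hY h0
  rw [hx1, hy1] at h
  refine ⟨x1, y1, hx1', hy1', ?_⟩
  rcases lt_trichotomy a b with hab | hab | hab
  · exfalso
    obtain ⟨c, hc⟩ : ∃ c, b = a + 1 + c := ⟨b - (a + 1), by omega⟩
    rw [hc] at h
    apply hnx
    have h1 := ring_aux (zt p - 1) x1 y1 e X Y a c p h
    have h2 := mul_left_cancel₀ (pow_ne_zero _ (pow_ne_zero _ hπ.ne_zero)) h1
    rw [h2]
    exact dvd_mul_of_dvd_left (dvd_pow (dvd_mul_right _ _) hp0) _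
  · rw [← hab] at h
    apply mul_left_cancel₀ (pow_ne_zero p (pow_ne_zero a hπ.ne_zero))
    linear_combination h
  · exfalso
    obtain ⟨c, hc⟩ : ∃ c, a = b + 1 + c := ⟨a - (b + 1), by omega⟩
    rw [hc] at h
    apply hny
    have h1 : ((zt p - 1) ^ b) ^ p * (y1 ^ p * (e * Y)) = ((zt p - 1) ^ b) ^ p *
        (((zt p - 1) * (zt p - 1) ^ c) ^ p * (1 * x1 ^ p * X)) := by
      apply ring_aux
      linear_combination -h
    have h2 := mul_left_cancel₀ (pow_ne_zero _ (pow_ne_zero _ hπ.ne_zero)) h1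
    have h3 : e * y1 ^ p * Y = y1 ^ p * (e * Y) := by ring
    rw [h3, h2]
    exact dvd_mul_of_dvd_left (dvd_pow (dvd_mul_right _ _) hp0) _

end EIA_

open EIA_ in
theorem p_EIA : T_EIA := by
  intro p hF hp5 m hm hmp hcard A T B hN ⟨b, hb⟩
  have hpp : p.Prime := Fact.out
  have hFz : ∀ k : ℕ, Pj p A T B k ≠ 0 := by
    intro k h0
    apply not_pi_Pj p A T B hN k
    rw [h0]
    exact dvd_zero _
  have hb0 : b ≠ ⊥ := by
    rintro rfl
    rw [Ideal.bot_pow hpp.ne_zero, Ideal.span_singleton_eq_bot] at hb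
    apply hFz 1
    rw [← hb]
    unfold Pj Fz
    rw [pow_one, mul_one]
  have hu : ∀ j : Fin m, ∃ u : (ZMod p)ˣ, (u : ZMod p) = (((j : ℕ) + 1 : ℕ) : ZMod p) := by
    intro j
    have h1 : (((j : ℕ) + 1 : ℕ) : ZMod p) ≠ 0 := by
      intro h2
      rw [ZMod.natCast_eq_zero_iff] at h2
      have h3 := Nat.le_of_dvd (by omega) h2
      have h4 := j.isLt
      omega
    exact ⟨Units.mk0 _ h1, rfl⟩
  choose u hu using hu
  have hmem : ∀ j : Fin m, b.map (sg p (u j) : Oc p →+* Oc p) ∈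
      nonZeroDivisors (Ideal (Oc p)) := by
    intro j
    rw [mem_nonZeroDivisors_iff_ne_zero]
    intro h0
    have h1 : b.map (sg p (u j) : Oc p →+* Oc p) = ⊥ := h0
    exact hb0 ((Ideal.map_eq_bot_iff_of_injective
      (f := (sg p (u j) : Oc p →+* Oc p)) (sg p (u j)).injective).mp h1)
  obtain ⟨f, hf0, hfp, x, y, e, hx, hy, he, hxy⟩ := pigeon p m hcard
    (fun j => ⟨b.map (sg p (u j) : Oc p →+* Oc p), hmem j⟩)
    (fun j => Pj p A T B ((j : ℕ) + 1)) (by
      intro j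
      simp only
      rw [← Ideal.map_pow, ← hb, Ideal.map_span, Set.image_singleton]
      congr 2
      exact sg_Fz p (u j) A T B _ (hu j)) (fun j => hFz _)
  refine ⟨f, hf0, hfp, ?_⟩
  obtain ⟨x, y, hx, hy, hxy⟩ := remove_pi p x y e _ _ hx hy he (not_pi_prod p A T B hN _)
    (not_pi_prod p A T B hN _) hxy
  obtain ⟨s, t, ht, hse⟩ := unit_conj p (by omega) e he
  obtain ⟨h1, hh1, hx1, hx2⟩ := pow_p_unit p x hx
  obtain ⟨h2, hh2, hy1, hy2⟩ := pow_p_unit p y hy
  obtain ⟨s1, hs1⟩ := prod_swap p A T B (fun j : Fin m => (f j).toNat)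
  obtain ⟨s2, hs2⟩ := prod_swap p A T B (fun j : Fin m => (-f j).toNat)
  set X : Oc p := ∏ j : Fin m, Pj p A T B ((j : ℕ) + 1) ^ (f j).toNat with hX
  set Y : Oc p := ∏ j : Fin m, Pj p A T B ((j : ℕ) + 1) ^ (-f j).toNat with hY
  have hPX : Polynomial.aeval (zt p) (PX A T B f) = X * (zt p ^ s2 * cc p Y) := by
    rw [aeval_PX, hs2]
  have hPX' : Polynomial.aeval (zt p) (PX B T A f) = (zt p ^ s1 * cc p X) * Y := by
    rw [aeval_PX, hs1]
  have e1 : h1 * red p X = red p e * h2 * red p Y := by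
    have h3 := congrArg (red p) hxy
    rw [map_mul, map_mul, map_mul, map_pow, map_pow, hx1, hy1] at h3
    exact h3
  have e2 : h1 * red p (cc p X) = red p (cc p e) * h2 * red p (cc p Y) := by
    have h3 := congrArg (fun z => red p (cc p z)) hxy
    simp only [map_mul, map_pow] at h3
    rw [hx2, hy2] at h3
    exact h3
  have e3 : red p e = (t : Rp p) * red p (zt p) ^ s * red p (cc p e) := by
    have h3 := congrArg (red p) hse
    rw [map_mul, map_mul, map_pow, map_intCast] at h3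
    exact h3
  have e4 : red p X * red p (cc p Y) = (t : Rp p) * red p (zt p) ^ s * red p (cc p X) *
      red p Y := by
    apply hh1.mul_left_cancel
    linear_combination red p (cc p Y) * e1 + h2 * red p Y * red p (cc p Y) * e3 -
      (t : Rp p) * red p (zt p) ^ s * red p Y * e2
  have e5 : zt p ^ (s + s2 + (p - 1) * s1) * zt p ^ s1 = zt p ^ s * zt p ^ s2 := by
    have h3 : s + s2 + (p - 1) * s1 + s1 = s + s2 + p * s1 := by
      obtain ⟨q, hq⟩ : ∃ q, p = q + 1 := ⟨p - 1, by omega⟩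
      rw [hq, Nat.add_sub_cancel]
      ring
    rw [← pow_add, h3, pow_add, pow_add, pow_mul, zt_pow, one_pow, mul_one]
  have e6 : red p (Polynomial.aeval (zt p) (PX A T B f)) = (t : Rp p) *
      red p (zt p ^ (s + s2 + (p - 1) * s1) * Polynomial.aeval (zt p) (PX B T A f)) := by
    have h3 : zt p ^ (s + s2 + (p - 1) * s1) * Polynomial.aeval (zt p) (PX B T A f) =
        (zt p ^ s * zt p ^ s2) * (cc p X * Y) := by
      rw [hPX', ← e5]
      ring
    rw [h3, hPX]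
    simp only [map_mul, map_pow]
    linear_combination red p (zt p) ^ s2 * e4
  rcases ht with ht | ht
  · refine ⟨s + s2 + (p - 1) * s1, ?_⟩
    rw [← red_eq, e6, ht, Int.cast_one, one_mul]
  · exfalso
    rw [ht, Int.cast_neg, Int.cast_one, neg_one_mul, ← map_neg, red_eq] at e6
    have h3 := (pi_dvd_p p).trans e6
    rw [← rpi_eq, map_neg, map_mul, rpi_zt, one_mul, ← rpi_PX, ← map_neg, rpi_eq,
      sub_neg_eq_add, ← two_mul] at h3
    rcases (pi_prime p).dvd_or_dvd h3 with h3 | h3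
    · have h4 : zt p - 1 ∣ ((2 : ℤ) : Oc p) := by
        rw [Int.cast_ofNat]
        exact h3
      rw [pi_dvd_int] at h4
      have h5 := Int.le_of_dvd (by norm_num) h4
      omega
    · refine not_pi_PX p B T A ?_ f h3
      intro h4
      apply hN
      have h5 : (B + T + A : ℤ) = A + T + B := by ring
      rwa [h5] at h4

end Pool.Agent.FCW
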