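import Pool.Agent.FCW.Targets

/-!
# JAC: Stickelberger's relation for the primes over `q ≡ 1 mod p`
-/

open NumberField

namespace Pool.Agent.FCW

namespace JAC_

theorem half_neg (p : ℕ) [Fact p.Prime] (hp : 3 ≤ p) (u : (ZMod p)ˣ) :
    -u ∈ half p ↔ u ∉ half p := by
  have hodd : p % 2 = 1 := by
    rcases (Fact.out : p.Prime).eq_two_or_odd with h | h
    · omega
    · exact h
  have h0 : (u : ZMod p) ≠ 0 := u.ne_zero
  have h1 : ((-u : (ZMod p)ˣ) : ZMod p).val = p - (u : ZMod p).val := by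
    rw [Units.val_neg, ZMod.neg_val, if_neg h0]
  have h2 : (u : ZMod p).val < p := ZMod.val_lt _
  have h3 : (u : ZMod p).val ≠ 0 := by
    rw [Ne, ZMod.val_eq_zero]
    exact h0
  unfold half
  rw [Finset.mem_filter, Finset.mem_filter, h1]
  simp only [Finset.mem_univ, true_and]
  omega

/-- membership in the conjugate ideals -/
theorem mem_conj (p : ℕ) [Fact p.Prime] (l : Ideal (Oc p)) (u : (ZMod p)ˣ) (x : Oc p)
    (h : sg p u x ∈ l) : x ∈ l.map (sg p u⁻¹ : Oc p →+* Oc p) := by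
  have h1 := Ideal.mem_map_of_mem (sg p u⁻¹ : Oc p →+* Oc p) h
  have h2 : (sg p u⁻¹ : Oc p →+* Oc p) (sg p u x) = x := by
    change sg p u⁻¹ (sg p u x) = x
    rw [← sg_mul, inv_mul_cancel, sg_one]
  rwa [h2] at h1

end JAC_

open JAC_

theorem p_JAC (h1 : T_CHAR) (h2 : T_DIST) : T_JAC := by
  intro p _ hp l q hq hl hql hq1
  obtain ⟨J, hJ, hJl⟩ := h1 p hp l q hq hl hql hq1
  refine ⟨J, hJ, ?_⟩
  set P : (ZMod p)ˣ → Ideal (Oc p) := fun u => l.map (sg p u⁻¹ : Oc p →+* Oc p) with hP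
  have hPprime : ∀ u, (P u).IsPrime := by
    intro u
    exact Ideal.map_isPrime_of_equiv (sg p u⁻¹)
  have hqP : ∀ u, (q : Oc p) ∈ P u := by
    intro u
    have := Ideal.mem_map_of_mem (sg p u⁻¹ : Oc p →+* Oc p) hql
    rwa [map_natCast] at this
  have hq0 : (q : Oc p) ≠ 0 := Nat.cast_ne_zero.2 hq.ne_zero
  have hPmax : ∀ u, (P u).IsMaximal := by
    intro u
    refine (hPprime u).isMaximal ?_
    intro h
    have := hqP u
    rw [h, Ideal.mem_bot] at this
    exact hq0 this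
  have hPnorm : ∀ u, Ideal.absNorm (P u) = q := fun u =>
    (h2 p (P u) q hq (hPprime u) (hqP u) hq1).1
  have hPne : ∀ u v, u ≠ v → P u ≠ P v := by
    intro u v huv h
    apply huv
    exact inv_injective ((h2 p l q hq hl hql hq1).2 _ _ h)
  have hcop : ∀ s : Finset (ZMod p)ˣ, (s : Set (ZMod p)ˣ).Pairwise (Function.onFun IsCoprime P) := by
    intro s u _ v _ huv
    rw [Function.onFun, Ideal.isCoprime_iff_sup_eq]
    exact (hPmax u).coprime_of_ne (hPmax v) (hPne u v huv)
  -- the two halves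
  have hA : ∏ u ∈ half p, P u ∣ Ideal.span {J} := by
    apply Finset.prod_dvd_of_coprime (hcop _)
    intro u hu
    rw [Ideal.dvd_span_singleton]
    exact mem_conj p l u J ((hJl u).2 hu)
  have hB : ∏ u ∈ (half p)ᶜ, P u ∣ Ideal.span {cc p J} := by
    apply Finset.prod_dvd_of_coprime (hcop _)
    intro u hu
    rw [Ideal.dvd_span_singleton]
    apply mem_conj p l u
    have h3 : sg p u (cc p J) = sg p (-u) J := by
      unfold cc
      rw [← sg_mul, mul_neg, mul_one]
    rw [h3, hJl, half_neg p hp]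
    exact Finset.mem_compl.1 hu
  obtain ⟨c, hc⟩ := hA
  obtain ⟨d, hd⟩ := hB
  have hall : (∏ u ∈ half p, P u) * ∏ u ∈ (half p)ᶜ, P u = ∏ u, P u :=
    Finset.prod_mul_prod_compl _ _
  have hspan : Ideal.span {(q : Oc p)} = (∏ u, P u) * (c * d) := by
    rw [← hJ, ← Ideal.span_singleton_mul_span_singleton, hc, hd, ← hall]
    ring
  have hcard : Fintype.card (ZMod p)ˣ = p - 1 := ZMod.card_units p
  have hn1 : Ideal.absNorm (∏ u, P u) = q ^ (p - 1) := by
    rw [map_prod, Finset.prod_congr rfl fun u _ => hPnorm u, Finset.prod_const,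
      Finset.card_univ, hcard]
  have hfin : Module.finrank ℤ (Oc p) = p - 1 := by
    rw [RingOfIntegers.rank, IsCyclotomicExtension.Rat.finrank p (Cy p),
      Nat.totient_prime (Fact.out : p.Prime)]
  have hn2 : Ideal.absNorm (Ideal.span {(q : Oc p)}) = q ^ (p - 1) := by
    rw [Ideal.absNorm_span_natCast, hfin]
  have hcd : Ideal.absNorm (c * d) = 1 := by
    have h3 := congrArg Ideal.absNorm hspan
    rw [map_mul, hn1, hn2] at h3
    have h4 : 0 < q ^ (p - 1) := pow_pos hq.pos _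
    exact (Nat.eq_of_mul_eq_mul_left h4 (by rw [mul_one]; exact h3)).symm
  have hc1 : c = ⊤ := by
    rw [← Ideal.absNorm_eq_one_iff]
    rw [map_mul] at hcd
    exact Nat.eq_one_of_mul_eq_one_right hcd
  rw [hc1, Ideal.mul_top] at hc
  exact hc.symm

end Pool.Agent.FCW
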