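import Pool.Agent.FCW.Targets

/-!
# FCW, job KEY: the key equation
-/

open NumberField

namespace Pool.Agent.FCW

namespace KEY_

variable (p : ℕ) [Fact p.Prime]

theorem stI_pow (b : Ideal (Oc p)) (n : ℕ) : stI p (b ^ n) = stI p b ^ n := by
  unfold stI
  rw [← Finset.prod_pow]
  exact Finset.prod_congr rfl fun u _ => Ideal.map_pow _ _ _

theorem stI_span (x : Oc p) : stI p (Ideal.span {x}) = Ideal.span {st p x} := by
  unfold stI st
  rw [← Ideal.prod_span_singleton]
  refine Finset.prod_congr rfl fun u _ => ?_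
  rw [Ideal.map_span, Set.image_singleton]
  rfl

theorem st_cc (x : Oc p) : st p (cc p x) = cc p (st p x) := by
  unfold st
  rw [map_prod]
  exact Finset.prod_congr rfl fun u _ => (cc_sg p _ _).symm

theorem st_ne {x : Oc p} (hx : x ≠ 0) : st p x ≠ 0 := by
  unfold st
  rw [Finset.prod_ne_zero_iff]
  intro u _ h
  exact hx ((map_eq_zero_iff _ (sg p u⁻¹).injective).1 h)

theorem norm_cc (φ : Oc p →+* ℂ) (x : Oc p) : ‖φ (cc p x)‖ = ‖φ x‖ := by
  rw [cc_conj, RCLike.norm_conj]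

/-- a unit of absolute value one everywhere is a root of unity -/
theorem unit_root (hp : 3 ≤ p) (e : Oc p)
    (he : ∀ φ : Cy p →+* ℂ, ‖φ (algebraMap (Oc p) (Cy p) e)‖ = 1) :
    ∃ (i : ℕ) (s : ℤ), (s = 1 ∨ s = -1) ∧ e = (s : Oc p) * zt p ^ i := by
  have hpp : p.Prime := Fact.out
  have hodd : Odd p := hpp.odd_of_ne_two (by omega)
  obtain ⟨n, hn, hun⟩ := Embeddings.pow_eq_one_of_norm_eq_one (Cy p) ℂ
    (RingOfIntegers.isIntegral_coe e) he
  have hζ := IsCyclotomicExtension.zeta_spec p ℚ (Cy p)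
  obtain ⟨r, hr, hur⟩ := hζ.exists_pow_or_neg_mul_pow_of_isOfFinOrder hodd
    (isOfFinOrder_iff_pow_eq_one.2 ⟨n, hn, hun⟩)
  have hz : algebraMap (Oc p) (Cy p) (zt p) = IsCyclotomicExtension.zeta p ℚ (Cy p) := rfl
  have hinj := FaithfulSMul.algebraMap_injective (Oc p) (Cy p)
  rcases hur with h | h
  · refine ⟨r, 1, Or.inl rfl, hinj ?_⟩
    rw [map_mul, map_pow, hz, map_intCast]
    rw [Int.cast_one, one_mul]
    exact h
  · refine ⟨r, -1, Or.inr rfl, hinj ?_⟩
    rw [map_mul, map_pow, hz, map_intCast]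
    rw [Int.cast_neg, Int.cast_one, neg_one_mul]
    exact h

end KEY_

open KEY_ in
/-- KEY -/
theorem p_KEY (h : T_ANN) : T_KEY := by
  intro p _ hp β b hβ hb hPM
  have hpp : p.Prime := Fact.out
  have hb0 : b ≠ ⊥ := by
    rintro rfl
    rw [← Ideal.zero_eq_bot, zero_pow hpp.ne_zero, Ideal.zero_eq_bot,
      Ideal.span_singleton_eq_bot] at hb
    exact hβ hb
  obtain ⟨γ, n, hn, hγ, hI⟩ := h p hp b hb0 hPM
  have hn0 : n ≠ 0 := by
    rintro rfl
    rw [Nat.coprime_zero_left] at hn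
    omega
  have hγ0 : γ ≠ 0 := by
    rintro rfl
    rw [zero_mul] at hγ
    exact hn0 (by exact_mod_cast hγ.symm)
  have hcγ0 : cc p γ ≠ 0 := fun h1 => hγ0 ((map_eq_zero_iff _ (cc p).injective).1 h1)
  have hst0 := st_ne p hβ
  -- the ideal equation
  have h1 : Ideal.span {st p β * cc p γ ^ p} = Ideal.span {cc p (st p β) * γ ^ p} := by
    have h2 := congrArg (· ^ p) hI
    simp only [mul_pow] at h2
    rw [← stI_pow, ← stI_pow, ← Ideal.map_pow, ← hb, Ideal.map_span, Set.image_singleton,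
      Ideal.span_singleton_pow, Ideal.span_singleton_pow, stI_span, stI_span,
      Ideal.span_singleton_mul_span_singleton, Ideal.span_singleton_mul_span_singleton] at h2
    have h3 : st p ((cc p : Oc p →+* Oc p) β) = cc p (st p β) := st_cc p β
    rw [h3] at h2
    exact h2
  rw [Ideal.span_singleton_eq_span_singleton] at h1
  obtain ⟨w, hw⟩ := h1.symm
  have hroot := unit_root p (by omega) (w : Oc p) (by
    intro φ
    have h2 := congrArg (fun x => ‖(φ.comp (algebraMap (Oc p) (Cy p))) x‖) hw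
    simp only [map_mul, map_pow, norm_mul, norm_pow] at h2
    rw [norm_cc, norm_cc] at h2
    have hφ : Function.Injective (φ.comp (algebraMap (Oc p) (Cy p))) :=
      φ.injective.comp (FaithfulSMul.algebraMap_injective (Oc p) (Cy p))
    have h3 : ‖(φ.comp (algebraMap (Oc p) (Cy p))) (st p β)‖ *
        ‖(φ.comp (algebraMap (Oc p) (Cy p))) γ‖ ^ p ≠ 0 := by
      refine mul_ne_zero ?_ (pow_ne_zero _ ?_)
      · rw [norm_ne_zero_iff]
        exact fun h4 => hst0 ((map_eq_zero_iff _ hφ).1 h4)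
      · rw [norm_ne_zero_iff]
        exact fun h4 => hγ0 ((map_eq_zero_iff _ hφ).1 h4)
    have h4 : ‖(φ.comp (algebraMap (Oc p) (Cy p))) (w : Oc p)‖ = 1 :=
      mul_left_cancel₀ h3 (h2.trans (mul_one _).symm)
    exact h4)
  obtain ⟨i, s, hs, hi⟩ := hroot
  refine ⟨γ, n, i, s, hn, hγ, hs, ?_⟩
  rw [← hw, hi]
  ring

end Pool.Agent.FCW
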