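import Pool.Agent.FCW.Fin

/-!
# The two criteria, from their parts
-/

open NumberField

namespace Pool.Agent.FCW

/-- Wieferich criterion -/
def T_W : Prop := ∀ (K : Type) [Field K] [NumberField K], Module.finrank ℚ K = 2 →
  ∀ d : ℤ, Squarefree d → d ≠ 1 → ∀ s : K, s ^ 2 = (d : K) → ∀ (p : ℕ) [Fact p.Prime], 7 ≤ p →
  ¬ p ^ 2 ∣ 2 ^ (p - 1) - 1 → ∀ x y z : 𝓞 K, IsCoprime (x * y * z) (p : 𝓞 K) →
  x ^ p + y ^ p = z ^ p →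
  (d % 8 = 5 ∧ legendreSym p d = legendreSym p (-3) ∧
    (p : 𝓞 K) ∣ x ^ 2 + x * y + y ^ 2) ∨
  (d % 8 = 1 ∧ legendreSym p d = legendreSym p (-15) ∧
    ((p : 𝓞 K) ∣ 2 * x ^ 2 + x * y + 2 * y ^ 2 ∨ (p : 𝓞 K) ∣ 2 * x ^ 2 + 3 * x * y + 3 * y ^ 2 ∨
      (p : 𝓞 K) ∣ 3 * x ^ 2 + 3 * x * y + 2 * y ^ 2))

/-- Eichler criterion -/
def T_R : Prop := ∀ (K : Type) [Field K] [NumberField K], Module.finrank ℚ K = 2 →
  ∀ d : ℤ, Squarefree d → d ≠ 1 → ∀ s : K, s ^ 2 = (d : K) → ∀ (p : ℕ) [Fact p.Prime] (m : ℕ),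
  1 ≤ m → 2 * m * (m + 1) + 2 < p →
  Nat.card {c : ClassGroup (𝓞 (CyclotomicField p ℚ)) // c ^ p = 1} < p ^ m →
  ∀ x y z : 𝓞 K, IsCoprime (x * y * z) (p : 𝓞 K) → x ^ p + y ^ p = z ^ p →
  legendreSym p d = legendreSym p (-3) ∧ (p : 𝓞 K) ∣ x ^ 2 + x * y + y ^ 2

/-- from the norm form to the residue of `x / y` -/
theorem quad_dvd {K : Type} [Field K] [NumberField K] {τ : 𝓞 K ≃+* 𝓞 K} (hτ : IsConj K τ)
    {p : ℕ} {x y : 𝓞 K} {g a T b : ℤ} (hx : IsCoprime x (p : 𝓞 K)) (hy : IsCoprime y (p : 𝓞 K))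
    (hA : x * τ x = (g : 𝓞 K) * (a : 𝓞 K))
    (hT : x * τ y + y * τ x = (g : 𝓞 K) * (T : 𝓞 K)) (hB : y * τ y = (g : 𝓞 K) * (b : 𝓞 K))
    {u v w : ℤ} (h1 : (p : ℤ) ∣ u * a - w * b) (h2 : (p : ℤ) ∣ u * T + v * b) :
    (p : 𝓞 K) ∣ (u : 𝓞 K) * x ^ 2 + (v : 𝓞 K) * (x * y) + (w : 𝓞 K) * y ^ 2 := by
  have c1 : ∀ z : 𝓞 K, IsCoprime z (p : 𝓞 K) → IsCoprime (p : 𝓞 K) (τ z) := by
    intro z hz
    have h3 := hz.map (τ : 𝓞 K →+* 𝓞 K)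
    rw [map_natCast] at h3
    exact h3.symm
  apply (c1 x hx).dvd_of_dvd_mul_right
  apply (c1 y hy).dvd_of_dvd_mul_right
  obtain ⟨k, hk⟩ := h1
  obtain ⟨l, hl⟩ := h2
  have hk' : (u : 𝓞 K) * a - w * b = (p : 𝓞 K) * k := by
    exact_mod_cast congrArg (Int.cast : ℤ → 𝓞 K) hk
  have hl' : (u : 𝓞 K) * T + v * b = (p : 𝓞 K) * l := by
    exact_mod_cast congrArg (Int.cast : ℤ → 𝓞 K) hl
  refine ⟨(g : 𝓞 K) ^ 2 * a * l - g * k * (y * τ x), ?_⟩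
  linear_combination (u : 𝓞 K) * (x * τ y) * hA + (u : 𝓞 K) * g * a * hT +
    (v : 𝓞 K) * (y * τ y) * hA + (v : 𝓞 K) * g * a * hB + (w : 𝓞 K) * (y * τ x) * hB +
    (g : 𝓞 K) ^ 2 * a * hl' - (g : 𝓞 K) * (y * τ x) * hk'

/-- all the data of a first case solution -/
theorem data (hCONJ : T_CONJ) (hDATA : T_DATA) (hPAR : T_PAR) (hMODP : T_MODP) (hDISC : T_DISC)
    (hPOW : T_POW) (K : Type) [Field K] [NumberField K] (hK : Module.finrank ℚ K = 2)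
    (d : ℤ) (hd : Squarefree d) (hd1 : d ≠ 1) (s : K) (hs : s ^ 2 = (d : K)) (p : ℕ)
    [Fact p.Prime] (h5 : 5 ≤ p) (x y z : 𝓞 K) (hco : IsCoprime (x * y * z) (p : 𝓞 K))
    (h : x ^ p + y ^ p = z ^ p) :
    ∃ a b c T₁ T₂ T₃ r₁ r₂ r₃ : ℤ, (Prim a T₁ b ∧ Prim a T₂ c ∧ Prim b T₃ c) ∧
      ((2 : ℤ) ∣ a + b + c + T₁ ∧ (2 : ℤ) ∣ a + b + c + T₂ ∧ (2 : ℤ) ∣ a + b + c + T₃) ∧
      (¬ (p : ℤ) ∣ a ∧ ¬ (p : ℤ) ∣ b ∧ ¬ (p : ℤ) ∣ c) ∧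
      ((p : ℤ) ∣ 2 * a + T₁ + T₂ ∧ (p : ℤ) ∣ 2 * b + T₁ + T₃ ∧ (p : ℤ) ∣ 2 * c + T₂ + T₃) ∧
      (¬ (p : ℤ) ∣ a + T₁ + b ∧ ¬ (p : ℤ) ∣ a + T₂ + c ∧ ¬ (p : ℤ) ∣ b + T₃ + c) ∧
      ((∃ I : Ideal (Oc p), Ideal.span {Fz p a T₁ b} = I ^ p) ∧
        (∃ I : Ideal (Oc p), Ideal.span {Fz p a T₂ c} = I ^ p) ∧
        (∃ I : Ideal (Oc p), Ideal.span {Fz p b T₃ c} = I ^ p)) ∧
      (T₁ ^ 2 - 4 * a * b = r₁ ^ 2 * d ∧ T₂ ^ 2 - 4 * a * c = r₂ ^ 2 * d ∧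
        T₃ ^ 2 - 4 * b * c = r₃ ^ 2 * d) ∧
      ∀ u v w : ℤ, (p : ℤ) ∣ u * a - w * b → (p : ℤ) ∣ u * T₁ + v * b →
        (p : 𝓞 K) ∣ (u : 𝓞 K) * x ^ 2 + (v : 𝓞 K) * (x * y) + (w : 𝓞 K) * y ^ 2 := by
  have hp : p.Prime := Fact.out
  have hodd : Odd p := hp.odd_of_ne_two (by omega)
  obtain ⟨τ, hτ⟩ := hCONJ K hK
  have hirr : ∀ r : ℚ, s ≠ (r : K) := by
    intro r hr
    apply hd1
    rw [hr] at hs
    have h1 : (r ^ 2 : ℚ) = (d : ℚ) := by exact_mod_cast hs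
    have h2 : ∃ n : ℤ, r = n := by
      have h3 : IsIntegral ℤ r := by
        refine ⟨Polynomial.X ^ 2 - Polynomial.C d, Polynomial.monic_X_pow_sub_C d two_ne_zero, ?_⟩
        rw [Polynomial.eval₂_sub, Polynomial.eval₂_pow, Polynomial.eval₂_X,
          Polynomial.eval₂_C, h1]
        simp
      obtain ⟨n, hn⟩ := IsIntegrallyClosed.isIntegral_iff.mp h3
      exact ⟨n, by rw [← hn]; simp⟩
    obtain ⟨n, rfl⟩ := h2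
    have h3 : n ^ 2 = d := by exact_mod_cast h1
    have h4 : IsUnit n := hd n ⟨1, by rw [← h3]; ring⟩
    rcases Int.isUnit_iff.mp h4 with h5 | h5 <;> rw [← h3, h5] <;> norm_num
  have hpK : ¬ IsUnit ((p : ℕ) : 𝓞 K) := by
    intro hu
    have h1 : IsUnit (Algebra.norm ℤ ((p : ℕ) : 𝓞 K)) := hu.map (Algebra.norm ℤ)
    have h2 : ((p : ℕ) : 𝓞 K) = algebraMap ℤ (𝓞 K) (p : ℤ) := by simp
    rw [h2, Algebra.norm_algebraMap, RingOfIntegers.rank, hK] at h1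
    have h3 : IsUnit (p : ℤ) := (isUnit_pow_iff two_ne_zero).mp h1
    rw [Int.isUnit_iff] at h3
    omega
  have hne : ∀ w v : 𝓞 K, w * v = x * y * z → w ≠ 0 := by
    rintro w v hw rfl
    rw [zero_mul] at hw
    rw [← hw, isCoprime_zero_left] at hco
    exact hpK hco
  have hx : x ≠ 0 := hne x (y * z) (by ring)
  have hy : y ≠ 0 := hne y (x * z) (by ring)
  have hz : z ≠ 0 := hne z (x * y) (by ring)
  have h0 : x ^ p + y ^ p + (-z) ^ p = 0 := by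
    rw [hodd.neg_pow, h]
    ring
  have hco1 : IsCoprime (x * y * -z) (p : 𝓞 K) := by
    have : x * y * -z = -(x * y * z) := by ring
    rw [this]
    exact hco.neg_left
  obtain ⟨w, hw⟩ : ∃ w, w = -z := ⟨_, rfl⟩
  rw [← hw] at h0 hco1
  have hw0 : w ≠ 0 := by rw [hw]; exact neg_ne_zero.mpr hz
  obtain ⟨g, a, b, c, T₁, T₂, T₃, hg, N₁, N₂, N₃⟩ := hDATA K τ hτ p hp.one_le x y w hx hy hw0 h0
  have hg0 : g ≠ 0 := hg.ne'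
  have h0' : x ^ p + w ^ p + y ^ p = 0 := by rw [← h0]; ring
  have h0'' : y ^ p + w ^ p + x ^ p = 0 := by rw [← h0]; ring
  have h0y : y ^ p + x ^ p + w ^ p = 0 := by rw [← h0]; ring
  have h0w : w ^ p + x ^ p + y ^ p = 0 := by rw [← h0]; ring
  have cy : IsCoprime (y * x * w) (p : 𝓞 K) := by
    have : y * x * w = x * y * w := by ring
    rwa [this]
  have cw : IsCoprime (w * x * y) (p : 𝓞 K) := by
    have : w * x * y = x * y * w := by ring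
    rwa [this]
  have T1' : y * τ x + x * τ y = (g : 𝓞 K) * (T₁ : 𝓞 K) := by rw [add_comm]; exact N₁.hT
  have T2' : w * τ x + x * τ w = (g : 𝓞 K) * (T₂ : 𝓞 K) := by rw [add_comm]; exact N₂.hT
  have T3' : w * τ y + y * τ w = (g : 𝓞 K) * (T₃ : 𝓞 K) := by rw [add_comm]; exact N₃.hT
  obtain ⟨pa, f₁⟩ := hMODP K τ hτ p hp x y w h0 hco1 g a b c T₁ T₂ hg0 N₁.hA N₁.hT N₂.hT
  obtain ⟨pb, f₂⟩ := hMODP K τ hτ p hp y x w h0y cy g b a c T₁ T₃ hg0 N₃.hA T1' N₃.hT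
  obtain ⟨pc, f₃⟩ := hMODP K τ hτ p hp w x y h0w cw g c a b T₂ T₃ hg0 N₃.hB T2' T3'
  have e₁ := hPAR K τ hτ p hp h5 x y w h0 g a b c T₁ hg0 N₁ N₂.hB
  have e₂ := hPAR K τ hτ p hp h5 x w y h0' g a c b T₂ hg0 N₂ N₁.hB
  have e₃ := hPAR K τ hτ p hp h5 y w x h0'' g b c a T₃ hg0 N₃ N₁.hA
  obtain ⟨r₁, g₁⟩ := hDISC K τ hτ d hd s hs hirr x y g a T₁ b hg0 N₁
  obtain ⟨r₂, g₂⟩ := hDISC K τ hτ d hd s hs hirr x w g a T₂ c hg0 N₂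
  obtain ⟨r₃, g₃⟩ := hDISC K τ hτ d hd s hs hirr y w g b T₃ c hg0 N₃
  have cw1 : IsCoprime w (p : 𝓞 K) := cw.of_isCoprime_of_dvd_left ⟨x * y, by ring⟩
  have cy1 : IsCoprime y (p : 𝓞 K) := cw.of_isCoprime_of_dvd_left ⟨x * w, by ring⟩
  have cx1 : IsCoprime x (p : 𝓞 K) := cw.of_isCoprime_of_dvd_left ⟨w * y, by ring⟩
  have i₁ := hPOW K hK τ hτ p h5 x y w hx hy h0 cw1 g a T₁ b hg0 N₁
  have i₂ := hPOW K hK τ hτ p h5 x w y hx hw0 h0' cy1 g a T₂ c hg0 N₂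
  have i₃ := hPOW K hK τ hτ p h5 y w x hy hw0 h0'' cx1 g b T₃ c hg0 N₃
  have h2' : ∀ n : ℤ, (p : ℤ) ∣ 2 * n → (p : ℤ) ∣ n := fun n h =>
    Fin_.dvd_of_mul (m := 2) (by norm_num) (by omega) h (by push_cast; ring)
  refine ⟨a, b, c, T₁, T₂, T₃, r₁, r₂, r₃, ⟨N₁.prim, N₂.prim, N₃.prim⟩,
    ⟨e₁, by omega, by omega⟩, ⟨pa, pb, pc⟩, ⟨f₁, f₂, f₃⟩, ⟨?_, ?_, ?_⟩, ⟨i₁, i₂, i₃⟩,
    ⟨g₁, g₂, g₃⟩, fun u v w h1 h2 => quad_dvd hτ cx1 cy1 N₁.hA N₁.hT N₁.hB h1 h2⟩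
  · intro hcon
    apply pc
    apply h2'
    have h3 : 2 * c = 2 * (a + T₁ + b) - (2 * a + T₁ + T₂) - (2 * b + T₁ + T₃) +
      (2 * c + T₂ + T₃) := by ring
    rw [h3]
    exact dvd_add (dvd_sub (dvd_sub (Dvd.dvd.mul_left hcon 2) f₁) f₂) f₃
  · intro hcon
    apply pb
    apply h2'
    have h3 : 2 * b = 2 * (a + T₂ + c) - (2 * a + T₁ + T₂) - (2 * c + T₂ + T₃) +
      (2 * b + T₁ + T₃) := by ring
    rw [h3]
    exact dvd_add (dvd_sub (dvd_sub (Dvd.dvd.mul_left hcon 2) f₁) f₃) f₂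
  · intro hcon
    apply pa
    apply h2'
    have h3 : 2 * a = 2 * (b + T₃ + c) - (2 * b + T₁ + T₃) - (2 * c + T₂ + T₃) +
      (2 * a + T₁ + T₂) := by ring
    rw [h3]
    exact dvd_add (dvd_sub (dvd_sub (Dvd.dvd.mul_left hcon 2) f₂) f₃) f₁

theorem p_W (hCONJ : T_CONJ) (hDATA : T_DATA) (hPAR : T_PAR) (hMODP : T_MODP) (hDISC : T_DISC)
    (hPOW : T_POW) (hREC : T_REC) : T_W := by
  intro K _ _ hK d hd hd1 s hs p _ h7 hW x y z hco h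
  obtain ⟨a, b, c, T₁, T₂, T₃, r₁, r₂, r₃, ⟨q₁, q₂, q₃⟩, ⟨e₁, e₂, e₃⟩, ⟨pa, pb, pc⟩,
    ⟨f₁, f₂, f₃⟩, ⟨n₁, n₂, n₃⟩, ⟨i₁, i₂, i₃⟩, ⟨g₁, g₂, g₃⟩, hquad⟩ :=
    data hCONJ hDATA hPAR hMODP hDISC hPOW K hK d hd hd1 s hs p (by omega) x y z hco h
  rcases Fin_.cases_aux h7 e₁ e₂ e₃ pa pb pc f₁ f₂ f₃ (Fin_.rel_of_rec hREC h7 hW q₁ n₁ i₁)
    (Fin_.rel_of_rec hREC h7 hW q₂ n₂ i₂) (Fin_.rel_of_rec hREC h7 hW q₃ n₃ i₃) g₁ g₂ g₃ with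
    ⟨u1, u2, u3, u4⟩ | ⟨u1, u2, u3⟩
  · left
    refine ⟨u1, u2, ?_⟩
    have h1 := hquad 1 1 1 u3 u4
    push_cast at h1
    rwa [one_mul, one_mul, one_mul] at h1
  · right
    refine ⟨u1, u2, ?_⟩
    rcases u3 with ⟨u3, u4⟩ | ⟨u3, u4⟩ | ⟨u3, u4⟩
    · left
      have h1 := hquad 2 1 2 u3 u4
      push_cast at h1
      rwa [one_mul] at h1
    · right; left
      have h1 := hquad 2 3 3 u3 u4
      push_cast at h1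
      rwa [← mul_assoc 3 x y] at h1
    · right; right
      have h1 := hquad 3 3 2 u3 u4
      push_cast at h1
      rwa [← mul_assoc 3 x y] at h1

theorem p_R (hCONJ : T_CONJ) (hDATA : T_DATA) (hPAR : T_PAR) (hMODP : T_MODP) (hDISC : T_DISC)
    (hPOW : T_POW) (hEIA : T_EIA) (hEIB : T_EIB) : T_R := by
  intro K _ _ hK d hd hd1 s hs p _ m hm hpm hcl x y z hco h
  have h7 : 7 ≤ p := by
    have : 1 * 2 ≤ m * (m + 1) := Nat.mul_le_mul hm (by omega)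
    have h2 : 2 * m * (m + 1) = 2 * (m * (m + 1)) := by ring
    omega
  have hmp : m < p := by
    have : m * 2 ≤ m * (m + 1) := Nat.mul_le_mul_left _ (by omega)
    have h2 : 2 * m * (m + 1) = 2 * (m * (m + 1)) := by ring
    omega
  obtain ⟨a, b, c, T₁, T₂, T₃, r₁, r₂, r₃, ⟨q₁, q₂, q₃⟩, ⟨e₁, e₂, e₃⟩, ⟨pa, pb, pc⟩,
    ⟨f₁, f₂, f₃⟩, ⟨n₁, n₂, n₃⟩, ⟨i₁, i₂, i₃⟩, ⟨g₁, g₂, g₃⟩, hquad⟩ :=
    data hCONJ hDATA hPAR hMODP hDISC hPOW K hK d hd hd1 s hs p (by omega) x y z hco h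
  have key : ∀ A T B : ℤ, ¬ (p : ℤ) ∣ A → ¬ (p : ℤ) ∣ B → ¬ (p : ℤ) ∣ A + T + B →
      (∃ I : Ideal (Oc p), Ideal.span {Fz p A T B} = I ^ p) → (p : ℤ) ∣ A - B := by
    intro A T B hA hB hN hI
    obtain ⟨f, hf0, hf, k, hk⟩ := hEIA p (by omega) m hm hmp hcl A T B hN hI
    exact hEIB p m hm hpm A T B hA hB hN f hf0 hf k hk
  have h1 := key a T₁ b pa pb n₁ i₁
  have h2 := key a T₂ c pa pc n₂ i₂
  have cz : ∀ n : ℤ, (p : ℤ) ∣ n → ((n : ℤ) : ZMod p) = 0 := fun n h =>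
    (ZMod.intCast_zmod_eq_zero_iff_dvd n p).mpr h
  have zc : ∀ n : ℤ, ((n : ℤ) : ZMod p) = 0 → (p : ℤ) ∣ n := fun n h =>
    (ZMod.intCast_zmod_eq_zero_iff_dvd n p).mp h
  have hsmall : ∀ n : ℕ, 0 < n → n < p → ¬ (p : ℤ) ∣ (n : ℤ) := by
    intro n h1 h2 h3
    have := Nat.le_of_dvd h1 (Int.natCast_dvd_natCast.mp h3)
    omega
  have h3n : ¬ (p : ℤ) ∣ -3 := by
    intro h
    have h1 : (p : ℤ) ∣ ((3 : ℕ) : ℤ) := by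
      have := (dvd_neg).mp h
      exact_mod_cast this
    exact hsmall 3 (by norm_num) (by omega) h1
  have h1n : ¬ (p : ℤ) ∣ 1 := by
    intro h
    exact hsmall 1 (by norm_num) (by omega) (by exact_mod_cast h)
  have two : (2 : ZMod p) ≠ 0 := by
    have := Fin_.cast_ne (p := p) (n := 2) (by norm_num) (by omega)
    exact_mod_cast this
  have F₁ := cz _ f₁
  have F₂ := cz _ f₂
  have F₃ := cz _ f₃
  have H1 := cz _ h1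
  have H2 := cz _ h2
  push_cast at F₁ F₂ F₃ H1 H2
  have h5 : (T₁ : ZMod p) + a = 0 := by
    apply mul_left_cancel₀ two
    linear_combination F₁ + F₂ - F₃ + 2 * H1 - 2 * H2
  have h6 : (b : ZMod p) = a := by linear_combination -H1
  refine ⟨?_, ?_⟩
  rotate_left
  · have h8 := hquad 1 1 1 (zc _ (by push_cast; linear_combination H1))
      (zc _ (by push_cast; linear_combination h5 - H1))
    push_cast at h8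
    rwa [one_mul, one_mul, one_mul] at h8
  refine Fin_.leg_of (s := 1) (r := r₁) pa h3n h1n ?_
  rw [← g₁]
  apply zc
  push_cast
  rw [h6]
  linear_combination ((T₁ : ZMod p) - a) * h5

end Pool.Agent.FCW
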