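import Pool.Agent.FCW.Targets

/-!
# Even exponents: targets

`x^(2p) + y^(2p) = z^(2p)`: both `z + ζ x` and `z - ζ x` give `p`-th powers of ideals.
-/

open NumberField

namespace Pool.Agent.FCW

/-- the three norm forms of a solution (any exponent) -/
def T_DATAB : Prop := ∀ (K : Type) [Field K] [NumberField K] (τ : 𝓞 K ≃+* 𝓞 K), IsConj K τ →
  ∀ (n : ℕ), 1 ≤ n → ∀ x y z : 𝓞 K, x ≠ 0 → y ≠ 0 → z ≠ 0 → x ^ n + y ^ n = z ^ n →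
  ∃ g a b c t₁ t₂ t₃ : ℤ, 0 < g ∧ NF K τ x y g a t₁ b ∧ NF K τ x z g a t₂ c ∧
    NF K τ y z g b t₃ c

/-- the ideal identity follows from the other properties of a norm form -/
def T_NFI : Prop := ∀ (K : Type) [Field K] [NumberField K] (τ : 𝓞 K ≃+* 𝓞 K), IsConj K τ →
  ∀ (x y : 𝓞 K) (g A T B : ℤ), g ≠ 0 → x * τ x = (g : 𝓞 K) * (A : 𝓞 K) →
  x * τ y + y * τ x = (g : 𝓞 K) * (T : 𝓞 K) → y * τ y = (g : 𝓞 K) * (B : 𝓞 K) →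
  Prim A T B → NF K τ x y g A T B

/-- `z + ζ x` gives a `p`-th power of an ideal -/
def T_POWB : Prop := ∀ (K : Type) [Field K] [NumberField K], Module.finrank ℚ K = 2 →
  ∀ (τ : 𝓞 K ≃+* 𝓞 K), IsConj K τ → ∀ (p : ℕ) [Fact p.Prime], 5 ≤ p →
  ∀ x y z : 𝓞 K, x ≠ 0 → z ≠ 0 → x ^ (2 * p) + y ^ (2 * p) = z ^ (2 * p) →
  IsCoprime y (p : 𝓞 K) → ∀ g A T B : ℤ, g ≠ 0 → NF K τ z x g A T B →
  ¬ (p : ℤ) ∣ A + T + B → ∃ b : Ideal (Oc p), Ideal.span {Fz p A T B} = b ^ p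

/-- residues modulo `4` -/
def T_C4 : Prop := ∀ (K : Type) [Field K] [NumberField K] (τ : 𝓞 K ≃+* 𝓞 K), IsConj K τ →
  ∀ (p : ℕ), p.Prime → 5 ≤ p → ∀ x y z : 𝓞 K, x ^ (2 * p) + y ^ (2 * p) = z ^ (2 * p) →
  ∀ g a b c t₂ t₃ : ℤ, g ≠ 0 → NF K τ x z g a t₂ c → NF K τ y z g b t₃ c →
  ¬ (2 : ℤ) ∣ a → ¬ (2 : ℤ) ∣ b → ¬ (2 : ℤ) ∣ c → ¬ (2 : ℤ) ∣ t₂ → ¬ (2 : ℤ) ∣ t₃ → False

/-- The first case for even exponents. -/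
def T_E : Prop := ∀ (K : Type) [Field K] [NumberField K], Module.finrank ℚ K = 2 →
  ∀ (p : ℕ) [Fact p.Prime], 7 ≤ p → ¬ p ^ 2 ∣ 2 ^ (p - 1) - 1 → ∀ x y z : 𝓞 K,
  IsCoprime (x * y * z) (p : 𝓞 K) → x ^ (2 * p) + y ^ (2 * p) ≠ z ^ (2 * p)

end Pool.Agent.FCW
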