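import Pool.Agent.FCW.Fin
import Pool.Agent.FCW.Targets2

/-!
# Even exponents: assembly
-/

open NumberField

namespace Pool.Agent.FCW

namespace E_

variable {p : ℕ} [Fact p.Prime]

/-- the case analysis for even exponents -/
theorem cases_aux (h7 : 7 ≤ p) {a b c t₁ t₂ t₃ T₁ T₂ T₃ : ℤ} (hT₁ : T₁ = t₁ ^ 2 - 2 * a * b)
    (hT₂ : T₂ = -(t₂ ^ 2 - 2 * a * c)) (hT₃ : T₃ = -(t₃ ^ 2 - 2 * b * c))
    (e₁ : (2 : ℤ) ∣ a ^ 2 + b ^ 2 + c ^ 2 + T₁) (e₂ : (2 : ℤ) ∣ a ^ 2 + b ^ 2 + c ^ 2 + T₂)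
    (e₃ : (2 : ℤ) ∣ a ^ 2 + b ^ 2 + c ^ 2 + T₃) (ha : ¬ (p : ℤ) ∣ a) (hb : ¬ (p : ℤ) ∣ b)
    (hc : ¬ (p : ℤ) ∣ c) (f₁ : (p : ℤ) ∣ 2 * a ^ 2 + T₁ + T₂)
    (f₂ : (p : ℤ) ∣ 2 * b ^ 2 + T₁ + T₃) (f₃ : (p : ℤ) ∣ 2 * c ^ 2 + T₂ + T₃)
    (R₁ : Fin_.Rel p (a ^ 2) T₁ (b ^ 2)) (R₂ : Fin_.Rel p (a ^ 2) T₂ (c ^ 2))
    (R₃ : Fin_.Rel p (b ^ 2) T₃ (c ^ 2)) (S₁ : Fin_.Rel p c t₂ a) (S₁' : Fin_.Rel p c (-t₂) a)
    (S₂ : Fin_.Rel p c t₃ b) (S₂' : Fin_.Rel p c (-t₃) b)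
    (hodd : ¬ (2 : ℤ) ∣ a → ¬ (2 : ℤ) ∣ b → ¬ (2 : ℤ) ∣ c → ¬ (2 : ℤ) ∣ t₂ → ¬ (2 : ℤ) ∣ t₃ →
      False) : False := by
  have hp : Prime (p : ℤ) := Nat.prime_iff_prime_int.mp Fact.out
  have sq2 : ∀ n : ℤ, (2 : ℤ) ∣ n ^ 2 ↔ (2 : ℤ) ∣ n := fun n =>
    ⟨fun h => Int.prime_two.dvd_of_dvd_pow h, fun h => dvd_pow h two_ne_zero⟩
  have sqm : ∀ n : ℤ, n ^ 2 % 2 = n % 2 := by
    intro n
    rcases Int.emod_two_eq_zero_or_one n with h | h <;> simp [pow_two, Int.mul_emod, h]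
  have hsmall : ∀ n : ℕ, 0 < n → n < p → ¬ (p : ℤ) ∣ (n : ℤ) := by
    intro n h1 h2 h3
    have := Nat.le_of_dvd h1 (Int.natCast_dvd_natCast.mp h3)
    omega
  have cz : ∀ n : ℤ, (p : ℤ) ∣ n → ((n : ℤ) : ZMod p) = 0 := fun n h =>
    (ZMod.intCast_zmod_eq_zero_iff_dvd n p).mpr h
  have zc : ∀ n : ℤ, ((n : ℤ) : ZMod p) = 0 → (p : ℤ) ∣ n := fun n h =>
    (ZMod.intCast_zmod_eq_zero_iff_dvd n p).mp h
  have two : (2 : ZMod p) ≠ 0 := by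
    have := Fin_.cast_ne (p := p) (n := 2) (by norm_num) (by omega)
    exact_mod_cast this
  have three : (3 : ZMod p) ≠ 0 := by
    have := Fin_.cast_ne (p := p) (n := 3) (by norm_num) (by omega)
    exact_mod_cast this
  have five : (5 : ZMod p) ≠ 0 := by
    have := Fin_.cast_ne (p := p) (n := 5) (by norm_num) (by omega)
    exact_mod_cast this
  have thirty : (30 : ZMod p) ≠ 0 := by
    have : (30 : ZMod p) = 2 * 3 * 5 := by norm_num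
    rw [this]
    exact mul_ne_zero (mul_ne_zero two three) five
  have A0 : (a : ZMod p) ≠ 0 := fun h => ha (zc a h)
  have B0 : (b : ZMod p) ≠ 0 := fun h => hb (zc b h)
  have C0 : (c : ZMod p) ≠ 0 := fun h => hc (zc c h)
  have F₁ := cz _ f₁
  have F₂ := cz _ f₂
  have F₃ := cz _ f₃
  rw [hT₁, hT₂] at F₁
  rw [hT₁, hT₃] at F₂
  rw [hT₂, hT₃] at F₃
  push_cast at F₁ F₂ F₃
  have ma := sqm a
  have mb := sqm b
  have mc := sqm c
  have m1 := sqm t₁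
  have m2 := sqm t₂
  have m3 := sqm t₃
  have k1 : 2 * a * b = 2 * (a * b) := by ring
  have k2 : 2 * a * c = 2 * (a * c) := by ring
  have k3 : 2 * b * c = 2 * (b * c) := by ring
  rw [k1] at hT₁
  rw [k2] at hT₂
  rw [k3] at hT₃
  by_cases hT : (2 : ℤ) ∣ T₁
  · have hT₂' : (2 : ℤ) ∣ T₂ := by omega
    have hT₃' : (2 : ℤ) ∣ T₃ := by omega
    have G₁ := cz _ f₁
    have G₂ := cz _ f₂
    have G₃ := cz _ f₃
    push_cast at G₁ G₂ G₃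
    by_cases ea : (2 : ℤ) ∣ a ^ 2
    · have h1 := cz _ (R₁.m4 ea hT)
      have h2 := cz _ (R₂.m4 ea hT₂')
      push_cast at h1 h2
      have h : (2 : ZMod p) * (a : ZMod p) ^ 2 = 0 := by linear_combination h1 + h2 - G₁
      rcases mul_eq_zero.mp h with h | h
      · exact two h
      · exact A0 ((pow_eq_zero_iff two_ne_zero).mp h)
    by_cases eb : (2 : ℤ) ∣ b ^ 2
    · have h1 := cz _ (R₁.m0 eb hT)
      have h2 := cz _ (R₃.m4 eb hT₃')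
      push_cast at h1 h2
      have h : (2 : ZMod p) * (b : ZMod p) ^ 2 = 0 := by linear_combination h1 + h2 - G₂
      rcases mul_eq_zero.mp h with h | h
      · exact two h
      · exact B0 ((pow_eq_zero_iff two_ne_zero).mp h)
    have ec : (2 : ℤ) ∣ c ^ 2 := by omega
    have h1 := cz _ (R₂.m0 ec hT₂')
    have h2 := cz _ (R₃.m0 ec hT₃')
    push_cast at h1 h2
    have h : (2 : ZMod p) * (c : ZMod p) ^ 2 = 0 := by linear_combination h1 + h2 - G₃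
    rcases mul_eq_zero.mp h with h | h
    · exact two h
    · exact C0 ((pow_eq_zero_iff two_ne_zero).mp h)
  · have o2 : ¬ (2 : ℤ) ∣ t₂ := by omega
    have o3 : ¬ (2 : ℤ) ∣ t₃ := by omega
    by_cases ea : (2 : ℤ) ∣ a
    · by_cases eb : (2 : ℤ) ∣ b
      · -- `a`, `b` even, `c` odd
        have h1 := cz _ (S₁.m1 ea (by omega))
        have h2 := cz _ (S₁'.m1 ea (by omega))
        have h3 := cz _ (S₂.m1 eb (by omega))
        have h4 := cz _ (S₂'.m1 eb (by omega))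
        push_cast at h1 h2 h3 h4
        have u2 : (t₂ : ZMod p) = 0 := by
          apply mul_left_cancel₀ two
          linear_combination h2 - h1
        have u3 : (t₃ : ZMod p) = 0 := by
          apply mul_left_cancel₀ two
          linear_combination h4 - h3
        rw [u2] at h1 F₃
        rw [u3] at h3 F₃
        have v1 : (c : ZMod p) = 3 * a := by linear_combination h1
        have v2 : (b : ZMod p) = a := by
          apply mul_left_cancel₀ three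
          linear_combination h1 - h3
        rw [v1, v2] at F₃
        have h : (30 : ZMod p) * (a : ZMod p) ^ 2 = 0 := by linear_combination F₃
        rcases mul_eq_zero.mp h with h | h
        · exact thirty h
        · exact A0 ((pow_eq_zero_iff two_ne_zero).mp h)
      · -- `a`, `c` even, `b` odd
        have ec : (2 : ℤ) ∣ c := by omega
        have h1 := cz _ (S₁.m2 (by omega))
        have h3 := cz _ (S₂.m3 ec (by omega))
        have h4 := cz _ (S₂'.m3 ec (by omega))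
        push_cast at h1 h3 h4
        have u3 : (t₃ : ZMod p) = 0 := by
          apply mul_left_cancel₀ two
          linear_combination h3 - h4
        rw [u3] at h3 F₂ F₃
        have v1 : (b : ZMod p) = 3 * c := by linear_combination -h3
        have v2 : (a : ZMod p) = c := by linear_combination -h1
        rw [v1, v2] at F₂
        rw [v2] at F₁
        rw [v1, v2] at F₃
        rw [v1] at F₁
        have h : (30 : ZMod p) * (c : ZMod p) ^ 2 = 0 := by linear_combination F₂ - F₁ + F₃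
        rcases mul_eq_zero.mp h with h | h
        · exact thirty h
        · exact C0 ((pow_eq_zero_iff two_ne_zero).mp h)
    · by_cases eb : (2 : ℤ) ∣ b
      · -- `b`, `c` even, `a` odd
        have ec : (2 : ℤ) ∣ c := by omega
        have h1 := cz _ (S₂.m2 (by omega))
        have h3 := cz _ (S₁.m3 ec (by omega))
        have h4 := cz _ (S₁'.m3 ec (by omega))
        push_cast at h1 h3 h4
        have u2 : (t₂ : ZMod p) = 0 := by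
          apply mul_left_cancel₀ two
          linear_combination h3 - h4
        rw [u2] at h3 F₁ F₃
        have v1 : (a : ZMod p) = 3 * c := by linear_combination -h3
        have v2 : (b : ZMod p) = c := by linear_combination -h1
        rw [v1, v2] at F₁
        rw [v1, v2] at F₂
        rw [v1, v2] at F₃
        have h : (30 : ZMod p) * (c : ZMod p) ^ 2 = 0 := by linear_combination F₁ - F₂ + F₃
        rcases mul_eq_zero.mp h with h | h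
        · exact thirty h
        · exact C0 ((pow_eq_zero_iff two_ne_zero).mp h)
      · have ec : ¬ (2 : ℤ) ∣ c := by omega
        exact hodd ea eb ec o2 o3

end E_

theorem p_E (hCONJ : T_CONJ) (hDATAB : T_DATAB) (hNFI : T_NFI) (hPAR : T_PAR) (hMODP : T_MODP)
    (hPOW : T_POW) (hPOWB : T_POWB) (hC4 : T_C4) (hREC : T_REC) : T_E := by
  intro K _ _ hK p _ h7 hW x y z hco h
  have hp : p.Prime := Fact.out
  have hodd : Odd p := hp.odd_of_ne_two (by omega)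
  obtain ⟨τ, hτ⟩ := hCONJ K hK
  have hpK : ¬ IsUnit ((p : ℕ) : 𝓞 K) := by
    intro hu
    have h1 : IsUnit (Algebra.norm ℤ ((p : ℕ) : 𝓞 K)) := hu.map (Algebra.norm ℤ)
    have h2 : ((p : ℕ) : 𝓞 K) = algebraMap ℤ (𝓞 K) (p : ℤ) := by simp
    rw [h2, Algebra.norm_algebraMap, RingOfIntegers.rank, hK] at h1
    have h3 : IsUnit (p : ℤ) := (isUnit_pow_iff two_ne_zero).mp h1
    rw [Int.isUnit_iff] at h3
    omega
  have hne : ∀ w v : 𝓞 K, w * v = x * y * z → w ≠ 0 := by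
    rintro w v hw rfl
    rw [zero_mul] at hw
    rw [← hw, isCoprime_zero_left] at hco
    exact hpK hco
  have hx : x ≠ 0 := hne x (y * z) (by ring)
  have hy : y ≠ 0 := hne y (x * z) (by ring)
  have hz : z ≠ 0 := hne z (x * y) (by ring)
  obtain ⟨g, a, b, c, t₁, t₂, t₃, hg, N₁, N₂, N₃⟩ := hDATAB K τ hτ (2 * p) (by omega) x y z hx hy
    hz h
  have hg0 : g ≠ 0 := hg.ne'
  have hG0 : g ^ 2 ≠ 0 := pow_ne_zero 2 hg0
  obtain ⟨T₁, hT₁⟩ : ∃ T₁, T₁ = t₁ ^ 2 - 2 * a * b := ⟨_, rfl⟩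
  obtain ⟨T₂, hT₂⟩ : ∃ T₂, T₂ = -(t₂ ^ 2 - 2 * a * c) := ⟨_, rfl⟩
  obtain ⟨T₃, hT₃⟩ : ∃ T₃, T₃ = -(t₃ ^ 2 - 2 * b * c) := ⟨_, rfl⟩
  obtain ⟨w, hw⟩ : ∃ w : 𝓞 K, w = -z ^ 2 := ⟨_, rfl⟩
  have hprim : ∀ A B t T : ℤ, Prim A t B → (T = t ^ 2 - 2 * A * B ∨ T = -(t ^ 2 - 2 * A * B)) →
      Prim (A ^ 2) T (B ^ 2) := by
    intro A B t T hP hT q hq h1 h2 h3
    have hq' : Prime (q : ℤ) := Nat.prime_iff_prime_int.mp hq
    have hA := hq'.dvd_of_dvd_pow h1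
    have hB := hq'.dvd_of_dvd_pow h3
    refine hP q hq hA (hq'.dvd_of_dvd_pow (n := 2) ?_) hB
    have h4 : (q : ℤ) ∣ 2 * A * B := Dvd.dvd.mul_left hB _
    rcases hT with hT | hT
    · have : t ^ 2 = T + 2 * A * B := by rw [hT]; ring
      rw [this]
      exact dvd_add h2 h4
    · have : t ^ 2 = -T + 2 * A * B := by rw [hT]; ring
      rw [this]
      exact dvd_add ((dvd_neg).mpr h2) h4
  have M₁ : NF K τ (x ^ 2) (y ^ 2) (g ^ 2) (a ^ 2) T₁ (b ^ 2) := by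
    refine hNFI K τ hτ _ _ _ _ _ _ hG0 ?_ ?_ ?_ (hprim a b t₁ T₁ N₁.prim (Or.inl hT₁))
    · rw [map_pow]
      push_cast
      linear_combination (x * τ x + g * a) * N₁.hA
    · rw [map_pow, map_pow, hT₁]
      push_cast
      linear_combination (x * τ y + y * τ x + g * t₁) * N₁.hT - 2 * (y * τ y) * N₁.hA -
        2 * (g * a) * N₁.hB
    · rw [map_pow]
      push_cast
      linear_combination (y * τ y + g * b) * N₁.hB
  have M₂ : NF K τ (x ^ 2) w (g ^ 2) (a ^ 2) T₂ (c ^ 2) := by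
    refine hNFI K τ hτ _ _ _ _ _ _ hG0 ?_ ?_ ?_ (hprim a c t₂ T₂ N₂.prim (Or.inr hT₂))
    · rw [map_pow]
      push_cast
      linear_combination (x * τ x + g * a) * N₂.hA
    · rw [map_pow, hw, map_neg, map_pow, hT₂]
      push_cast
      linear_combination -((x * τ z + z * τ x + g * t₂) * N₂.hT - 2 * (z * τ z) * N₂.hA -
        2 * (g * a) * N₂.hB)
    · rw [hw, map_neg, map_pow]
      push_cast
      linear_combination (z * τ z + g * c) * N₂.hB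
  have M₃ : NF K τ (y ^ 2) w (g ^ 2) (b ^ 2) T₃ (c ^ 2) := by
    refine hNFI K τ hτ _ _ _ _ _ _ hG0 ?_ ?_ ?_ (hprim b c t₃ T₃ N₃.prim (Or.inr hT₃))
    · rw [map_pow]
      push_cast
      linear_combination (y * τ y + g * b) * N₃.hA
    · rw [map_pow, hw, map_neg, map_pow, hT₃]
      push_cast
      linear_combination -((y * τ z + z * τ y + g * t₃) * N₃.hT - 2 * (z * τ z) * N₃.hA -
        2 * (g * b) * N₃.hB)
    · rw [hw, map_neg, map_pow]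
      push_cast
      linear_combination (z * τ z + g * c) * N₃.hB
  have psw : ∀ A t B : ℤ, Prim A t B → Prim B t A := fun A t B hP q hq h1 h2 h3 =>
    hP q hq h3 h2 h1
  have png : ∀ A t B : ℤ, Prim A t B → Prim A (-t) B := fun A t B hP q hq h1 h2 h3 =>
    hP q hq h1 ((dvd_neg).mp h2) h3
  have L₁ : NF K τ z x g c t₂ a := hNFI K τ hτ _ _ _ _ _ _ hg0 N₂.hB
    (by rw [add_comm]; exact N₂.hT) N₂.hA (psw _ _ _ N₂.prim)
  have L₂ : NF K τ z y g c t₃ b := hNFI K τ hτ _ _ _ _ _ _ hg0 N₃.hB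
    (by rw [add_comm]; exact N₃.hT) N₃.hA (psw _ _ _ N₃.prim)
  have L₁' : NF K τ z (-x) g c (-t₂) a := hNFI K τ hτ _ _ _ _ _ _ hg0 N₂.hB
    (by rw [map_neg]; push_cast; linear_combination -L₁.hT)
    (by rw [map_neg]; linear_combination N₂.hA) (png _ _ _ L₁.prim)
  have L₂' : NF K τ z (-y) g c (-t₃) b := hNFI K τ hτ _ _ _ _ _ _ hg0 N₃.hB
    (by rw [map_neg]; push_cast; linear_combination -L₂.hT)
    (by rw [map_neg]; linear_combination N₃.hA) (png _ _ _ L₂.prim)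
  have hx2 : x ^ 2 ≠ 0 := pow_ne_zero 2 hx
  have hy2 : y ^ 2 ≠ 0 := pow_ne_zero 2 hy
  have hw0 : w ≠ 0 := by rw [hw]; exact neg_ne_zero.mpr (pow_ne_zero 2 hz)
  have h0 : (x ^ 2) ^ p + (y ^ 2) ^ p + w ^ p = 0 := by
    rw [hw, hodd.neg_pow, ← pow_mul, ← pow_mul, ← pow_mul, h]
    ring
  have h0' : (x ^ 2) ^ p + w ^ p + (y ^ 2) ^ p = 0 := by rw [← h0]; ring
  have h0'' : (y ^ 2) ^ p + w ^ p + (x ^ 2) ^ p = 0 := by rw [← h0]; ring
  have h0y : (y ^ 2) ^ p + (x ^ 2) ^ p + w ^ p = 0 := by rw [← h0]; ring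
  have h0w : w ^ p + (x ^ 2) ^ p + (y ^ 2) ^ p = 0 := by rw [← h0]; ring
  have hcox : IsCoprime x (p : 𝓞 K) := hco.of_isCoprime_of_dvd_left ⟨y * z, by ring⟩
  have hcoy : IsCoprime y (p : 𝓞 K) := hco.of_isCoprime_of_dvd_left ⟨x * z, by ring⟩
  have hco2 : IsCoprime ((x * y * z) ^ 2) (p : 𝓞 K) := hco.pow_left
  have hcoA : IsCoprime (x ^ 2 * y ^ 2 * w) (p : 𝓞 K) :=
    hco2.of_isCoprime_of_dvd_left ⟨-1, by rw [hw]; ring⟩
  have hcoB : IsCoprime (y ^ 2 * x ^ 2 * w) (p : 𝓞 K) :=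
    hco2.of_isCoprime_of_dvd_left ⟨-1, by rw [hw]; ring⟩
  have hcoC : IsCoprime (w * x ^ 2 * y ^ 2) (p : 𝓞 K) :=
    hco2.of_isCoprime_of_dvd_left ⟨-1, by rw [hw]; ring⟩
  have hcoX : IsCoprime (x ^ 2) (p : 𝓞 K) := hcox.pow_left
  have hcoY : IsCoprime (y ^ 2) (p : 𝓞 K) := hcoy.pow_left
  have hcoW : IsCoprime w (p : 𝓞 K) := hcoC.of_isCoprime_of_dvd_left ⟨x ^ 2 * y ^ 2, by ring⟩
  obtain ⟨pa, f₁⟩ := hMODP K τ hτ p hp _ _ _ h0 hcoA (g ^ 2) (a ^ 2) (b ^ 2) (c ^ 2) T₁ T₂ hG0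
    M₁.hA M₁.hT M₂.hT
  obtain ⟨pb, f₂⟩ := hMODP K τ hτ p hp _ _ _ h0y hcoB (g ^ 2) (b ^ 2) (a ^ 2) (c ^ 2) T₁ T₃ hG0
    M₃.hA (by rw [add_comm]; exact M₁.hT) M₃.hT
  obtain ⟨pc, f₃⟩ := hMODP K τ hτ p hp _ _ _ h0w hcoC (g ^ 2) (c ^ 2) (a ^ 2) (b ^ 2) T₂ T₃ hG0
    M₃.hB (by rw [add_comm]; exact M₂.hT) (by rw [add_comm]; exact M₃.hT)
  have e₁ := hPAR K τ hτ p hp (by omega) _ _ _ h0 (g ^ 2) (a ^ 2) (b ^ 2) (c ^ 2) T₁ hG0 M₁ M₂.hB
  have e₂ := hPAR K τ hτ p hp (by omega) _ _ _ h0' (g ^ 2) (a ^ 2) (c ^ 2) (b ^ 2) T₂ hG0 M₂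
    M₁.hB
  have e₃ := hPAR K τ hτ p hp (by omega) _ _ _ h0'' (g ^ 2) (b ^ 2) (c ^ 2) (a ^ 2) T₃ hG0 M₃
    M₁.hA
  have i₁ := hPOW K hK τ hτ p (by omega) _ _ _ hx2 hy2 h0 hcoW (g ^ 2) (a ^ 2) T₁ (b ^ 2) hG0 M₁
  have i₂ := hPOW K hK τ hτ p (by omega) _ _ _ hx2 hw0 h0' hcoY (g ^ 2) (a ^ 2) T₂ (c ^ 2) hG0 M₂
  have i₃ := hPOW K hK τ hτ p (by omega) _ _ _ hy2 hw0 h0'' hcoX (g ^ 2) (b ^ 2) T₃ (c ^ 2) hG0
    M₃
  have h2' : ∀ n : ℤ, (p : ℤ) ∣ 2 * n → (p : ℤ) ∣ n := fun n h =>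
    Fin_.dvd_of_mul (m := 2) (by norm_num) (by omega) h (by push_cast; ring)
  have n₁ : ¬ (p : ℤ) ∣ a ^ 2 + T₁ + b ^ 2 := by
    intro hcon
    apply pc
    apply h2'
    have h3 : 2 * c ^ 2 = 2 * (a ^ 2 + T₁ + b ^ 2) - (2 * a ^ 2 + T₁ + T₂) -
      (2 * b ^ 2 + T₁ + T₃) + (2 * c ^ 2 + T₂ + T₃) := by ring
    rw [h3]
    exact dvd_add (dvd_sub (dvd_sub (Dvd.dvd.mul_left hcon 2) f₁) f₂) f₃
  have n₂ : ¬ (p : ℤ) ∣ a ^ 2 + T₂ + c ^ 2 := by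
    intro hcon
    apply pb
    apply h2'
    have h3 : 2 * b ^ 2 = 2 * (a ^ 2 + T₂ + c ^ 2) - (2 * a ^ 2 + T₁ + T₂) -
      (2 * c ^ 2 + T₂ + T₃) + (2 * b ^ 2 + T₁ + T₃) := by ring
    rw [h3]
    exact dvd_add (dvd_sub (dvd_sub (Dvd.dvd.mul_left hcon 2) f₁) f₃) f₂
  have n₃ : ¬ (p : ℤ) ∣ b ^ 2 + T₃ + c ^ 2 := by
    intro hcon
    apply pa
    apply h2'
    have h3 : 2 * a ^ 2 = 2 * (b ^ 2 + T₃ + c ^ 2) - (2 * b ^ 2 + T₁ + T₃) -
      (2 * c ^ 2 + T₂ + T₃) + (2 * a ^ 2 + T₁ + T₂) := by ring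
    rw [h3]
    exact dvd_add (dvd_sub (dvd_sub (Dvd.dvd.mul_left hcon 2) f₂) f₃) f₁
  have u₁ : ¬ (p : ℤ) ∣ c + t₂ + a := by
    intro hcon
    apply n₂
    have : a ^ 2 + T₂ + c ^ 2 = (c + t₂ + a) * (c - t₂ + a) := by rw [hT₂]; ring
    rw [this]
    exact Dvd.dvd.mul_right hcon _
  have u₁' : ¬ (p : ℤ) ∣ c + -t₂ + a := by
    intro hcon
    apply n₂
    have : a ^ 2 + T₂ + c ^ 2 = (c + -t₂ + a) * (c + t₂ + a) := by rw [hT₂]; ring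
    rw [this]
    exact Dvd.dvd.mul_right hcon _
  have u₂ : ¬ (p : ℤ) ∣ c + t₃ + b := by
    intro hcon
    apply n₃
    have : b ^ 2 + T₃ + c ^ 2 = (c + t₃ + b) * (c - t₃ + b) := by rw [hT₃]; ring
    rw [this]
    exact Dvd.dvd.mul_right hcon _
  have u₂' : ¬ (p : ℤ) ∣ c + -t₃ + b := by
    intro hcon
    apply n₃
    have : b ^ 2 + T₃ + c ^ 2 = (c + -t₃ + b) * (c + t₃ + b) := by rw [hT₃]; ring
    rw [this]
    exact Dvd.dvd.mul_right hcon _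
  have hev : Even (2 * p) := even_two_mul p
  have j₁ := hPOWB K hK τ hτ p (by omega) x y z hx hz h hcoy g c t₂ a hg0 L₁ u₁
  have j₁' := hPOWB K hK τ hτ p (by omega) (-x) y z (neg_ne_zero.mpr hx) hz
    (by rw [hev.neg_pow]; exact h) hcoy g c (-t₂) a hg0 L₁' u₁'
  have j₂ := hPOWB K hK τ hτ p (by omega) y x z hy hz (by rw [add_comm]; exact h) hcox g c t₃ b
    hg0 L₂ u₂
  have j₂' := hPOWB K hK τ hτ p (by omega) (-y) x z (neg_ne_zero.mpr hy) hz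
    (by rw [hev.neg_pow, add_comm]; exact h) hcox g c (-t₃) b hg0 L₂' u₂'
  have sqn : ∀ n : ℤ, ¬ (p : ℤ) ∣ n ^ 2 → ¬ (p : ℤ) ∣ n := fun n h1 h2 =>
    h1 (dvd_pow h2 two_ne_zero)
  refine E_.cases_aux h7 hT₁ hT₂ hT₃ e₁ (by omega) (by omega) (sqn _ pa) (sqn _ pb) (sqn _ pc)
    f₁ f₂ f₃ (Fin_.rel_of_rec hREC h7 hW M₁.prim n₁ i₁) (Fin_.rel_of_rec hREC h7 hW M₂.prim n₂ i₂)
    (Fin_.rel_of_rec hREC h7 hW M₃.prim n₃ i₃) (Fin_.rel_of_rec hREC h7 hW L₁.prim u₁ j₁)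
    (Fin_.rel_of_rec hREC h7 hW L₁'.prim u₁' j₁') (Fin_.rel_of_rec hREC h7 hW L₂.prim u₂ j₂)
    (Fin_.rel_of_rec hREC h7 hW L₂'.prim u₂' j₂') ?_
  intro o1 o2 o3 o4 o5
  exact hC4 K τ hτ p hp (by omega) x y z h g a b c t₂ t₃ hg0 N₂ N₃ o1 o2 o3 o4 o5

end Pool.Agent.FCW
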