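import Pool.Agent.FCW.Targets2

/-!
# A prime over `p` that divides only one variable, and only on one side
-/

open NumberField

namespace Pool.Agent.FCW

namespace LOCP_

variable {K : Type} [Field K] [NumberField K]

theorem int_mem {p : ℕ} (hp : p.Prime) {P : Ideal (𝓞 K)} (hP : P.IsPrime)
    (hpP : (p : 𝓞 K) ∈ P) {n : ℤ} : (n : 𝓞 K) ∈ P ↔ (p : ℤ) ∣ n := by
  constructor
  · intro h
    by_contra hn
    have hcop : IsCoprime (p : ℤ) n :=
      (Int.isCoprime_iff_gcd_eq_one.mpr (((Nat.Prime.coprime_iff_not_dvd hp).mpr (by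
        intro h1
        exact hn (Int.natCast_dvd.mpr h1)))))
    obtain ⟨u, v, huv⟩ := hcop
    apply hP.ne_top
    rw [Ideal.eq_top_iff_one]
    have h1 : (1 : 𝓞 K) = (u : 𝓞 K) * (p : 𝓞 K) + (v : 𝓞 K) * (n : 𝓞 K) := by
      have := congrArg (fun t : ℤ => (t : 𝓞 K)) huv
      push_cast at this
      exact this.symm
    rw [h1]
    exact P.add_mem (P.mul_mem_left _ hpP) (P.mul_mem_left _ h)
  · rintro ⟨k, rfl⟩
    push_cast
    exact P.mul_mem_right _ hpP

/-- residues of a norm form at a prime `P` over `p`: `u, v ∉ P`, `τ u ∉ P`, `τ v ∈ P` -/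
theorem locp {τ : 𝓞 K ≃+* 𝓞 K} {p : ℕ} (hp : p.Prime)
    {P : Ideal (𝓞 K)} (hP : P.IsPrime) (hpP : (p : 𝓞 K) ∈ P) {u v : 𝓞 K} {g A T B : ℤ}
    (hN : NF K τ u v g A T B) (hu : u ∉ P) (hv : v ∉ P) (hτu : τ u ∉ P) (hτv : τ v ∈ P)
    (huv : u ^ 2 - v ^ 2 ∉ P) :
    (p : ℤ) ∣ B ∧ ¬ (p : ℤ) ∣ A ∧ ¬ (p : ℤ) ∣ T ∧ ¬ (p : ℤ) ∣ A + T + B ∧
      ¬ (p : ℤ) ∣ A + -T + B := by
  have key : ∀ n : ℤ, (g : 𝓞 K) * (n : 𝓞 K) ∉ P → ¬ (p : ℤ) ∣ n := by
    intro n h1 h2
    exact h1 (P.mul_mem_left _ ((int_mem hp hP hpP).mpr h2))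
  have hA : ¬ (p : ℤ) ∣ A := by
    apply key
    rw [← hN.hA]
    intro h
    rcases hP.mem_or_mem h with h | h
    · exact hu h
    · exact hτu h
  have hg : (g : 𝓞 K) ∉ P := by
    intro h
    have h1 : u * τ u ∈ P := by rw [hN.hA]; exact P.mul_mem_right _ h
    rcases hP.mem_or_mem h1 with h | h
    · exact hu h
    · exact hτu h
  have hB : (p : ℤ) ∣ B := by
    have h1 : (g : 𝓞 K) * (B : 𝓞 K) ∈ P := by
      rw [← hN.hB]
      exact P.mul_mem_left _ hτv
    rcases hP.mem_or_mem h1 with h | h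
    · exact absurd h hg
    · exact (int_mem hp hP hpP).mp h
  have hT : ¬ (p : ℤ) ∣ T := by
    apply key
    rw [← hN.hT]
    intro h
    have h1 : v * τ u ∈ P := by
      have h2 : v * τ u = (u * τ v + v * τ u) - u * τ v := by ring
      rw [h2]
      exact P.sub_mem h (P.mul_mem_left _ hτv)
    rcases hP.mem_or_mem h1 with h | h
    · exact hv h
    · exact hτu h
  have h3 : ∀ e : 𝓞 K, (e = 1 ∨ e = -1) → u + e * v ∉ P := by
    rintro e he h
    apply huv
    have h2 : u ^ 2 - v ^ 2 = (u - e * v) * (u + e * v) := by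
      rcases he with rfl | rfl <;> ring
    rw [h2]
    exact P.mul_mem_left _ h
  have h4 : ∀ e : ℤ, (e = 1 ∨ e = -1) → ¬ (p : ℤ) ∣ A + e * T + B := by
    intro e he
    apply key
    intro h
    have h5 : (u + e * v) * (τ u + e * τ v) ∈ P := by
      have h6 : (u + e * v) * (τ u + e * τ v) = (g : 𝓞 K) * ((A + e * T + B : ℤ) : 𝓞 K) := by
        have h7 : (e : 𝓞 K) * (e : 𝓞 K) = 1 := by
          rcases he with rfl | rfl <;> norm_num
        push_cast
        linear_combination hN.hA + (e : 𝓞 K) * hN.hT + hN.hB + (v * τ v) * h7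
      rw [h6]
      exact h
    rcases hP.mem_or_mem h5 with h | h
    · exact h3 e (by rcases he with rfl | rfl <;> norm_num) h
    · apply hτu
      have h8 : τ u = (τ u + e * τ v) - e * τ v := by ring
      rw [h8]
      exact P.sub_mem h (P.mul_mem_left _ hτv)
  refine ⟨hB, hA, hT, ?_, ?_⟩
  · have := h4 1 (Or.inl rfl)
    rwa [one_mul] at this
  · have := h4 (-1) (Or.inr rfl)
    rwa [neg_one_mul] at this

end LOCP_

end Pool.Agent.FCW
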