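import Pool.Agent.FCW.MainE
import Pool.Agent.FCW.LOCP

/-!
# Even exponents: every prime above `p` divides `xyz`
-/

open NumberField

namespace Pool.Agent.FCW

/-- Every prime above `p` divides `xyz`. -/
def T_EP : Prop := ∀ (K : Type) [Field K] [NumberField K], Module.finrank ℚ K = 2 →
  ∀ (p : ℕ) [Fact p.Prime], 7 ≤ p → ¬ p ^ 2 ∣ 2 ^ (p - 1) - 1 → ∀ x y z : 𝓞 K,
  x ^ (2 * p) + y ^ (2 * p) = z ^ (2 * p) →
  (∀ Q : Ideal (𝓞 K), Q.IsPrime → (p : 𝓞 K) ∈ Q → x ∈ Q → y ∉ Q) →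
  ∀ P : Ideal (𝓞 K), P.IsPrime → (p : 𝓞 K) ∈ P → x * y * z ∈ P

namespace EP_

variable {p : ℕ} [Fact p.Prime]

theorem half (h7 : 7 ≤ p) {A T B : ℤ} (hP : Prim A T B) (R : Fin_.Rel p A T B)
    (R' : Fin_.Rel p A (-T) B) (hT : ¬ (p : ℤ) ∣ T)
    (h : ((p : ℤ) ∣ B ∧ ¬ (p : ℤ) ∣ A) ∨ ((p : ℤ) ∣ A ∧ ¬ (p : ℤ) ∣ B)) : False := by
  have h2' : ∀ n : ℤ, (p : ℤ) ∣ 2 * n → (p : ℤ) ∣ n := fun n h =>
    Fin_.dvd_of_mul (m := 2) (by norm_num) (by omega) h (by push_cast; ring)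
  by_cases hAB : (2 : ℤ) ∣ A - B
  · have h1 := R.m2 hAB
    rcases h with ⟨h2, h3⟩ | ⟨h2, h3⟩
    · apply h3
      have h4 := dvd_add h1 h2
      rwa [sub_add_cancel] at h4
    · apply h3
      have h4 := dvd_sub h2 h1
      rwa [sub_sub_cancel] at h4
  · apply hT
    apply h2'
    by_cases hA : (2 : ℤ) ∣ A
    · by_cases hT2 : (2 : ℤ) ∣ T
      · have h1 := R.m4 hA hT2
        have h2 := R'.m4 hA ((dvd_neg).mpr hT2)
        have h3 : 2 * T = (2 * A + T) - (2 * A + -T) := by ring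
        rw [h3]
        exact dvd_sub h1 h2
      · have h1 := R.m3 hA (by omega)
        have h2 := R'.m3 hA (by omega)
        have h3 : 2 * T = (3 * A + T - B) - (3 * A + -T - B) := by ring
        rw [h3]
        exact dvd_sub h1 h2
    · have hB : (2 : ℤ) ∣ B := by omega
      by_cases hT2 : (2 : ℤ) ∣ T
      · have h1 := R.m0 hB hT2
        have h2 := R'.m0 hB ((dvd_neg).mpr hT2)
        have h3 : 2 * T = (T + 2 * B) - (-T + 2 * B) := by ring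
        rw [h3]
        exact dvd_sub h1 h2
      · have h1 := R.m1 hB (by omega)
        have h2 := R'.m1 hB (by omega)
        have h3 : 2 * T = (A - -T - 3 * B) - (A - T - 3 * B) := by ring
        rw [h3]
        exact dvd_sub h2 h1

theorem primes_over {K : Type} [Field K] [NumberField K] {τ : 𝓞 K ≃+* 𝓞 K}
    (hτ : IsConj K τ) {P : Ideal (𝓞 K)} (hP : P.IsPrime)
    (hpP : (p : 𝓞 K) ∈ P) {Q : Ideal (𝓞 K)} (hQ : Q.IsPrime) (hpQ : (p : 𝓞 K) ∈ Q) {w : 𝓞 K}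
    (hw : w ∈ Q) : w ∈ P ∨ τ w ∈ P := by
  obtain ⟨n, hn⟩ := hτ.fix (w * τ w) (by rw [map_mul, hτ.invol, mul_comm])
  have h1 : (n : 𝓞 K) ∈ Q := by
    rw [← hn]
    exact Q.mul_mem_right _ hw
  have h2 : (n : 𝓞 K) ∈ P :=
    (LOCP_.int_mem Fact.out hP hpP).mpr ((LOCP_.int_mem Fact.out hQ hpQ).mp h1)
  rw [← hn] at h2
  exact hP.mem_or_mem h2

theorem coprime_of {K : Type} [Field K] [NumberField K] {τ : 𝓞 K ≃+* 𝓞 K}
    (hτ : IsConj K τ) {P : Ideal (𝓞 K)} (hP : P.IsPrime)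
    (hpP : (p : 𝓞 K) ∈ P) {w : 𝓞 K} (h1 : w ∉ P) (h2 : τ w ∉ P) :
    IsCoprime w (p : 𝓞 K) := by
  rw [← Ideal.isCoprime_span_singleton_iff, Ideal.isCoprime_iff_sup_eq]
  by_contra hcon
  obtain ⟨Q, hQ, hle⟩ := Ideal.exists_le_maximal _ hcon
  have h3 : w ∈ Q := hle (Ideal.mem_sup_left (Ideal.mem_span_singleton_self _))
  have h4 : (p : 𝓞 K) ∈ Q := hle (Ideal.mem_sup_right (Ideal.mem_span_singleton_self _))
  rcases primes_over hτ hP hpP hQ.isPrime h4 h3 with h | h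
  · exact h1 h
  · exact h2 h

end EP_

theorem p_EP (hE : T_E) (hCONJ : T_CONJ) (hDATAB : T_DATAB) (hNFI : T_NFI) (hPOWB : T_POWB)
    (hREC : T_REC) : T_EP := by
  intro K _ _ hK p _ h7 hW x y z h hI P hP hpP
  have hp : p.Prime := Fact.out
  obtain ⟨τ, hτ⟩ := hCONJ K hK
  by_contra hxyz
  have hxP : x ∉ P := fun h1 => hxyz (P.mul_mem_right _ (P.mul_mem_right _ h1))
  have hyP : y ∉ P := fun h1 => hxyz (P.mul_mem_right _ (P.mul_mem_left _ h1))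
  have hzP : z ∉ P := fun h1 => hxyz (P.mul_mem_left _ h1)
  have hx : x ≠ 0 := fun h1 => hxP (by rw [h1]; exact P.zero_mem)
  have hy : y ≠ 0 := fun h1 => hyP (by rw [h1]; exact P.zero_mem)
  have hz : z ≠ 0 := fun h1 => hzP (by rw [h1]; exact P.zero_mem)
  have hp2 : 2 * p ≠ 0 := by have := hp.pos; omega
  -- the conjugate prime
  have hτp : ∀ w : 𝓞 K, τ w ∈ P → w ∈ P.comap (τ : 𝓞 K →+* 𝓞 K) := fun w hw => hw
  have hQ : (P.comap (τ : 𝓞 K →+* 𝓞 K)).IsPrime := Ideal.IsPrime.comap _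
  have hpQ : (p : 𝓞 K) ∈ P.comap (τ : 𝓞 K →+* 𝓞 K) := by
    rw [Ideal.mem_comap, map_natCast]
    exact hpP
  have h' : (τ x) ^ (2 * p) + (τ y) ^ (2 * p) = (τ z) ^ (2 * p) := by
    rw [← map_pow, ← map_pow, ← map_pow, ← map_add, h]
  have hIQ : τ x ∈ P → τ y ∉ P := fun h1 h2 => hI _ hQ hpQ (hτp x h1) (hτp y h2)
  have hxz : τ x ∈ P → τ z ∉ P := by
    intro h1 h2
    apply hIQ h1
    apply hP.mem_of_pow_mem (2 * p)
    have h3 : (τ y) ^ (2 * p) = (τ z) ^ (2 * p) - (τ x) ^ (2 * p) := by rw [← h']; ring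
    rw [h3]
    exact P.sub_mem (P.pow_mem_of_mem h2 _ (by omega)) (P.pow_mem_of_mem h1 _ (by omega))
  have hyz : τ y ∈ P → τ z ∉ P := by
    intro h1 h2
    refine hIQ ?_ h1
    apply hP.mem_of_pow_mem (2 * p)
    have h3 : (τ x) ^ (2 * p) = (τ z) ^ (2 * p) - (τ y) ^ (2 * p) := by rw [← h']; ring
    rw [h3]
    exact P.sub_mem (P.pow_mem_of_mem h2 _ (by omega)) (P.pow_mem_of_mem h1 _ (by omega))
  obtain ⟨g, a, b, c, t₁, t₂, t₃, hg, N₁, N₂, N₃⟩ := hDATAB K τ hτ (2 * p) (by omega) x y z hx hy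
    hz h
  have hg0 : g ≠ 0 := hg.ne'
  have psw : ∀ A t B : ℤ, Prim A t B → Prim B t A := fun A t B hP q hq h1 h2 h3 =>
    hP q hq h3 h2 h1
  have png : ∀ A t B : ℤ, Prim A t B → Prim A (-t) B := fun A t B hP q hq h1 h2 h3 =>
    hP q hq h1 ((dvd_neg).mp h2) h3
  have L₁ : NF K τ z x g c t₂ a := hNFI K τ hτ _ _ _ _ _ _ hg0 N₂.hB
    (by rw [add_comm]; exact N₂.hT) N₂.hA (psw _ _ _ N₂.prim)
  have L₂ : NF K τ z y g c t₃ b := hNFI K τ hτ _ _ _ _ _ _ hg0 N₃.hB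
    (by rw [add_comm]; exact N₃.hT) N₃.hA (psw _ _ _ N₃.prim)
  have L₁' : NF K τ z (-x) g c (-t₂) a := hNFI K τ hτ _ _ _ _ _ _ hg0 N₂.hB
    (by rw [map_neg]; push_cast; linear_combination -L₁.hT)
    (by rw [map_neg]; linear_combination N₂.hA) (png _ _ _ L₁.prim)
  have L₂' : NF K τ z (-y) g c (-t₃) b := hNFI K τ hτ _ _ _ _ _ _ hg0 N₃.hB
    (by rw [map_neg]; push_cast; linear_combination -L₂.hT)
    (by rw [map_neg]; linear_combination N₃.hA) (png _ _ _ L₂.prim)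
  have hev : Even (2 * p) := even_two_mul p
  have relx : IsCoprime y (p : 𝓞 K) → ¬ (p : ℤ) ∣ c + t₂ + a → ¬ (p : ℤ) ∣ c + -t₂ + a →
      Fin_.Rel p c t₂ a ∧ Fin_.Rel p c (-t₂) a := by
    intro hc u u'
    have j := hPOWB K hK τ hτ p (by omega) x y z hx hz h hc g c t₂ a hg0 L₁ u
    have j' := hPOWB K hK τ hτ p (by omega) (-x) y z (neg_ne_zero.mpr hx) hz
      (by rw [hev.neg_pow]; exact h) hc g c (-t₂) a hg0 L₁' u'
    exact ⟨Fin_.rel_of_rec hREC h7 hW L₁.prim u j, Fin_.rel_of_rec hREC h7 hW L₁'.prim u' j'⟩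
  have rely : IsCoprime x (p : 𝓞 K) → ¬ (p : ℤ) ∣ c + t₃ + b → ¬ (p : ℤ) ∣ c + -t₃ + b →
      Fin_.Rel p c t₃ b ∧ Fin_.Rel p c (-t₃) b := by
    intro hc u u'
    have j := hPOWB K hK τ hτ p (by omega) y x z hy hz (by rw [add_comm]; exact h) hc g c t₃ b
      hg0 L₂ u
    have j' := hPOWB K hK τ hτ p (by omega) (-y) x z (neg_ne_zero.mpr hy) hz
      (by rw [hev.neg_pow, add_comm]; exact h) hc g c (-t₃) b hg0 L₂' u'
    exact ⟨Fin_.rel_of_rec hREC h7 hW L₂.prim u j, Fin_.rel_of_rec hREC h7 hW L₂'.prim u' j'⟩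
  have hzx : z ^ 2 - x ^ 2 ∉ P := by
    intro h1
    apply hyP
    apply hP.mem_of_pow_mem (2 * p)
    have h3 : y ^ (2 * p) = (z ^ 2) ^ p - (x ^ 2) ^ p := by
      rw [← pow_mul, ← pow_mul, ← h]; ring
    rw [h3]
    exact P.mem_of_dvd (sub_dvd_pow_sub_pow _ _ _) h1
  have hzy : z ^ 2 - y ^ 2 ∉ P := by
    intro h1
    apply hxP
    apply hP.mem_of_pow_mem (2 * p)
    have h3 : x ^ (2 * p) = (z ^ 2) ^ p - (y ^ 2) ^ p := by
      rw [← pow_mul, ← pow_mul, ← h]; ring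
    rw [h3]
    exact P.mem_of_dvd (sub_dvd_pow_sub_pow _ _ _) h1
  by_cases tx : τ x ∈ P
  · obtain ⟨q1, q2, q3, q4, q5⟩ := LOCP_.locp hp hP hpP L₁ hzP hxP (hxz tx) tx hzx
    obtain ⟨R, R'⟩ := relx (EP_.coprime_of hτ hP hpP hyP (hIQ tx)) q4 q5
    exact EP_.half h7 L₁.prim R R' q3 (Or.inl ⟨q1, q2⟩)
  by_cases ty : τ y ∈ P
  · obtain ⟨q1, q2, q3, q4, q5⟩ := LOCP_.locp hp hP hpP L₂ hzP hyP (hyz ty) ty hzy
    obtain ⟨R, R'⟩ := rely (EP_.coprime_of hτ hP hpP hxP tx) q4 q5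
    exact EP_.half h7 L₂.prim R R' q3 (Or.inl ⟨q1, q2⟩)
  by_cases tz : τ z ∈ P
  · have hxz' : x ^ 2 - z ^ 2 ∉ P := by
      intro h1
      apply hzx
      rw [← neg_sub]
      exact P.neg_mem h1
    obtain ⟨q1, q2, q3, q4, q5⟩ := LOCP_.locp hp hP hpP N₂ hxP hzP tx tz hxz'
    have e4 : c + t₂ + a = a + t₂ + c := by ring
    have e5 : c + -t₂ + a = a + -t₂ + c := by ring
    obtain ⟨R, R'⟩ := relx (EP_.coprime_of hτ hP hpP hyP ty) (by rw [e4]; exact q4)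
      (by rw [e5]; exact q5)
    exact EP_.half h7 L₁.prim R R' q3 (Or.inr ⟨q1, q2⟩)
  refine hE K hK p h7 hW x y z ?_ h
  exact EP_.coprime_of hτ hP hpP hxyz (by
    rw [map_mul, map_mul]
    intro h1
    rcases hP.mem_or_mem h1 with h1 | h1
    · rcases hP.mem_or_mem h1 with h1 | h1
      · exact tx h1
      · exact ty h1
    · exact tz h1)

end Pool.Agent.FCW
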