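import Pool.Agent.FCW.Targets

/-!
# The norm form of a pair of quadratic integers
-/

open NumberField

namespace Pool.Agent.FCW

namespace NF_

theorem coprime_comb {g : ℕ} {a b c : ℤ} (hg : g = a.gcd ((b.gcd c : ℕ) : ℤ)) :
    ∃ r s t : ℤ, (g : ℤ) = r * a + s * b + t * c := by
  refine ⟨a.gcdA ((b.gcd c : ℕ) : ℤ), a.gcdB ((b.gcd c : ℕ) : ℤ) * b.gcdA c,
    a.gcdB ((b.gcd c : ℕ) : ℤ) * b.gcdB c, ?_⟩
  rw [hg, Int.gcd_eq_gcd_ab a ((b.gcd c : ℕ) : ℤ)]
  have h := Int.gcd_eq_gcd_ab b c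
  linear_combination (a.gcdB ((b.gcd c : ℕ) : ℤ)) * h

/-- if `w + w' = g T` and `w w' = g² m` then `g` divides `w` -/
theorem dvd_of_quad {K : Type} [Field K] [NumberField K] (w w' : 𝓞 K) (g T m : ℤ) (hg : g ≠ 0)
    (h1 : w + w' = (g : 𝓞 K) * (T : 𝓞 K)) (h2 : w * w' = (g : 𝓞 K) ^ 2 * (m : 𝓞 K)) :
    (g : 𝓞 K) ∣ w := by
  have hgK : (g : K) ≠ 0 := by exact_mod_cast hg
  have h1' : (w : K) + (w' : K) = (g : K) * (T : K) := by
    have := congrArg (algebraMap (𝓞 K) K) h1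
    simpa using this
  have h2' : (w : K) * (w' : K) = (g : K) ^ 2 * (m : K) := by
    have := congrArg (algebraMap (𝓞 K) K) h2
    simpa using this
  have hint : IsIntegral ℤ ((w : K) / (g : K)) := by
    refine ⟨Polynomial.X ^ 2 - Polynomial.C T * Polynomial.X + Polynomial.C m, ?_, ?_⟩
    · monicity!
    · rw [Polynomial.eval₂_add, Polynomial.eval₂_sub, Polynomial.eval₂_mul, Polynomial.eval₂_pow,
        Polynomial.eval₂_X, Polynomial.eval₂_C, Polynomial.eval₂_C]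
      simp only [eq_intCast]
      field_simp
      linear_combination (w : K) * h1' - h2'
  obtain ⟨u, hu⟩ := (IsIntegralClosure.isIntegral_iff (A := 𝓞 K)).mp hint
  refine ⟨u, ?_⟩
  apply RingOfIntegers.coe_injective
  rw [map_mul, map_intCast, hu]
  field_simp

theorem fixed_int {K : Type} [Field K] [NumberField K] {τ : 𝓞 K ≃+* 𝓞 K} (hτ : IsConj K τ)
    {w : 𝓞 K} (h : τ w = w) : ∃ n : ℤ, w = n := hτ.fix w h

end NF_

open NF_ in
theorem p_NF : T_NF := by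
  intro K _ _ τ hτ x y hx
  obtain ⟨n1, h1⟩ := hτ.fix (x * τ x) (by rw [map_mul, hτ.invol, mul_comm])
  obtain ⟨n2, h2⟩ := hτ.fix (x * τ y + y * τ x) (by
    rw [map_add, map_mul, map_mul, hτ.invol, hτ.invol]; ring)
  obtain ⟨n3, h3⟩ := hτ.fix (y * τ y) (by rw [map_mul, hτ.invol, mul_comm])
  have hτx : τ x ≠ 0 := by
    intro h
    exact hx (by rw [← hτ.invol x, h, map_zero])
  have hn1 : n1 ≠ 0 := by
    rintro rfl
    rw [Int.cast_zero] at h1
    rcases mul_eq_zero.mp h1 with h | h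
    · exact hx h
    · exact hτx h
  set g : ℕ := n1.gcd ((n2.gcd n3 : ℕ) : ℤ) with hg
  have hg1 : (g : ℤ) ∣ n1 := Int.gcd_dvd_left _ _
  have hg23 : (g : ℤ) ∣ ((n2.gcd n3 : ℕ) : ℤ) := Int.gcd_dvd_right _ _
  have hg2 : (g : ℤ) ∣ n2 := hg23.trans (Int.gcd_dvd_left _ _)
  have hg3 : (g : ℤ) ∣ n3 := hg23.trans (Int.gcd_dvd_right _ _)
  have hgpos : 0 < (g : ℤ) := by
    rcases Nat.eq_zero_or_pos g with h0 | h0
    · exfalso
      rw [h0, Nat.cast_zero, zero_dvd_iff] at hg1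
      exact hn1 hg1
    · exact_mod_cast h0
  obtain ⟨r, s, t, hrst⟩ := coprime_comb hg
  obtain ⟨A, hA⟩ := hg1
  obtain ⟨T, hT⟩ := hg2
  obtain ⟨B, hB⟩ := hg3
  have hg0 : (g : ℤ) ≠ 0 := hgpos.ne'
  have hone : r * A + s * T + t * B = 1 := by
    have : (g : ℤ) * (r * A + s * T + t * B) = (g : ℤ) * 1 := by
      rw [mul_one]
      conv_rhs => rw [hrst, hA, hT, hB]
      ring
    exact mul_left_cancel₀ hg0 this
  have eA : x * τ x = ((g : ℤ) : 𝓞 K) * (A : 𝓞 K) := by rw [h1, hA, Int.cast_mul]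
  have eT : x * τ y + y * τ x = ((g : ℤ) : 𝓞 K) * (T : 𝓞 K) := by rw [h2, hT, Int.cast_mul]
  have eB : y * τ y = ((g : ℤ) : 𝓞 K) * (B : 𝓞 K) := by rw [h3, hB, Int.cast_mul]
  refine ⟨(g : ℤ), A, T, B, hgpos, eA, eT, eB, ?_, ?_⟩
  · intro q hq hqA hqT hqB
    have : (q : ℤ) ∣ 1 := by
      rw [← hone]
      exact dvd_add (dvd_add (hqA.mul_left _) (hqT.mul_left _)) (hqB.mul_left _)
    have h := Int.natCast_dvd_natCast.mp (by simpa using this : (q : ℤ) ∣ ((1 : ℕ) : ℤ))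
    exact hq.one_lt.ne' (Nat.dvd_one.mp h)
  · have dxy : ((g : ℤ) : 𝓞 K) ∣ x * τ y :=
      dvd_of_quad (x * τ y) (y * τ x) (g : ℤ) T (A * B) hg0 eT (by
        rw [Int.cast_mul]
        linear_combination (y * τ y) * eA + ((g : ℤ) : 𝓞 K) * (A : 𝓞 K) * eB)
    have dyx : ((g : ℤ) : 𝓞 K) ∣ y * τ x :=
      dvd_of_quad (y * τ x) (x * τ y) (g : ℤ) T (A * B) hg0 (by rw [add_comm]; exact eT) (by
        rw [Int.cast_mul]
        linear_combination (y * τ y) * eA + ((g : ℤ) : 𝓞 K) * (A : 𝓞 K) * eB)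
    rw [Ideal.map_span]
    have himg : ((τ : 𝓞 K →+* 𝓞 K) : 𝓞 K → 𝓞 K) '' {x, y} = {τ x, τ y} := by
      rw [Set.image_pair]; rfl
    rw [himg, Ideal.span_pair_mul_span_pair]
    apply le_antisymm
    · rw [Ideal.span_le]
      intro w hw
      simp only [Set.mem_insert_iff, Set.mem_singleton_iff] at hw
      rw [SetLike.mem_coe, Ideal.mem_span_singleton]
      rcases hw with rfl | rfl | rfl | rfl
      · exact ⟨_, eA⟩
      · exact dxy
      · exact dyx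
      · exact ⟨_, eB⟩
    · rw [Ideal.span_singleton_le_iff_mem]
      have e : ((g : ℤ) : 𝓞 K) = (r : 𝓞 K) * (x * τ x) + (s : 𝓞 K) * (x * τ y + y * τ x) +
          (t : 𝓞 K) * (y * τ y) := by
        rw [eA, eT, eB]
        have h := congrArg (fun z : ℤ => (z : 𝓞 K)) hone
        push_cast at h ⊢
        linear_combination (-(g : 𝓞 K)) * h
      rw [e]
      refine Ideal.add_mem _ (Ideal.add_mem _ (Ideal.mul_mem_left _ _ (Ideal.subset_span ?_))
        (Ideal.mul_mem_left _ _ (Ideal.add_mem _ (Ideal.subset_span ?_) (Ideal.subset_span ?_))))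
        (Ideal.mul_mem_left _ _ (Ideal.subset_span ?_)) <;> simp

end Pool.Agent.FCW
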