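import Pool.Agent.FCW.Targets2
import Pool.Agent.FCW.NF

/-!
# The ideal identity of a norm form
-/

open NumberField

namespace Pool.Agent.FCW

open NF_ in
theorem p_NFI : T_NFI := by
  intro K _ _ τ hτ x y g A T B hg0 eA eT eB hP
  have hg1 : A.gcd ((T.gcd B : ℕ) : ℤ) = 1 := by
    by_contra hne
    obtain ⟨q, hq, hqd⟩ := Nat.exists_prime_and_dvd hne
    have hqd' : (q : ℤ) ∣ ((A.gcd ((T.gcd B : ℕ) : ℤ) : ℕ) : ℤ) := Int.natCast_dvd_natCast.2 hqd
    have h1 : (q : ℤ) ∣ A := hqd'.trans (Int.gcd_dvd_left _ _)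
    have h23 : (q : ℤ) ∣ ((T.gcd B : ℕ) : ℤ) := hqd'.trans (Int.gcd_dvd_right _ _)
    exact hP q hq h1 (h23.trans (Int.gcd_dvd_left _ _)) (h23.trans (Int.gcd_dvd_right _ _))
  obtain ⟨r, s, t, hrst⟩ := coprime_comb (g := 1) hg1.symm
  have hone : r * A + s * T + t * B = 1 := by
    rw [← hrst]
    rfl
  refine ⟨eA, eT, eB, hP, ?_⟩
  have dxy : (g : 𝓞 K) ∣ x * τ y :=
    dvd_of_quad (x * τ y) (y * τ x) g T (A * B) hg0 eT (by
      rw [Int.cast_mul]
      linear_combination (y * τ y) * eA + (g : 𝓞 K) * (A : 𝓞 K) * eB)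
  have dyx : (g : 𝓞 K) ∣ y * τ x :=
    dvd_of_quad (y * τ x) (x * τ y) g T (A * B) hg0 (by rw [add_comm]; exact eT) (by
      rw [Int.cast_mul]
      linear_combination (y * τ y) * eA + (g : 𝓞 K) * (A : 𝓞 K) * eB)
  rw [Ideal.map_span]
  have himg : ((τ : 𝓞 K →+* 𝓞 K) : 𝓞 K → 𝓞 K) '' {x, y} = {τ x, τ y} := by
    rw [Set.image_pair]; rfl
  rw [himg, Ideal.span_pair_mul_span_pair]
  apply le_antisymm
  · rw [Ideal.span_le]
    intro w hw
    simp only [Set.mem_insert_iff, Set.mem_singleton_iff] at hw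
    rw [SetLike.mem_coe, Ideal.mem_span_singleton]
    rcases hw with rfl | rfl | rfl | rfl
    · exact ⟨_, eA⟩
    · exact dxy
    · exact dyx
    · exact ⟨_, eB⟩
  · rw [Ideal.span_singleton_le_iff_mem]
    have e : (g : 𝓞 K) = (r : 𝓞 K) * (x * τ x) + (s : 𝓞 K) * (x * τ y + y * τ x) +
        (t : 𝓞 K) * (y * τ y) := by
      rw [eA, eT, eB]
      have h := congrArg (fun z : ℤ => (z : 𝓞 K)) hone
      push_cast at h ⊢
      linear_combination (-(g : 𝓞 K)) * h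
    rw [e]
    refine Ideal.add_mem _ (Ideal.add_mem _ (Ideal.mul_mem_left _ _ (Ideal.subset_span ?_))
      (Ideal.mul_mem_left _ _ (Ideal.add_mem _ (Ideal.subset_span ?_) (Ideal.subset_span ?_))))
      (Ideal.mul_mem_left _ _ (Ideal.subset_span ?_)) <;> simp

end Pool.Agent.FCW
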