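import Pool.Agent.FCW.Targets

/-!
# Comparison of the key equation modulo `(ζ - 1)²` (job FCW-PAD)
-/

open NumberField

namespace Pool.Agent.FCW

namespace PAD_

variable (p : ℕ) [Fact p.Prime]

/-- the prime element `ζ - 1` -/
noncomputable def pr : Oc p := zt p - 1

/-- the ring `ℤ[ζ] / (ζ - 1)²` -/
abbrev Q : Type := Oc p ⧸ Ideal.span {pr p ^ 2}

/-- the projection -/
noncomputable def mk : Oc p →+* Q p := Ideal.Quotient.mk _

/-- the image of `ζ - 1` -/
noncomputable def t : Q p := mk p (pr p)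

theorem mk_eq_zero (x : Oc p) : mk p x = 0 ↔ pr p ^ 2 ∣ x := by
  unfold mk
  rw [Ideal.Quotient.eq_zero_iff_mem, Ideal.mem_span_singleton]

theorem tt : t p * t p = 0 := by
  unfold t
  rw [← map_mul, mk_eq_zero, sq]

theorem pr_dvd_iff (n : ℤ) : pr p ∣ (n : Oc p) ↔ (p : ℤ) ∣ n :=
  IsCyclotomicExtension.Rat.zeta_sub_one_dvd_intCast_iff' p
    (IsCyclotomicExtension.zeta_spec p ℚ (Cy p))

theorem pr_ne_zero : pr p ≠ 0 :=
  (IsCyclotomicExtension.zeta_spec p ℚ (Cy p)).zeta_sub_one_prime'.ne_zero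

theorem p_zero (hp : 3 ≤ p) : ((p : ℕ) : Q p) = 0 := by
  have h : Associated (pr p ^ (p - 1)) (p : Oc p) :=
    IsCyclotomicExtension.Rat.associated_zeta_sub_one_pow_prime p
      (IsCyclotomicExtension.zeta_spec p ℚ (Cy p))
  have h1 : mk p ((p : ℕ) : Oc p) = 0 :=
    (mk_eq_zero p _).2 ((pow_dvd_pow _ (by omega)).trans h.dvd)
  rwa [map_natCast] at h1

/-- the ring homomorphism from `ZMod p` -/
theorem exists_c (hp : 3 ≤ p) : ∃ c : ZMod p →+* Q p, ∀ n : ℤ, c (n : ZMod p) = (n : Q p) := by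
  have h : (Int.castAddHom (Q p)) (p : ℤ) = 0 := by
    have := p_zero p hp
    simpa using this
  obtain ⟨f, hf⟩ : ∃ f : ZMod p →+ Q p, ∀ n : ℤ, f (n : ZMod p) = (n : Q p) := by
    refine ⟨ZMod.lift p ⟨Int.castAddHom (Q p), h⟩, fun n => ?_⟩
    rw [ZMod.lift_coe]
    simp
  refine ⟨{ toFun := f, map_zero' := map_zero f, map_add' := map_add f, map_one' := ?_,
            map_mul' := ?_ }, fun n => hf n⟩
  · have := hf 1
    rwa [Int.cast_one, Int.cast_one] at this
  · intro x y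
    obtain ⟨a, rfl⟩ := ZMod.intCast_surjective x
    obtain ⟨b, rfl⟩ := ZMod.intCast_surjective y
    rw [← Int.cast_mul, hf, hf, hf, Int.cast_mul]

variable {p}

/-- `a + b t` with `a, b` integers modulo `p` vanishes only if `a = b = 0`. -/
theorem inj {c : ZMod p →+* Q p} (hc : ∀ n : ℤ, c (n : ZMod p) = (n : Q p)) {a b : ZMod p}
    (h : c a + c b * t p = 0) : a = 0 ∧ b = 0 := by
  obtain ⟨m, rfl⟩ := ZMod.intCast_surjective a
  obtain ⟨n, rfl⟩ := ZMod.intCast_surjective b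
  rw [hc, hc] at h
  have h1 : mk p ((m : Oc p) + (n : Oc p) * pr p) = 0 := by
    rw [map_add, map_mul, map_intCast, map_intCast]
    exact h
  rw [mk_eq_zero] at h1
  have h2 : pr p ∣ (m : Oc p) := by
    have h3 : pr p ∣ (m : Oc p) + (n : Oc p) * pr p := (dvd_pow_self _ two_ne_zero).trans h1
    exact (dvd_add_left (dvd_mul_left _ _)).1 h3
  have h4 : ((m : ℤ) : ZMod p) = 0 := (ZMod.intCast_zmod_eq_zero_iff_dvd m p).2 ((pr_dvd_iff p m).1 h2)
  have h5 : (m : Q p) = 0 := by rw [← hc, h4, map_zero]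
  rw [h5, zero_add] at h
  have h6 : mk p ((n : Oc p) * pr p) = 0 := by
    rw [map_mul, map_intCast]
    exact h
  rw [mk_eq_zero, sq] at h6
  have h7 : pr p ∣ (n : Oc p) := (mul_dvd_mul_iff_right (pr_ne_zero p)).1 h6
  exact ⟨h4, (ZMod.intCast_zmod_eq_zero_iff_dvd n p).2 ((pr_dvd_iff p n).1 h7)⟩

theorem mk_zt_pow (n : ℕ) : mk p (zt p ^ n) = 1 + (n : Q p) * t p := by
  have h0 : mk p (zt p) = 1 + t p := by
    have : zt p = 1 + pr p := by unfold pr; ring
    conv_lhs => rw [this]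
    rw [map_add, map_one]
    rfl
  rw [map_pow, h0]
  induction n with
  | zero => simp
  | succ n ih =>
    rw [pow_succ, ih]
    push_cast
    linear_combination ((n : Q p)) * tt p

theorem mk_zv {c : ZMod p →+* Q p} (a : ZMod p) :
    mk p (zv p a) = 1 + c a * t p := by
  unfold zv
  rw [mk_zt_pow]
  congr 2
  conv_rhs => rw [← ZMod.natCast_zmod_val a, map_natCast]

/-- An element and its complex conjugate modulo `(ζ - 1)²`. -/
theorem repr (c : ZMod p →+* Q p) (hc : ∀ n : ℤ, c (n : ZMod p) = (n : Q p)) (x : Oc p) :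
    ∃ a b : ZMod p, mk p x = c a + c b * t p ∧ mk p (cc p x) = c a - c b * t p := by
  obtain ⟨P, rfl⟩ := exists_poly p x
  induction P using Polynomial.induction_on' with
  | add f g hf hg =>
    obtain ⟨a, b, h1, h2⟩ := hf
    obtain ⟨a', b', h3, h4⟩ := hg
    refine ⟨a + a', b + b', ?_, ?_⟩
    · rw [map_add, map_add, h1, h3, map_add, map_add]; ring
    · rw [map_add, map_add, map_add, h2, h4, map_add, map_add]; ring
  | monomial n a =>
    refine ⟨(a : ZMod p), (a : ZMod p) * (n : ZMod p), ?_, ?_⟩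
    · rw [Polynomial.aeval_monomial, map_mul, mk_zt_pow, map_mul, map_natCast, hc]
      have : mk p (algebraMap ℤ (Oc p) a) = (a : Q p) := by simp
      rw [this]; ring
    · rw [Polynomial.aeval_monomial, map_mul, map_mul, ← zv_natCast, cc_zv, mk_zv (c := c), map_neg,
        map_natCast, map_mul, map_natCast, hc]
      have : mk p (cc p (algebraMap ℤ (Oc p) a)) = (a : Q p) := by simp
      rw [this]; ring

theorem pow_t (x y : Q p) (n : ℕ) : (x + y * t p) ^ (n + 1) =
    x ^ (n + 1) + ((n : Q p) + 1) * x ^ n * y * t p := by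
  induction n with
  | zero => simp
  | succ n ih =>
    rw [pow_succ, ih]
    push_cast
    linear_combination ((n : Q p) + 1) * x ^ n * y ^ 2 * tt p

theorem pow_p (hp : 3 ≤ p) (c : ZMod p →+* Q p) (a : ZMod p) (y : Q p) :
    (c a + y * t p) ^ p = c a := by
  have h := pow_t (c a) y (p - 1)
  have h1 : p - 1 + 1 = p := by omega
  rw [h1] at h
  have h2 : ((p - 1 : ℕ) : Q p) + 1 = 0 := by
    have := p_zero p hp
    rw [← Nat.cast_one (R := Q p), ← Nat.cast_add, h1]
    exact this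
  rw [h, h2, ← map_pow, ZMod.pow_card]
  ring

/-- The Stickelberger products modulo `(ζ - 1)²`. -/
theorem prod_t (c : ZMod p →+* Q p) (N C : ZMod p) (hN : N ≠ 0) (s : Finset (ZMod p)ˣ) :
    ∏ u ∈ s, (c N + c (C * ((u⁻¹ : (ZMod p)ˣ) : ZMod p)) * t p) =
      c (N ^ s.card) * (1 + c (C * N⁻¹ * ∑ u ∈ s, ((u⁻¹ : (ZMod p)ˣ) : ZMod p)) * t p) := by
  classical
  induction s using Finset.induction_on with
  | empty => rw [Finset.prod_empty, Finset.sum_empty, Finset.card_empty, pow_zero, mul_zero,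
      map_one, map_zero, zero_mul, add_zero, one_mul]
  | insert u s hu ih =>
    rw [Finset.prod_insert hu, ih, Finset.sum_insert hu, Finset.card_insert_of_notMem hu]
    have h1 : c N * c N⁻¹ = 1 := by rw [← map_mul, mul_inv_cancel₀ hN, map_one]
    simp only [map_mul, map_add, map_pow]
    set S := c (∑ u ∈ s, ((u⁻¹ : (ZMod p)ˣ) : ZMod p))
    set U := c ((u⁻¹ : (ZMod p)ˣ) : ZMod p)
    linear_combination (-(c C) * U * t p * c N ^ s.card) * h1 +
      (c C * U * c N ^ s.card * c C * c N⁻¹ * S) * tt p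

theorem mk_Fz (c : ZMod p →+* Q p) (hc : ∀ n : ℤ, c (n : ZMod p) = (n : Q p)) (A T B : ℤ)
    (a : ZMod p) :
    (A : Q p) + (T : Q p) * mk p (zv p a) + (B : Q p) * mk p (zv p (a * 2)) =
      c ((A + T + B : ℤ) : ZMod p) + c (((T + 2 * B : ℤ) : ZMod p) * a) * t p := by
  rw [mk_zv (c := c), mk_zv (c := c), map_mul, map_mul, hc, hc]
  have h2 : c 2 = 2 := map_ofNat c 2
  rw [h2]
  push_cast
  ring

theorem sg_Fz (A T B : ℤ) (u : (ZMod p)ˣ) :
    sg p u (Fz p A T B) = (A : Oc p) + (T : Oc p) * zv p (u : ZMod p) +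
      (B : Oc p) * zv p ((u : ZMod p) * 2) := by
  unfold Fz
  rw [map_add, map_add, map_mul, map_mul, map_pow, sg_zt, sg_int, sg_int, sg_int, zv_pow]
  congr 3
  push_cast
  ring

theorem mk_st (c : ZMod p →+* Q p) (hc : ∀ n : ℤ, c (n : ZMod p) = (n : Q p)) (A T B : ℤ)
    (hN : ((A + T + B : ℤ) : ZMod p) ≠ 0) :
    mk p (st p (Fz p A T B)) = c (((A + T + B : ℤ) : ZMod p) ^ (half p).card) *
      (1 + c (((T + 2 * B : ℤ) : ZMod p) * ((A + T + B : ℤ) : ZMod p)⁻¹ * Hs p) * t p) ∧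
    mk p (cc p (st p (Fz p A T B))) = c (((A + T + B : ℤ) : ZMod p) ^ (half p).card) *
      (1 + c (-((T + 2 * B : ℤ) : ZMod p) * ((A + T + B : ℤ) : ZMod p)⁻¹ * Hs p) * t p) := by
  constructor
  · unfold st Hs
    rw [← prod_t c _ _ hN, map_prod]
    refine Finset.prod_congr rfl fun u _ => ?_
    rw [sg_Fz, map_add, map_add, map_mul, map_mul, map_intCast, map_intCast, map_intCast,
      mk_Fz c hc]
  · unfold st Hs
    rw [← prod_t c _ _ hN, map_prod, map_prod]
    refine Finset.prod_congr rfl fun u _ => ?_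
    have h1 : cc p (sg p u⁻¹ (Fz p A T B)) = (A : Oc p) +
        (T : Oc p) * zv p (-((u⁻¹ : (ZMod p)ˣ) : ZMod p)) +
        (B : Oc p) * zv p (-((u⁻¹ : (ZMod p)ˣ) : ZMod p) * 2) := by
      rw [sg_Fz, map_add, map_add, map_mul, map_mul, map_intCast, map_intCast, map_intCast,
        cc_zv, cc_zv, neg_mul]
    rw [h1, map_add, map_add, map_mul, map_mul, map_intCast, map_intCast, map_intCast,
      mk_Fz c hc]
    congr 3
    ring

end PAD_

open PAD_ in
theorem p_PAD : T_PAD := by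
  intro p _ hp A T B hN γ n i e ⟨hn, hγ, he, hkey⟩
  have hp3 : 3 ≤ p := by omega
  obtain ⟨c, hc⟩ := exists_c p hp3
  have hN' : ((A + T + B : ℤ) : ZMod p) ≠ 0 := fun h =>
    hN ((ZMod.intCast_zmod_eq_zero_iff_dvd _ p).1 h)
  obtain ⟨h1, h2⟩ := mk_st c hc A T B hN'
  obtain ⟨a, b, h3, h4⟩ := repr c hc γ
  have h5 : mk p (γ ^ p) = c a := by
    rw [map_pow, h3, pow_p hp3]
  have h6 : mk p (cc p γ ^ p) = c a := by
    rw [map_pow, h4, sub_eq_add_neg, ← neg_mul, pow_p hp3]
  have ha : a ≠ 0 := by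
    intro h0
    have h7 := congrArg (mk p) hγ
    rw [map_mul, h3, h4, map_natCast, h0, map_zero] at h7
    have h8 : c ((n : ℤ) : ZMod p) + c 0 * t p = 0 := by
      rw [hc, map_zero, zero_mul, add_zero, Int.cast_natCast, ← h7]
      linear_combination (-(c b) * c b) * tt p
    have h9 := (inj hc h8).1
    rw [Int.cast_natCast, ZMod.natCast_eq_zero_iff] at h9
    have h10 : p ∣ 1 := by
      have h11 : Nat.Coprime p n := (Nat.Coprime.coprime_mul_left_right hn).symm
      have := Nat.dvd_gcd (dvd_refl p) h9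
      rwa [h11] at this
    exact (Fact.out : p.Prime).one_lt.ne' (Nat.dvd_one.1 h10)
  set N := ((A + T + B : ℤ) : ZMod p) with hNdef
  set C := ((T + 2 * B : ℤ) : ZMod p) with hCdef
  set k := (half p).card
  have hkey2 := congrArg (mk p) hkey
  rw [map_mul, map_mul, map_mul, map_mul, h1, h2, h5, h6, mk_zt_pow, map_intCast] at hkey2
  have u1 : c (N ^ k) * c (N ^ k)⁻¹ = 1 := by
    rw [← map_mul, mul_inv_cancel₀ (pow_ne_zero _ hN'), map_one]
  have u2 : c a * c a⁻¹ = 1 := by rw [← map_mul, mul_inv_cancel₀ ha, map_one]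
  set S := C * N⁻¹ * Hs p with hS
  have hS' : -C * N⁻¹ * Hs p = -S := by rw [hS]; ring
  rw [hS', map_neg] at hkey2
  have h7 : 1 + c S * t p = (e : Q p) * (1 + (i : Q p) * t p) * (1 - c S * t p) := by
    have h8 : (c (N ^ k) * c (N ^ k)⁻¹) * (c a * c a⁻¹) * (1 + c S * t p) =
        (c (N ^ k) * c (N ^ k)⁻¹) * (c a * c a⁻¹) *
          ((e : Q p) * (1 + (i : Q p) * t p) * (1 - c S * t p)) := by
      linear_combination (c (N ^ k)⁻¹ * c a⁻¹) * hkey2
    rwa [u1, u2, one_mul, one_mul, one_mul] at h8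
  have hi : c ((i : ℕ) : ZMod p) = (i : Q p) := map_natCast c i
  have c2 : c 2 = 2 := map_ofNat c 2
  rcases he with he | he
  · rw [he, Int.cast_one, one_mul] at h7
    have h8 : c 0 + c (2 * S - (i : ZMod p)) * t p = 0 := by
      rw [map_zero, map_sub, map_mul, hi, c2]
      linear_combination h7 - (i : Q p) * c S * tt p
    have h9 := (inj hc h8).2
    have h10 : (i : ZMod p) = 2 * S := (sub_eq_zero.1 h9).symm
    rw [h10, hS]
    field_simp
  · exfalso
    rw [he, Int.cast_neg, Int.cast_one] at h7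
    have h8 : c 2 + c (i : ZMod p) * t p = 0 := by
      rw [hi, c2]
      linear_combination h7 + (i : Q p) * c S * tt p
    have h9 := (inj hc h8).1
    have h10 : ((2 : ℕ) : ZMod p) = 0 := by exact_mod_cast h9
    rw [ZMod.natCast_eq_zero_iff] at h10
    have := Nat.le_of_dvd (by norm_num) h10
    omega

end Pool.Agent.FCW
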