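import Pool.Agent.FCW.Targets

set_option autoImplicit false

open NumberField

namespace Pool.Agent.FCW

namespace PAR_

/-- the Lucas sequence -/
def V (T q : ℤ) : ℕ → ℤ
  | 0 => 2
  | 1 => T
  | (n + 2) => T * V T q (n + 1) - q * V T q n

lemma V_eq {R : Type*} [CommRing R] (u v : R) (T q : ℤ) (h1 : u + v = T) (h2 : u * v = q) (n : ℕ) :
    u ^ n + v ^ n = (V T q n : R) ∧ u ^ (n + 1) + v ^ (n + 1) = (V T q (n + 1) : R) := by
  induction n with
  | zero => exact ⟨by simp [V]; norm_num, by simp [V, h1]⟩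
  | succ n ih =>
    refine ⟨ih.2, ?_⟩
    have h3 : V T q (n + 1 + 1) = T * V T q (n + 1) - q * V T q n := rfl
    rw [h3]
    push_cast
    rw [← ih.1, ← ih.2, ← h1, ← h2]
    ring

lemma V_step (T q : ℤ) (n : ℕ) : ((V T q (n + 2) : ℤ) : ZMod 2) =
    (T : ZMod 2) * (V T q (n + 1) : ℤ) - (q : ZMod 2) * (V T q n : ℤ) := by
  have h3 : V T q (n + 2) = T * V T q (n + 1) - q * V T q n := rfl
  rw [h3]
  push_cast
  ring

lemma V_mod (T q : ℤ) (k : ℕ) : ((V T q (6 * k + 1) : ℤ) : ZMod 2) = T ∧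
    ((V T q (6 * k + 2) : ℤ) : ZMod 2) = T ∧ ((V T q (6 * k + 5) : ℤ) : ZMod 2) = T := by
  have h5 : ∀ k : ℕ, ((V T q (6 * k + 1) : ℤ) : ZMod 2) = T → ((V T q (6 * k + 2) : ℤ) : ZMod 2) = T →
      ((V T q (6 * k + 5) : ℤ) : ZMod 2) = T ∧ ((V T q (6 * (k + 1) + 1) : ℤ) : ZMod 2) = T ∧
      ((V T q (6 * (k + 1) + 2) : ℤ) : ZMod 2) = T := by
    intro k h1 h2
    have e3 := V_step T q (6 * k + 1)
    have e4 := V_step T q (6 * k + 2)
    have e5 := V_step T q (6 * k + 3)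
    have e6 := V_step T q (6 * k + 4)
    have e7 := V_step T q (6 * k + 5)
    have e8 := V_step T q (6 * k + 6)
    simp only [add_assoc, Nat.reduceAdd] at e3 e4 e5 e6 e7 e8
    have r1 : 6 * (k + 1) + 1 = 6 * k + 7 := by ring
    have r2 : 6 * (k + 1) + 2 = 6 * k + 8 := by ring
    rw [r1, r2]
    generalize ((V T q (6 * k + 1) : ℤ) : ZMod 2) = v1 at *
    generalize ((V T q (6 * k + 2) : ℤ) : ZMod 2) = v2 at *
    generalize ((V T q (6 * k + 3) : ℤ) : ZMod 2) = v3 at *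
    generalize ((V T q (6 * k + 4) : ℤ) : ZMod 2) = v4 at *
    generalize ((V T q (6 * k + 5) : ℤ) : ZMod 2) = v5 at *
    generalize ((V T q (6 * k + 6) : ℤ) : ZMod 2) = v6 at *
    generalize ((V T q (6 * k + 7) : ℤ) : ZMod 2) = v7 at *
    generalize ((V T q (6 * k + 8) : ℤ) : ZMod 2) = v8 at *
    generalize (T : ZMod 2) = t at *
    generalize (q : ZMod 2) = r at *
    subst e8 e7 e6 e5 e4 e3
    revert h2 h1 r t v2 v1
    decide
  induction k with
  | zero =>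
    have a1 : ((V T q (6 * 0 + 1) : ℤ) : ZMod 2) = T := rfl
    have a2 : ((V T q (6 * 0 + 2) : ℤ) : ZMod 2) = T := by
      have h3 : V T q (6 * 0 + 2) = T * T - q * 2 := rfl
      rw [h3]
      push_cast
      have h4 : (2 : ZMod 2) = 0 := rfl
      rw [h4]
      generalize (T : ZMod 2) = t
      generalize (q : ZMod 2) = r
      revert t r
      decide
    exact ⟨a1, a2, (h5 0 a1 a2).1⟩
  | succ k ih =>
    obtain ⟨i1, i2, i3⟩ := ih
    obtain ⟨j1, j2, j3⟩ := h5 k i1 i2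
    exact ⟨j2, j3, (h5 (k + 1) j2 j3).1⟩

lemma V_odd (T q : ℤ) (p : ℕ) (hp : p.Prime) (h5 : 5 ≤ p) : ((V T q p : ℤ) : ZMod 2) = T := by
  have h2 : ¬ 2 ∣ p := fun h => by
    have := (Nat.prime_dvd_prime_iff_eq Nat.prime_two hp).1 h
    omega
  have h3 : ¬ 3 ∣ p := fun h => by
    have := (Nat.prime_dvd_prime_iff_eq Nat.prime_three hp).1 h
    omega
  have h6 : p = 6 * (p / 6) + 1 ∨ p = 6 * (p / 6) + 5 := by omega
  rcases h6 with h | h
  · rw [h]
    exact (V_mod T q _).1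
  · rw [h]
    exact (V_mod T q _).2.2

lemma pow_self : ∀ (x : ZMod 2) (n : ℕ), 1 ≤ n → x ^ n = x := by
  intro x n hn
  fin_cases x
  · exact zero_pow (by omega)
  · exact one_pow n

end PAR_

open PAR_ in
/-- PAR parity -/
theorem p_PAR : T_PAR := by
  intro K _ _ τ hτ p hp h5 x y z hxyz g a b c T hg hNF hz
  have hg0 : (g : 𝓞 K) ≠ 0 := by exact_mod_cast hg
  obtain ⟨u, hu⟩ : ∃ u : 𝓞 K, x * τ y = g * u := by
    have h1 : x * τ y ∈ Ideal.span {(g : 𝓞 K)} := by
      rw [← hNF.ideal]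
      refine Ideal.mul_mem_mul (Ideal.subset_span (by simp)) ?_
      exact Ideal.mem_map_of_mem (τ : 𝓞 K →+* 𝓞 K) (Ideal.subset_span (by simp))
    rw [Ideal.mem_span_singleton] at h1
    exact h1
  have hu' : y * τ x = g * τ u := by
    have := congrArg τ hu
    rw [map_mul, map_mul, hτ.invol, map_intCast] at this
    rw [mul_comm, this]
  have hsum : u + τ u = (T : 𝓞 K) := by
    apply mul_left_cancel₀ hg0
    rw [mul_add, ← hu, ← hu', hNF.hT]
  have hprod : u * τ u = ((a * b : ℤ) : 𝓞 K) := by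
    apply mul_left_cancel₀ (mul_ne_zero hg0 hg0)
    calc (g : 𝓞 K) * g * (u * τ u) = (g * u) * (g * τ u) := by ring
      _ = (x * τ x) * (y * τ y) := by rw [← hu, ← hu']; ring
      _ = _ := by rw [hNF.hA, hNF.hB]; push_cast; ring
  have hodd : Odd p := hp.odd_of_ne_two (by omega)
  have h1 : z ^ p = -(x ^ p + y ^ p) := by linear_combination hxyz
  have h2 : (τ z) ^ p = -((τ x) ^ p + (τ y) ^ p) := by
    rw [← map_pow, h1, map_neg, map_add, map_pow, map_pow]
  have h3 : (z * τ z) ^ p = (x * τ x) ^ p + (y * τ y) ^ p + (x * τ y) ^ p + (y * τ x) ^ p := by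
    rw [mul_pow, h1, h2]
    simp only [mul_pow]
    ring
  rw [hz, hNF.hA, hNF.hB, hu, hu'] at h3
  have h4 : (c : 𝓞 K) ^ p = (a : 𝓞 K) ^ p + (b : 𝓞 K) ^ p + (V T (a * b) p : ℤ) := by
    rw [← (V_eq u (τ u) T (a * b) hsum hprod p).1]
    apply mul_left_cancel₀ (pow_ne_zero p hg0)
    simp only [mul_pow] at h3
    linear_combination h3
  have h6 : c ^ p = a ^ p + b ^ p + V T (a * b) p := by exact_mod_cast h4
  have h7 := congrArg (Int.cast : ℤ → ZMod 2) h6
  push_cast at h7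
  rw [pow_self _ p (by omega), pow_self _ p (by omega), pow_self _ p (by omega),
    V_odd T (a * b) p hp h5] at h7
  have h8 : ((a + b + c + T : ℤ) : ZMod 2) = 0 := by
    push_cast
    rw [h7]
    generalize (a : ZMod 2) = a'
    generalize (b : ZMod 2) = b'
    generalize (T : ZMod 2) = t'
    revert a' b' t'
    decide
  exact_mod_cast (ZMod.intCast_zmod_eq_zero_iff_dvd _ 2).1 h8

end Pool.Agent.FCW
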