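import Pool.Agent.FCW.Targets

/-!
# `A + T ζ + B ζ²` generates the `p`-th power of an ideal
-/

open NumberField Polynomial

namespace Pool.Agent.FCW

namespace POW_

section Dedekind

variable {R : Type*} [CommRing R] [IsDedekindDomain R]

theorem mem_of_root {p : ℕ} (hp : p.Prime) (P : Ideal R) {η η' : R} (hη : η ^ p = 1)
    (hη' : η' ^ p = 1) (hne : η ≠ η') (h : η - η' ∈ P) : (p : R) ∈ P := by
  obtain ⟨m, hm⟩ : ∃ m, p = m + 1 := ⟨p - 1, by have := hp.pos; omega⟩
  set ω : R := η * η' ^ m with hω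
  have h1 : η' * η' ^ m = 1 := by rw [← pow_succ', ← hm, hη']
  have h2 : ω - 1 = (η - η') * η' ^ m := by rw [sub_mul, h1]
  have h3 : ω - 1 ∈ P := by rw [h2]; exact P.mul_mem_right _ h
  have h4 : ω ^ p = 1 := by
    rw [hω, mul_pow, hη, one_mul, ← pow_mul, mul_comm, pow_mul, hη', one_pow]
  have h5 : ω - 1 ≠ 0 := by
    rw [h2]
    intro h0
    rcases mul_eq_zero.1 h0 with h0 | h0
    · exact hne (sub_eq_zero.1 h0)
    · rw [h0, mul_zero] at h1
      exact zero_ne_one h1
  have h6 : ∑ i ∈ Finset.range p, ω ^ i = 0 := by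
    have h7 := geom_sum_mul ω p
    rw [h4, sub_self] at h7
    exact (mul_eq_zero.1 h7).resolve_right h5
  have h8 : (p : R) = ∑ i ∈ Finset.range p, (1 - ω ^ i) := by
    rw [Finset.sum_sub_distrib, h6, sub_zero, Finset.sum_const, Finset.card_range, nsmul_eq_mul,
      mul_one]
  rw [h8]
  refine P.sum_mem fun i _ => ?_
  have h9 : ω - 1 ∣ 1 - ω ^ i := by
    have := sub_dvd_pow_sub_pow ω 1 i
    rw [one_pow] at this
    rw [← neg_sub (ω ^ i)]
    exact (dvd_neg).2 this
  exact P.mem_of_dvd h9 h3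

theorem cyc_ideal {p : ℕ} (hp : p.Prime) (hodd : Odd p) {ζ : R} (hζ : IsPrimitiveRoot ζ p)
    (x y z : R) (hI : Ideal.span {x, y} ≠ ⊥) (h : x ^ p + y ^ p + z ^ p = 0)
    (hz : IsCoprime z (p : R)) :
    ∃ a : Ideal R, Ideal.span {x + ζ * y} = Ideal.span {x, y} * a ^ p := by
  classical
  set I : Ideal R := Ideal.span {x, y} with hIdef
  have hx : x ∈ I := Ideal.subset_span (by simp)
  have hy : y ∈ I := Ideal.subset_span (by simp)
  have hI0 : I ≠ 0 := hI
  have hdvd : ∀ η : R, ∃ J : Ideal R, Ideal.span {x + η * y} = I * J := fun η =>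
    Ideal.dvd_span_singleton.mpr (I.add_mem hx (I.mul_mem_left _ hy))
  choose J hJ using hdvd
  have hprod := hζ.pow_add_pow_eq_prod_add_mul (x := x) (y := y) hodd
  have hzp : Ideal.span {z} ^ p = I ^ p * ∏ η ∈ nthRootsFinset p (1 : R), J η := by
    have h1 : z ^ p = -∏ η ∈ nthRootsFinset p (1 : R), (x + η * y) := by
      rw [← hprod]
      linear_combination h
    rw [Ideal.span_singleton_pow, h1, Ideal.span_singleton_neg, ← Ideal.prod_span_singleton,
      Finset.prod_congr rfl (fun η _ => hJ η), Finset.prod_mul_distrib, Finset.prod_const,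
      hζ.card_nthRootsFinset]
  obtain ⟨Z, hZ⟩ : I ∣ Ideal.span {z} :=
    (UniqueFactorizationMonoid.pow_dvd_pow_iff_dvd hp.ne_zero).1 ⟨_, hzp⟩
  have hJZ : ∏ η ∈ nthRootsFinset p (1 : R), J η = Z ^ p := by
    rw [hZ, mul_pow] at hzp
    exact (mul_left_cancel₀ (pow_ne_zero p hI0) hzp).symm
  have hcop : ∀ η ∈ nthRootsFinset p (1 : R), ∀ η' ∈ nthRootsFinset p (1 : R), η ≠ η' →
      IsCoprime (J η) (J η') := by
    intro η hη η' hη' hne
    rw [Polynomial.mem_nthRootsFinset hp.pos] at hη hη'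
    rw [Ideal.isCoprime_iff_sup_eq]
    by_contra hcon
    obtain ⟨P, hPmax, hP⟩ := Ideal.exists_le_maximal _ hcon
    have hP1 : J η ≤ P := le_sup_left.trans hP
    have hP2 : J η' ≤ P := le_sup_right.trans hP
    have h1 : x + η * y ∈ P * I := by
      have h2 : Ideal.span {x + η * y} ≤ P * I := by
        rw [hJ η, mul_comm]
        exact Ideal.mul_mono_left hP1
      exact h2 (Ideal.mem_span_singleton_self _)
    have h1' : x + η' * y ∈ P * I := by
      have h2 : Ideal.span {x + η' * y} ≤ P * I := by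
        rw [hJ η', mul_comm]
        exact Ideal.mul_mono_left hP2
      exact h2 (Ideal.mem_span_singleton_self _)
    have h3 : Ideal.span {η - η'} * I ≤ P * I := by
      rw [Ideal.span_singleton_mul_le_iff]
      intro w hw
      obtain ⟨a, b, rfl⟩ := Ideal.mem_span_pair.1 hw
      have h4 : (η - η') * (a * x + b * y) =
          (b - a * η') * (x + η * y) + (a * η - b) * (x + η' * y) := by ring
      rw [h4]
      exact (P * I).add_mem ((P * I).mul_mem_left _ h1) ((P * I).mul_mem_left _ h1')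
    have h5 : P ∣ Ideal.span {η - η'} := by
      rw [← Ideal.dvd_iff_le] at h3
      exact (mul_dvd_mul_iff_right hI0).1 h3
    have h6 : η - η' ∈ P := Ideal.dvd_span_singleton.1 h5
    have h7 : (p : R) ∈ P := mem_of_root hp P hη hη' hne h6
    have h8 : Z ≤ P := by
      have h9 : Z ^ p ≤ P := by
        rw [← hJZ]
        refine le_trans ?_ hP1
        rw [← Ideal.dvd_iff_le]
        exact Finset.dvd_prod_of_mem _ ((Polynomial.mem_nthRootsFinset hp.pos _).2 hη)
      exact hPmax.isPrime.le_of_pow_le h9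
    have h10 : z ∈ P := by
      have h11 : Ideal.span {z} ≤ P := by
        rw [hZ]
        exact le_trans Ideal.mul_le_right h8
      exact h11 (Ideal.mem_span_singleton_self _)
    obtain ⟨a, b, hab⟩ := hz
    apply hPmax.ne_top
    rw [Ideal.eq_top_iff_one, ← hab]
    exact P.add_mem (P.mul_mem_left _ h10) (P.mul_mem_left _ h7)
  obtain ⟨a, ha⟩ := Finset.exists_eq_pow_of_mul_eq_pow_of_coprime hcop hJZ ζ
    (hζ.mem_nthRootsFinset hp.pos)
  exact ⟨a, by rw [hJ ζ, ha]⟩

theorem root_two {p : ℕ} (hodd : Odd p) (X d : Ideal R) (h : X ^ 2 = d ^ p) :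
    ∃ b : Ideal R, X = b ^ p := by
  obtain ⟨m, hm⟩ := hodd
  by_cases hX : X = 0
  · exact ⟨0, by rw [hX, zero_pow (by omega)]⟩
  · have hd : d ≠ 0 := by
      rintro rfl
      rw [zero_pow (by omega)] at h
      exact hX (pow_eq_zero_iff (by norm_num) |>.1 h)
    have h1 : (d ^ m) ^ p ∣ X ^ p := by
      refine ⟨X, ?_⟩
      rw [← pow_mul, mul_comm m p, pow_mul, ← h, ← pow_mul, ← pow_succ, hm]
    obtain ⟨b, hb⟩ := (UniqueFactorizationMonoid.pow_dvd_pow_iff_dvd (by omega : p ≠ 0)).1 h1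
    refine ⟨b, ?_⟩
    have h2 : (d ^ m) ^ p * b ^ p = (d ^ m) ^ p * X := by
      rw [← mul_pow, ← hb, ← pow_mul, mul_comm m p, pow_mul, ← h, ← pow_mul, ← pow_succ, hm]
    exact (mul_left_cancel₀ (pow_ne_zero _ (pow_ne_zero _ hd)) h2).symm

end Dedekind

section Main

variable (p : ℕ) [Fact p.Prime]

theorem exists_hom (K : Type) [Field K] [NumberField K] :
    Nonempty (Cy p →+* CyclotomicField p K) := by
  have hsp : ((cyclotomic p ℚ).map (algebraMap ℚ (CyclotomicField p K))).Splits := by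
    have h1 := IsCyclotomicExtension.splits_cyclotomic K (CyclotomicField p K)
      (Set.mem_singleton p)
    rw [map_cyclotomic] at h1 ⊢
    exact h1
  exact ⟨(SplittingField.lift (cyclotomic p ℚ) hsp).toRingHom⟩

theorem finrank_le (K : Type) [Field K] [NumberField K] :
    Module.finrank K (CyclotomicField p K) ≤ p - 1 := by
  have hζ := IsCyclotomicExtension.zeta_spec p K (CyclotomicField p K)
  have : IsGalois K (CyclotomicField p K) := IsCyclotomicExtension.isGalois {p} K _
  rw [← IsGalois.card_aut_eq_finrank]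
  have h2 := Nat.card_le_card_of_injective _ (IsPrimitiveRoot.autToPow_injective K hζ)
  refine h2.trans (le_of_eq ?_)
  rw [Nat.card_eq_fintype_card, ZMod.card_units_eq_totient, Nat.totient_prime Fact.out]

theorem finrank_le_two (K : Type) [Field K] [NumberField K] (hK : Module.finrank ℚ K = 2)
    [Algebra (Cy p) (CyclotomicField p K)] :
    Module.finrank (Oc p) (𝓞 (CyclotomicField p K)) = 1 ∨
      Module.finrank (Oc p) (𝓞 (CyclotomicField p K)) = 2 := by
  have h1 := Module.finrank_mul_finrank ℚ K (CyclotomicField p K)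
  have h2 := Module.finrank_mul_finrank ℚ (Cy p) (CyclotomicField p K)
  have h3 : Module.finrank ℚ (Cy p) = p - 1 := by
    rw [IsCyclotomicExtension.finrank (Cy p)
      (cyclotomic.irreducible_rat (Fact.out : p.Prime).pos), Nat.totient_prime Fact.out]
  have h4 := finrank_le p K
  have h5 : Module.finrank (Oc p) (𝓞 (CyclotomicField p K)) =
      Module.finrank (Cy p) (CyclotomicField p K) :=
    (IsFractionRing.finrank_eq (Oc p) (Cy p) (𝓞 (CyclotomicField p K))
      (CyclotomicField p K)).symm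
  have hp := (Fact.out : p.Prime).two_le
  rw [h5]
  have h6 : 0 < Module.finrank K (CyclotomicField p K) := Module.finrank_pos
  rw [hK] at h1
  rw [h3] at h2
  have h7 : (p - 1) * Module.finrank (Cy p) (CyclotomicField p K) ≤ (p - 1) * 2 := by
    rw [h2, ← h1]
    omega
  have h8 := Nat.le_of_mul_le_mul_left h7 (by omega)
  have h9 : Module.finrank (Cy p) (CyclotomicField p K) ≠ 0 := by
    intro h0
    rw [h0, mul_zero, ← h1] at h2
    omega
  omega

end Main

end POW_

open POW_ in
theorem p_POW : T_POW := by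
  intro K _ _ hK τ hτ p _ hp5 x y z hx hy h hz g A T B hg hNF
  have hp : p.Prime := Fact.out
  have hodd : Odd p := hp.odd_of_ne_two (by omega)
  obtain ⟨f⟩ := exists_hom p K
  let M := CyclotomicField p K
  letI : Algebra (Cy p) M := f.toAlgebra
  let φ : 𝓞 K →+* 𝓞 M := algebraMap (𝓞 K) (𝓞 M)
  let ψ : Oc p →+* 𝓞 M := algebraMap (Oc p) (𝓞 M)
  have hφ : Function.Injective φ := FaithfulSMul.algebraMap_injective (𝓞 K) (𝓞 M)
  have hψ : Function.Injective ψ := FaithfulSMul.algebraMap_injective (Oc p) (𝓞 M)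
  have hζ : IsPrimitiveRoot (ψ (zt p)) p := (zt_prim p).map_of_injective hψ
  have key : ∀ x y z : 𝓞 K, x ≠ 0 → x ^ p + y ^ p + z ^ p = 0 → IsCoprime z (p : 𝓞 K) →
      ∃ a : Ideal (𝓞 M), Ideal.span {φ x + ψ (zt p) * φ y} =
        (Ideal.span {x, y}).map φ * a ^ p := by
    intro x y z hx h hz
    have h1 : (Ideal.span {x, y}).map φ = Ideal.span {φ x, φ y} := by
      rw [Ideal.map_span, Set.image_pair]
    rw [h1]
    refine cyc_ideal hp hodd hζ (φ x) (φ y) (φ z) ?_ ?_ ?_
    · intro h0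
      have h2 : φ x ∈ Ideal.span {φ x, φ y} := Ideal.subset_span (by simp)
      rw [h0, Ideal.mem_bot] at h2
      exact hx ((map_eq_zero_iff φ hφ).1 h2)
    · rw [← map_pow, ← map_pow, ← map_pow, ← map_add, ← map_add, h, map_zero]
    · have := hz.map φ
      rwa [map_natCast] at this
  obtain ⟨a, ha⟩ := key x y z hx h hz
  obtain ⟨a', ha'⟩ := key (τ x) (τ y) (τ z) ((map_ne_zero_iff τ τ.injective).2 hx)
    (by rw [← map_pow, ← map_pow, ← map_pow, ← map_add, ← map_add, h, map_zero])
    (by have := hz.map (τ : 𝓞 K →+* 𝓞 K); rwa [map_natCast] at this)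
  have h1 : Ideal.span {(g : 𝓞 M)} * Ideal.span {ψ (Fz p A T B)} =
      Ideal.span {(g : 𝓞 M)} * (a * a') ^ p := by
    have h2 : (φ x + ψ (zt p) * φ y) * (φ (τ x) + ψ (zt p) * φ (τ y)) =
        (g : 𝓞 M) * ψ (Fz p A T B) := by
      have e1 := congrArg φ hNF.hA
      have e2 := congrArg φ hNF.hT
      have e3 := congrArg φ hNF.hB
      simp only [map_mul, map_add, map_intCast] at e1 e2 e3
      unfold Fz
      simp only [map_mul, map_add, map_intCast, map_pow]
      linear_combination e1 + ψ (zt p) * e2 + ψ (zt p) ^ 2 * e3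
    have h3 : (Ideal.span {x, y}).map φ * (Ideal.span {τ x, τ y}).map φ =
        Ideal.span {(g : 𝓞 M)} := by
      have h4 : (Ideal.span {x, y}).map (τ : 𝓞 K →+* 𝓞 K) = Ideal.span {τ x, τ y} := by
        rw [Ideal.map_span, Set.image_pair]
        rfl
      rw [← h4, ← Ideal.map_mul, hNF.ideal, Ideal.map_span, Set.image_singleton, map_intCast]
    rw [Ideal.span_singleton_mul_span_singleton, ← h2,
      ← Ideal.span_singleton_mul_span_singleton, ha, ha', ← h3]
    ring
  have hg' : Ideal.span {(g : 𝓞 M)} ≠ 0 := by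
    rw [Ne, Ideal.zero_eq_bot, Ideal.span_singleton_eq_bot]
    exact_mod_cast hg
  have h2 := mul_left_cancel₀ hg' h1
  have h3 : (Ideal.span {Fz p A T B}).map (algebraMap (Oc p) (𝓞 M)) = (a * a') ^ p := by
    rw [← h2, Ideal.map_span, Set.image_singleton]
  have h4 := Ideal.relNorm_algebraMap (𝓞 M) (Ideal.span {Fz p A T B})
  rw [h3, map_pow] at h4
  rcases finrank_le_two p K hK with h5 | h5
  · exact ⟨_, by rw [h4, h5, pow_one]⟩
  · rw [h5] at h4
    exact root_two hodd _ _ h4.symm

end Pool.Agent.FCW
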