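import Pool.Agent.FCW.Targets2
import Pool.Agent.FCW.POW

/-!
# Even exponents: `z + ζ x` gives the `p`-th power of an ideal
-/

open NumberField Polynomial

namespace Pool.Agent.FCW

namespace POWB_

section Dedekind

variable {R : Type*} [CommRing R] [IsDedekindDomain R]

theorem cyc_ideal2 {p : ℕ} (hp : p.Prime) (hodd : Odd p) {ζ : R} (hζ : IsPrimitiveRoot ζ p)
    (z x y : R) (hI : Ideal.span {z, x} ≠ ⊥) (h : x ^ (2 * p) + y ^ (2 * p) = z ^ (2 * p))
    (hy : IsCoprime y (p : R))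
    (h2 : ∀ P : Ideal R, P.IsMaximal → z + ζ * x ∈ P * Ideal.span {z, x} → (2 : R) ∉ P) :
    ∃ a : Ideal R, Ideal.span {z + ζ * x} = Ideal.span {z, x} * a ^ p := by
  classical
  set I : Ideal R := Ideal.span {z, x} with hIdef
  have hz : z ∈ I := Ideal.subset_span (by simp)
  have hx : x ∈ I := Ideal.subset_span (by simp)
  have hI0 : I ≠ 0 := hI
  have hdvd : ∀ η : R, ∃ J : Ideal R, Ideal.span {z + η * x} = I * J := fun η =>
    Ideal.dvd_span_singleton.mpr (I.add_mem hz (I.mul_mem_left _ hx))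
  choose J hJ using hdvd
  have hprod1 := hζ.pow_add_pow_eq_prod_add_mul (x := z) (y := x) hodd
  have hprod2 := hζ.pow_sub_pow_eq_prod_sub_mul (x := z) (y := x) hp.pos
  set S := nthRootsFinset p (1 : R) with hS
  have hyp : Ideal.span {y} ^ (2 * p) =
      I ^ (2 * p) * ((∏ η ∈ S, J η) * ∏ η ∈ S, J (-η)) := by
    have h1 : y ^ (2 * p) = (∏ η ∈ S, (z + η * x)) * ∏ η ∈ S, (z + (-η) * x) := by
      have h3 : ∏ η ∈ S, (z + (-η) * x) = z ^ p - x ^ p := by
        rw [hprod2]
        exact Finset.prod_congr rfl fun η _ => by ring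
      rw [← hprod1, h3]
      have h4 : y ^ (2 * p) = z ^ (2 * p) - x ^ (2 * p) := by rw [← h]; ring
      rw [h4, mul_comm 2 p, pow_mul, pow_mul]
      ring
    rw [Ideal.span_singleton_pow, h1, ← Ideal.span_singleton_mul_span_singleton,
      ← Ideal.prod_span_singleton, ← Ideal.prod_span_singleton,
      Finset.prod_congr rfl (fun η _ => hJ η), Finset.prod_congr rfl (fun η _ => hJ (-η)),
      Finset.prod_mul_distrib, Finset.prod_mul_distrib, Finset.prod_const,
      hζ.card_nthRootsFinset]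
    ring
  obtain ⟨Y, hY⟩ : I ∣ Ideal.span {y} :=
    (UniqueFactorizationMonoid.pow_dvd_pow_iff_dvd
      (Nat.mul_ne_zero two_ne_zero hp.ne_zero)).1 ⟨_, hyp⟩
  have hJY : (∏ η ∈ S, J η) * ∏ η ∈ S, J (-η) = (Y ^ 2) ^ p := by
    rw [hY, mul_pow] at hyp
    rw [← pow_mul]
    exact (mul_left_cancel₀ (pow_ne_zero _ hI0) hyp).symm
  have hζS : ζ ∈ S := hζ.mem_nthRootsFinset hp.pos
  -- the coprimality
  have key : ∀ η : R, η ≠ ζ → (η ^ p = 1 ∨ η ^ p = -1) →
      (J η ∣ (Y ^ 2) ^ p) → IsCoprime (J ζ) (J η) := by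
    intro η hne hη hdv
    rw [Ideal.isCoprime_iff_sup_eq]
    by_contra hcon
    obtain ⟨P, hPmax, hP⟩ := Ideal.exists_le_maximal _ hcon
    have hP1 : J ζ ≤ P := le_sup_left.trans hP
    have hP2 : J η ≤ P := le_sup_right.trans hP
    have h1 : z + ζ * x ∈ P * I := by
      have h2 : Ideal.span {z + ζ * x} ≤ P * I := by
        rw [hJ ζ, mul_comm]
        exact Ideal.mul_mono_left hP1
      exact h2 (Ideal.mem_span_singleton_self _)
    have h1' : z + η * x ∈ P * I := by
      have h2 : Ideal.span {z + η * x} ≤ P * I := by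
        rw [hJ η, mul_comm]
        exact Ideal.mul_mono_left hP2
      exact h2 (Ideal.mem_span_singleton_self _)
    have h3 : Ideal.span {ζ - η} * I ≤ P * I := by
      rw [Ideal.span_singleton_mul_le_iff]
      intro w hw
      obtain ⟨a, b, rfl⟩ := Ideal.mem_span_pair.1 hw
      have h4 : (ζ - η) * (a * z + b * x) =
          (b - a * η) * (z + ζ * x) + (a * ζ - b) * (z + η * x) := by ring
      rw [h4]
      exact (P * I).add_mem ((P * I).mul_mem_left _ h1) ((P * I).mul_mem_left _ h1')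
    have h5 : P ∣ Ideal.span {ζ - η} := by
      rw [← Ideal.dvd_iff_le] at h3
      exact (mul_dvd_mul_iff_right hI0).1 h3
    have h6 : ζ - η ∈ P := Ideal.dvd_span_singleton.1 h5
    have hn2 : (2 : R) ∉ P := h2 P hPmax h1
    rcases hη with hη | hη
    · have h7 : (p : R) ∈ P := POW_.mem_of_root hp P hζ.pow_eq_one hη (Ne.symm hne) h6
      have h8 : Y ≤ P := by
        have h9 : (Y ^ 2) ^ p ≤ P := by
          refine le_trans ?_ hP2
          rw [← Ideal.dvd_iff_le]
          exact hdv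
        exact hPmax.isPrime.le_of_pow_le (hPmax.isPrime.le_of_pow_le h9)
      have h10 : y ∈ P := by
        have h11 : Ideal.span {y} ≤ P := by
          rw [hY]
          exact le_trans Ideal.mul_le_right h8
        exact h11 (Ideal.mem_span_singleton_self _)
      obtain ⟨a, b, hab⟩ := hy
      apply hPmax.ne_top
      rw [Ideal.eq_top_iff_one, ← hab]
      exact P.add_mem (P.mul_mem_left _ h10) (P.mul_mem_left _ h7)
    · apply hn2
      have h7 : ζ ^ p - η ^ p ∈ P := P.mem_of_dvd (sub_dvd_pow_sub_pow ζ η p) h6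
      rw [hζ.pow_eq_one, hη] at h7
      have h8 : (2 : R) = 1 - -1 := by ring
      rw [h8]
      exact h7
  have hroot : ∀ η ∈ S, η ^ p = 1 := fun η hη => (Polynomial.mem_nthRootsFinset hp.pos _).1 hη
  have hneg : ∀ η ∈ S, (-η) ^ p = -1 := fun η hη => by rw [hodd.neg_pow, hroot η hη]
  have hne1 : ∀ η ∈ S, -η ≠ ζ ∨ (2 : R) = 0 := by
    intro η hη
    by_cases h0 : -η = ζ
    · right
      have h3 := hneg η hη
      rw [h0, hζ.pow_eq_one] at h3
      linear_combination h3
    · exact Or.inl h0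
  have hrest : (J ζ) * ((∏ η ∈ S.erase ζ, J η) * ∏ η ∈ S, J (-η)) = (Y ^ 2) ^ p := by
    rw [← mul_assoc, Finset.mul_prod_erase S J hζS]
    exact hJY
  by_cases htwo : (2 : R) = 0
  · -- then `J ζ` is the unit ideal
    have h3 : J ζ = ⊤ := by
      by_contra hcon
      obtain ⟨P, hPmax, hP⟩ := Ideal.exists_le_maximal _ hcon
      have h1 : z + ζ * x ∈ P * I := by
        have h2 : Ideal.span {z + ζ * x} ≤ P * I := by
          rw [hJ ζ, mul_comm]
          exact Ideal.mul_mono_left hP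
        exact h2 (Ideal.mem_span_singleton_self _)
      exact h2 P hPmax h1 (by rw [htwo]; exact P.zero_mem)
    refine ⟨⊤, ?_⟩
    rw [hJ ζ, h3, ← Ideal.one_eq_top, one_pow]
  · have hcop : IsCoprime (J ζ) ((∏ η ∈ S.erase ζ, J η) * ∏ η ∈ S, J (-η)) := by
      refine IsCoprime.mul_right (IsCoprime.prod_right fun η hη => ?_)
        (IsCoprime.prod_right fun η hη => ?_)
      · refine key η (Finset.ne_of_mem_erase hη) (Or.inl (hroot η (Finset.mem_of_mem_erase hη))) ?_
        rw [← hJY]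
        exact Dvd.dvd.mul_right (Finset.dvd_prod_of_mem _ (Finset.mem_of_mem_erase hη)) _
      · refine key (-η) ((hne1 η hη).resolve_right htwo) (Or.inr (hneg η hη)) ?_
        rw [← hJY]
        exact Dvd.dvd.mul_left (Finset.dvd_prod_of_mem (fun η => J (-η)) hη) _
    obtain ⟨a, ha⟩ := exists_eq_pow_of_mul_eq_pow_of_coprime hcop hrest
    exact ⟨a, by rw [hJ ζ, ha]⟩

end Dedekind

end POWB_

open POW_ POWB_ in
theorem p_POWB (hPRM : T_PRM) : T_POWB := by
  intro K _ _ hK τ hτ p _ hp5 x y z hx hz h hy g A T B hg hNF hpA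
  have hp : p.Prime := Fact.out
  have hodd : Odd p := hp.odd_of_ne_two (by omega)
  obtain ⟨f⟩ := exists_hom p K
  let M := CyclotomicField p K
  letI : Algebra (Cy p) M := f.toAlgebra
  let φ : 𝓞 K →+* 𝓞 M := algebraMap (𝓞 K) (𝓞 M)
  let ψ : Oc p →+* 𝓞 M := algebraMap (Oc p) (𝓞 M)
  have hφ : Function.Injective φ := FaithfulSMul.algebraMap_injective (𝓞 K) (𝓞 M)
  have hψ : Function.Injective ψ := FaithfulSMul.algebraMap_injective (Oc p) (𝓞 M)
  have hζ : IsPrimitiveRoot (ψ (zt p)) p := (zt_prim p).map_of_injective hψ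
  have hprodid : (φ z + ψ (zt p) * φ x) * (φ (τ z) + ψ (zt p) * φ (τ x)) =
      (g : 𝓞 M) * ψ (Fz p A T B) := by
    have e1 := congrArg φ hNF.hA
    have e2 := congrArg φ hNF.hT
    have e3 := congrArg φ hNF.hB
    simp only [map_mul, map_add, map_intCast] at e1 e2 e3
    unfold Fz
    simp only [map_mul, map_add, map_intCast, map_pow]
    linear_combination e1 + ψ (zt p) * e2 + ψ (zt p) ^ 2 * e3
  have hm1 : ∀ u v : 𝓞 K, (Ideal.span {u, v}).map φ = Ideal.span {φ u, φ v} := fun u v => by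
    rw [Ideal.map_span, Set.image_pair]
  have hideal : (Ideal.span {z, x}).map φ * (Ideal.span {τ z, τ x}).map φ =
      Ideal.span {(g : 𝓞 M)} := by
    have h4 : (Ideal.span {z, x}).map (τ : 𝓞 K →+* 𝓞 K) = Ideal.span {τ z, τ x} := by
      rw [Ideal.map_span, Set.image_pair]
      rfl
    rw [← h4, ← Ideal.map_mul, hNF.ideal, Ideal.map_span, Set.image_singleton, map_intCast]
  have hg' : Ideal.span {(g : 𝓞 M)} ≠ 0 := by
    rw [Ne, Ideal.zero_eq_bot, Ideal.span_singleton_eq_bot]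
    exact_mod_cast hg
  -- primes containing `ψ (Fz)` do not contain `2`
  have hno2 : ∀ P : Ideal (𝓞 M), P.IsMaximal →
      (g : 𝓞 M) * ψ (Fz p A T B) ∈ P * Ideal.span {(g : 𝓞 M)} → (2 : 𝓞 M) ∉ P := by
    intro P hPmax hmem h2P
    have h1 : ψ (Fz p A T B) ∈ P := by
      rw [mul_comm P, Ideal.mem_span_singleton_mul] at hmem
      obtain ⟨w, hw, hw'⟩ := hmem
      have hg0 : (g : 𝓞 M) ≠ 0 := by exact_mod_cast hg
      rwa [← mul_left_cancel₀ hg0 hw']
    have hPprime := hPmax.isPrime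
    have hl : (P.comap ψ).IsPrime := Ideal.comap_isPrime ψ P
    have h3 := hPRM p A T B hNF.prim hpA (P.comap ψ) hl (Ideal.mem_comap.2 h1) 2 Nat.prime_two
      (by
        rw [Ideal.mem_comap, map_natCast]
        exact_mod_cast h2P)
    rcases h3 with h3 | h3
    · have h4 : ((1 : ℕ) : ZMod p) = 0 := by
        have : ((2 : ℕ) : ZMod p) = ((1 : ℕ) : ZMod p) + ((1 : ℕ) : ZMod p) := by norm_num
        rw [this, Nat.cast_one] at h3
        rw [Nat.cast_one]
        linear_combination h3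
      rw [ZMod.natCast_eq_zero_iff] at h4
      have := Nat.le_of_dvd one_pos h4
      omega
    · have h4 : ((3 : ℕ) : ZMod p) = 0 := by
        have : ((3 : ℕ) : ZMod p) = ((2 : ℕ) : ZMod p) + 1 := by norm_num
        rw [this, h3]
        ring
      rw [ZMod.natCast_eq_zero_iff] at h4
      have := Nat.le_of_dvd (by norm_num) h4
      omega
  have h0 : ∀ u v : 𝓞 K, u ≠ 0 → Ideal.span {φ u, φ v} ≠ ⊥ := by
    intro u v hu h0
    have h2 : φ u ∈ Ideal.span {φ u, φ v} := Ideal.subset_span (by simp)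
    rw [h0, Ideal.mem_bot] at h2
    exact hu ((map_eq_zero_iff φ hφ).1 h2)
  have hmemT : φ (τ z) + ψ (zt p) * φ (τ x) ∈ (Ideal.span {τ z, τ x}).map φ := by
    rw [hm1]
    exact Ideal.add_mem _ (Ideal.subset_span (by simp))
      (Ideal.mul_mem_left _ _ (Ideal.subset_span (by simp)))
  have hmemS : φ z + ψ (zt p) * φ x ∈ (Ideal.span {z, x}).map φ := by
    rw [hm1]
    exact Ideal.add_mem _ (Ideal.subset_span (by simp))
      (Ideal.mul_mem_left _ _ (Ideal.subset_span (by simp)))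
  obtain ⟨a, ha⟩ : ∃ a : Ideal (𝓞 M), Ideal.span {φ z + ψ (zt p) * φ x} =
      (Ideal.span {z, x}).map φ * a ^ p := by
    rw [hm1]
    refine cyc_ideal2 hp hodd hζ (φ z) (φ x) (φ y) (h0 z x hz) ?_ ?_ ?_
    · rw [← map_pow, ← map_pow, ← map_pow, ← map_add, h]
    · have := hy.map φ
      rwa [map_natCast] at this
    · intro P hPmax hmem
      refine hno2 P hPmax ?_
      rw [← hprodid, ← hideal, ← mul_assoc, hm1 z x]
      exact Ideal.mul_mem_mul hmem hmemT
  obtain ⟨a', ha'⟩ : ∃ a : Ideal (𝓞 M), Ideal.span {φ (τ z) + ψ (zt p) * φ (τ x)} =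
      (Ideal.span {τ z, τ x}).map φ * a ^ p := by
    rw [hm1]
    refine cyc_ideal2 hp hodd hζ (φ (τ z)) (φ (τ x)) (φ (τ y))
      (h0 _ _ ((map_ne_zero_iff τ τ.injective).2 hz)) ?_ ?_ ?_
    · rw [← map_pow, ← map_pow, ← map_pow, ← map_add, ← map_pow, ← map_pow, ← map_pow,
        ← map_add, h]
    · have := (hy.map (τ : 𝓞 K →+* 𝓞 K)).map φ
      rwa [map_natCast, map_natCast] at this
    · intro P hPmax hmem
      refine hno2 P hPmax ?_
      rw [← hprodid, mul_comm (φ z + _), ← hideal, mul_comm ((Ideal.span {z, x}).map φ),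
        ← mul_assoc, hm1 (τ z) (τ x)]
      exact Ideal.mul_mem_mul hmem hmemS
  have h1 : Ideal.span {(g : 𝓞 M)} * Ideal.span {ψ (Fz p A T B)} =
      Ideal.span {(g : 𝓞 M)} * (a * a') ^ p := by
    rw [Ideal.span_singleton_mul_span_singleton, ← hprodid,
      ← Ideal.span_singleton_mul_span_singleton, ha, ha', ← hideal]
    ring
  have h2 := mul_left_cancel₀ hg' h1
  have h3 : (Ideal.span {Fz p A T B}).map (algebraMap (Oc p) (𝓞 M)) = (a * a') ^ p := by
    rw [← h2, Ideal.map_span, Set.image_singleton]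
  have h4 := Ideal.relNorm_algebraMap (𝓞 M) (Ideal.span {Fz p A T B})
  rw [h3, map_pow] at h4
  rcases finrank_le_two p K hK with h5 | h5
  · exact ⟨_, by rw [h4, h5, pow_one]⟩
  · rw [h5] at h4
    exact root_two hodd _ _ h4.symm

end Pool.Agent.FCW
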