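import Pool.Agent.FCW.Targets

/-!
# The first case of Fermat's equation over quadratic fields: primes dividing `A + T ζ + B ζ²`
-/

open NumberField

namespace Pool.Agent.FCW

namespace PRM_

/-- the quadratic argument in a domain of characteristic `q` -/
theorem frob_fix {R : Type} [CommRing R] [IsDomain R] (q : ℕ) [Fact q.Prime] [CharP R q]
    (A T B : ℤ) (z : R)
    (hprim : (q : ℤ) ∣ A → (q : ℤ) ∣ T → (q : ℤ) ∣ B → False)
    (h : (A : R) + T * z + B * z ^ 2 = 0) : z ^ (q ^ 2) = z := by
  have hfr : ∀ (a b : ℤ) (x : R), (a : R) + b * x = 0 → (a : R) + b * x ^ q = 0 := by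
    intro a b x hx
    have h1 := congrArg (frobenius R q) hx
    rw [map_add, map_mul, map_intCast, map_intCast, map_zero, frobenius_def] at h1
    exact h1
  have hfr2 : (A : R) + T * z ^ q + B * (z ^ q) ^ 2 = 0 := by
    have h1 := congrArg (frobenius R q) h
    rw [map_add, map_add, map_mul, map_mul, map_intCast, map_intCast, map_intCast, map_zero,
      map_pow, frobenius_def] at h1
    exact h1
  have key : z = z ^ q → z ^ (q ^ 2) = z := by
    intro e
    rw [sq, pow_mul, ← e, ← e]
  by_cases hB : (B : R) = 0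
  · have h1 : (A : R) + T * z = 0 := by
      rw [hB, zero_mul, add_zero] at h
      exact h
    have hT : (T : R) ≠ 0 := by
      intro hT
      rw [hT, zero_mul, add_zero] at h1
      exact hprim ((CharP.intCast_eq_zero_iff R q A).mp h1)
        ((CharP.intCast_eq_zero_iff R q T).mp hT) ((CharP.intCast_eq_zero_iff R q B).mp hB)
    have h2 := hfr A T z h1
    have h3 : (T : R) * (z - z ^ q) = 0 := by linear_combination h1 - h2
    rcases mul_eq_zero.mp h3 with h4 | h4
    · exact absurd h4 hT
    · exact key (sub_eq_zero.mp h4)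
  · have h3 : (z - z ^ q) * ((T : R) + B * (z + z ^ q)) = 0 := by
      linear_combination h - hfr2
    rcases mul_eq_zero.mp h3 with h4 | h4
    · exact key (sub_eq_zero.mp h4)
    · have h5 := hfr T B (z + z ^ q) h4
      have h6 : (z + z ^ q) ^ q = z ^ q + (z ^ q) ^ q := add_pow_char (R := R) z (z ^ q) (p := q)
      rw [h6] at h5
      have h7 : (B : R) * (z - (z ^ q) ^ q) = 0 := by linear_combination h4 - h5
      rcases mul_eq_zero.mp h7 with h8 | h8
      · exact absurd h8 hB
      · rw [sq, pow_mul]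
        exact (sub_eq_zero.mp h8).symm

end PRM_

open PRM_ in
theorem p_PRM : T_PRM := by
  intro p hp A T B hprim hN l hl hF q hq hql
  have := hl
  have : Fact q.Prime := ⟨hq⟩
  have hpp : p.Prime := hp.out
  have : IsDomain (Oc p ⧸ l) := Ideal.Quotient.isDomain l
  have hq0 : ((q : ℕ) : Oc p ⧸ l) = 0 := by
    have h1 := Ideal.Quotient.eq_zero_iff_mem.mpr hql
    rw [map_natCast] at h1
    exact h1
  have hch : CharP (Oc p ⧸ l) q :=
    ringChar.of_eq (CharP.ringChar_of_prime_eq_zero hq hq0)
  set z : Oc p ⧸ l := Ideal.Quotient.mk l (zt p) with hz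
  have hzp : z ^ p = 1 := by
    rw [hz, ← map_pow, zt_pow, map_one]
  have hF0 : (A : Oc p ⧸ l) + T * z + B * z ^ 2 = 0 := by
    have h1 := Ideal.Quotient.eq_zero_iff_mem.mpr hF
    unfold Fz at h1
    rw [map_add, map_add, map_mul, map_mul, map_intCast, map_intCast, map_intCast, map_pow] at h1
    exact h1
  -- `z ≠ 1`
  have hz1 : z ≠ 1 := by
    intro hz1
    rcases eq_or_ne q p with rfl | hqp
    · rw [hz1, mul_one, one_pow, mul_one] at hF0
      apply hN
      rw [← CharP.intCast_eq_zero_iff (Oc q ⧸ l) q]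
      push_cast
      exact hF0
    · have h1 := (zt_prim p).geom_sum_eq_zero hpp.one_lt
      have h2 := congrArg (Ideal.Quotient.mk l) h1
      rw [map_sum, map_zero] at h2
      have h3 : ((p : ℕ) : Oc p ⧸ l) = 0 := by
        rw [← h2]
        simp only [map_pow, ← hz, hz1, one_pow, Finset.sum_const, Finset.card_range,
          nsmul_eq_mul, mul_one]
      rw [CharP.cast_eq_zero_iff (Oc p ⧸ l) q] at h3
      exact hqp ((Nat.prime_dvd_prime_iff_eq hq hpp).mp h3)
  have hord : orderOf z = p := orderOf_eq_prime hzp hz1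
  have h2 := frob_fix q A T B z (hprim q hq) hF0
  have hz0 : z ≠ 0 := by
    intro h0
    rw [h0, zero_pow hpp.ne_zero] at hzp
    exact zero_ne_one hzp
  have h3 : z ^ (q ^ 2 - 1) = 1 := by
    have h4 : z ^ (q ^ 2 - 1) * z = 1 * z := by
      rw [← pow_succ, one_mul, Nat.sub_add_cancel (Nat.one_le_pow _ _ hq.pos)]
      exact h2
    exact mul_right_cancel₀ hz0 h4
  have h4 : p ∣ q ^ 2 - 1 := by
    rw [← hord]
    exact orderOf_dvd_of_pow_eq_one h3
  have h5 : ((q : ZMod p) - 1) * ((q : ZMod p) + 1) = 0 := by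
    have h6 : ((q ^ 2 - 1 : ℕ) : ZMod p) = 0 := (ZMod.natCast_eq_zero_iff _ _).mpr h4
    rw [Nat.cast_sub (Nat.one_le_pow _ _ hq.pos)] at h6
    push_cast at h6
    linear_combination h6
  rcases mul_eq_zero.mp h5 with h6 | h6
  · exact Or.inl (sub_eq_zero.mp h6)
  · exact Or.inr (eq_neg_of_add_eq_zero_left h6)

end Pool.Agent.FCW
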