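import Pool.Agent.FCW.Targets

/-!
# The reciprocity law, from its parts
-/

open NumberField

namespace Pool.Agent.FCW

theorem Fz_ne_zero {p : ℕ} [Fact p.Prime] (h3 : 3 ≤ p) {A T B : ℤ} (hN : ¬ (p : ℤ) ∣ A + T + B) :
    Fz p A T B ≠ 0 := by
  intro h
  apply hN
  have hζ := IsCyclotomicExtension.zeta_spec p ℚ (Cy p)
  have h1 : (zt p - 1) ∣ ((A + T + B : ℤ) : Oc p) := by
    have h2 : ((A + T + B : ℤ) : Oc p) = Fz p A T B - (zt p - 1) * (T + B * (zt p + 1)) := by
      unfold Fz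
      push_cast
      ring
    rw [h2, h, zero_sub]
    exact (Dvd.intro _ rfl).neg_right
  exact (IsCyclotomicExtension.Rat.zeta_sub_one_dvd_intCast_iff' p hζ).mp h1

theorem p_REC (hKEY : T_KEY) (hPAD : T_PAD) (hTWO : T_TWO) (hHARM : T_HARM) (hPRM : T_PRM) :
    T_REC := by
  intro p _ h5 hW A T B hprim hN ⟨b, hb⟩ M hM
  have hp : p.Prime := Fact.out
  have hP := hPRM p A T B hprim hN
  have hβ0 : Fz p A T B ≠ 0 := Fz_ne_zero (by omega) hN
  have hPM : PM p b := by
    intro l hl hbl q hq hql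
    refine hP l hl ?_ q hq hql
    have h1 : Fz p A T B ∈ b ^ p := by
      rw [← hb]
      exact Ideal.mem_span_singleton_self _
    exact hbl (Ideal.pow_le_self hp.ne_zero h1)
  have h2 : ∀ l : Ideal (Oc p), l.IsPrime → (2 : Oc p) ∈ l → Fz p A T B ∉ l := by
    intro l hl h2l hβ
    have h3 : ∀ n : ℕ, 0 < n → n < p → ((n : ℕ) : ZMod p) ≠ 0 := by
      intro n h1 h2 h3
      rw [ZMod.natCast_eq_zero_iff] at h3
      have := Nat.le_of_dvd h1 h3
      omega
    rcases hP l hl hβ 2 Nat.prime_two (by exact_mod_cast h2l) with h4 | h4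
    · apply h3 1 (by norm_num) (by omega)
      push_cast at h4 ⊢
      linear_combination h4
    · apply h3 3 (by norm_num) (by omega)
      push_cast at h4 ⊢
      linear_combination h4
  obtain ⟨γ, n, i, e, hk⟩ := hKEY p h5 (Fz p A T B) b hβ0 hb hPM
  have hpad := hPAD p h5 A T B hN γ n i e hk
  rcases hTWO p h5 (Fz p A T B) M hM h2 γ n i e hk with h3 | h3
  · have hH : Hs p ≠ 0 := fun h => hW (hHARM p (by omega) h)
    have h4 : ((M : ZMod p) * ((A + T + B : ℤ) : ZMod p) - 2 * ((T + 2 * B : ℤ) : ZMod p)) = 0 := by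
      apply mul_right_cancel₀ hH
      rw [h3] at hpad
      linear_combination hpad
    rw [← ZMod.intCast_zmod_eq_zero_iff_dvd]
    push_cast at h4 ⊢
    exact h4
  · exact absurd h3 hW

end Pool.Agent.FCW
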