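import Pool.Agent.FCW.Targets

set_option autoImplicit false

/-!
# FCW-SELF: primes over `q ≡ -1 mod p` are invariant under complex conjugation
-/

open NumberField

namespace Pool.Agent.FCW

namespace SELF_

theorem frob (p : ℕ) [Fact p.Prime] (l : Ideal (Oc p)) (q : ℕ) (hq : q.Prime)
    (hl : l.IsPrime) (hql : (q : Oc p) ∈ l) (hm : (q : ZMod p) = -1) (x : Oc p) :
    Ideal.Quotient.mk l (cc p x) = Ideal.Quotient.mk l x ^ q := by
  have : Fact q.Prime := ⟨hq⟩
  have : Nontrivial (Oc p ⧸ l) := Ideal.Quotient.nontrivial_iff.2 hl.ne_top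
  have hc : CharP (Oc p ⧸ l) q := by
    rw [CharP.charP_iff_prime_eq_zero hq]
    have := Ideal.Quotient.eq_zero_iff_mem.2 hql
    rwa [map_natCast] at this
  have h : (Ideal.Quotient.mk l).comp (cc p : Oc p →+* Oc p) =
      (frobenius (Oc p ⧸ l) q).comp (Ideal.Quotient.mk l) := by
    apply hom_ext
    rw [RingHom.comp_apply, RingHom.comp_apply, frobenius_def, ← map_pow, ← zv_natCast, hm]
    have h2 := cc_zv p 1
    rw [zv_one] at h2
    have h3 : (cc p : Oc p →+* Oc p) (zt p) = zv p (-1) := h2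
    rw [h3]
  have h4 := RingHom.congr_fun h x
  rw [RingHom.comp_apply, RingHom.comp_apply, frobenius_def] at h4
  exact h4

theorem mem (p : ℕ) [Fact p.Prime] (l : Ideal (Oc p)) (q : ℕ) (hq : q.Prime)
    (hl : l.IsPrime) (hql : (q : Oc p) ∈ l) (hm : (q : ZMod p) = -1) (x : Oc p) (hx : x ∈ l) :
    cc p x ∈ l := by
  have h := frob p l q hq hl hql hm x
  rw [Ideal.Quotient.eq_zero_iff_mem.2 hx, zero_pow hq.ne_zero] at h
  exact Ideal.Quotient.eq_zero_iff_mem.1 h

end SELF_

/-- SELF: primes over `q ≡ -1 mod p` are invariant under complex conjugation. -/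
theorem p_SELF : T_SELF := by
  intro p _ l q hq hl hql hm
  apply le_antisymm
  · rw [Ideal.map_le_iff_le_comap]
    intro x hx
    exact SELF_.mem p l q hq hl hql hm x hx
  · intro x hx
    have h1 := SELF_.mem p l q hq hl hql hm x hx
    have h2 : (cc p : Oc p →+* Oc p) (cc p x) ∈ l.map (cc p : Oc p →+* Oc p) :=
      Ideal.mem_map_of_mem _ h1
    have h3 : (cc p : Oc p →+* Oc p) (cc p x) = x := cc_cc p x
    rwa [h3] at h2

end Pool.Agent.FCW
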