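import Pool.Agent.FCW.Targets

/-!
# FCW-TWO: comparison modulo a prime over `2`
-/

open NumberField

namespace Pool.Agent.FCW

namespace TWO_

variable (p : ℕ)

theorem two_ne_top : Ideal.span {(2 : Oc p)} ≠ ⊤ := by
  rw [Ne, Ideal.span_singleton_eq_top]
  intro h
  have h1 := h.map (Algebra.norm ℤ)
  have h2 : Algebra.norm ℤ (2 : Oc p) = 2 ^ Module.finrank ℤ (Oc p) := by
    have := Algebra.norm_algebraMap (S := Oc p) (2 : ℤ)
    simpa using this
  rw [h2, isUnit_pow_iff (Module.finrank_pos).ne'] at h1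
  rcases Int.isUnit_iff.1 h1 with h3 | h3 <;> omega

theorem sum_zv [Fact p.Prime] (s : Finset (ZMod p)ˣ) (f : (ZMod p)ˣ → ZMod p) :
    ∏ u ∈ s, zv p (f u) = zv p (∑ u ∈ s, f u) := by
  classical
  induction s using Finset.induction_on with
  | empty => simp [zv_zero]
  | insert a s ha ih => rw [Finset.prod_insert ha, Finset.sum_insert ha, zv_add, ih]

end TWO_

open TWO_ in
theorem p_TWO : T_TWO := by
  classical
  intro p _ hp5 β M hM hβ γ n i e hkey
  have hp : p.Prime := Fact.out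
  obtain ⟨hn, hγ, he, hK⟩ := hkey
  obtain ⟨l, hl, hle⟩ := Ideal.exists_le_maximal _ (two_ne_top p)
  have h2l : (2 : Oc p) ∈ l := hle (Ideal.mem_span_singleton_self 2)
  let _ : Field (Oc p ⧸ l) := Ideal.Quotient.field l
  set φ : Oc p →+* (Oc p ⧸ l) := Ideal.Quotient.mk l with hφ
  have hφ0 : ∀ x, φ x = 0 ↔ x ∈ l := fun x => Ideal.Quotient.eq_zero_iff_mem
  have h20 : ((2 : ℕ) : Oc p ⧸ l) = 0 := by
    have := (hφ0 2).2 h2l
    rwa [map_ofNat] at this
  have hchar : CharP (Oc p ⧸ l) 2 := (CharP.charP_iff_prime_eq_zero Nat.prime_two).2 h20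
  have : Fact (Nat.Prime 2) := ⟨Nat.prime_two⟩
  -- `β` and its conjugates are not in `l`
  have hsg : ∀ v : (ZMod p)ˣ, φ (sg p v β) ≠ 0 := by
    intro v hv
    rw [hφ0] at hv
    have h1 : (l.comap (sg p v : Oc p →+* Oc p)).IsPrime := by
      have := hl.isPrime
      exact Ideal.comap_isPrime _ _
    refine hβ _ h1 ?_ hv
    rw [Ideal.mem_comap]
    have : (sg p v : Oc p →+* Oc p) 2 = 2 := map_ofNat _ 2
    rwa [this]
  -- the congruence modulo 2
  have hcong : ∀ u : (ZMod p)ˣ, φ (sg p u⁻¹ β) =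
      φ (zv p ((M : ZMod p) * ((u⁻¹ : (ZMod p)ˣ) : ZMod p))) * φ (cc p (sg p u⁻¹ β)) := by
    intro u
    obtain ⟨y, hy⟩ := hM
    have h1 := congrArg (sg p u⁻¹) hy
    rw [map_sub, map_mul, map_mul, map_pow, sg_zt, zv_pow, map_ofNat, ← cc_sg] at h1
    have h2 := congrArg φ h1
    rw [map_sub, map_mul, map_mul, map_ofNat] at h2
    have h3 : (2 : Oc p ⧸ l) = 0 := by exact_mod_cast h20
    rw [h3, zero_mul, sub_eq_zero] at h2
    exact h2
  have hst : φ (st p β) = φ (zv p ((M : ZMod p) * Hs p)) * φ (cc p (st p β)) := by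
    unfold st
    rw [map_prod, map_prod, map_prod]
    rw [Finset.prod_congr rfl fun u _ => hcong u, Finset.prod_mul_distrib, ← map_prod, sum_zv]
    congr 3
    unfold Hs
    rw [Finset.mul_sum]
  have hst0 : φ (cc p (st p β)) ≠ 0 := by
    unfold st
    rw [map_prod, map_prod, Finset.prod_ne_zero_iff]
    intro u _
    unfold cc
    rw [← sg_mul]
    exact hsg _
  -- `γ`
  have hγ0 : φ γ * φ (cc p γ) ≠ 0 := by
    rw [← map_mul, hγ, map_natCast]
    intro h0
    have h1 := (CharP.cast_eq_zero_iff (Oc p ⧸ l) 2 n).1 h0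
    have h2 : n.Coprime 2 := Nat.Coprime.coprime_dvd_right (Dvd.intro p rfl) hn
    have h3 := Nat.Coprime.eq_one_of_dvd h2.symm h1
    omega
  have hγ1 : φ γ ≠ 0 := left_ne_zero_of_mul hγ0
  have hγ2 : φ (cc p γ) ≠ 0 := right_ne_zero_of_mul hγ0
  have he1 : φ (e : Oc p) = 1 := by
    have h3 : (-1 : Oc p ⧸ l) = 1 := by
      have : (1 : Oc p ⧸ l) + 1 = 0 := by
        have h4 : (2 : Oc p ⧸ l) = 0 := by exact_mod_cast h20
        rw [← h4]; norm_num
      linear_combination -this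
    rcases he with rfl | rfl
    · simp
    · simpa using h3
  have hK2 := congrArg φ hK
  have hzi : zt p ^ i = zv p (i : ZMod p) := (zv_natCast p i).symm
  rw [hzi, map_mul, map_mul, map_mul, map_mul, he1, hst, one_mul, map_pow, map_pow] at hK2
  have hmain : φ (zv p ((M : ZMod p) * Hs p)) * φ (cc p γ) ^ p =
      φ (zv p (i : ZMod p)) * φ γ ^ p := by
    refine mul_right_cancel₀ hst0 ?_
    linear_combination hK2
  by_cases hi : (i : ZMod p) = (M : ZMod p) * Hs p
  · exact Or.inl hi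
  right
  set a : ZMod p := (M : ZMod p) * Hs p - i with ha
  have ha0 : a ≠ 0 := by
    intro h
    apply hi
    rw [ha, sub_eq_zero] at h
    exact h.symm
  set w : Oc p ⧸ l := φ γ / φ (cc p γ) with hw
  have hw0 : w ≠ 0 := div_ne_zero hγ1 hγ2
  have hwp : w ^ p = φ (zv p a) := by
    have h1 : φ (zv p ((M : ZMod p) * Hs p)) = φ (zv p (i : ZMod p)) * φ (zv p a) := by
      rw [← map_mul, ← zv_add]
      congr 2
      rw [ha]; ring
    have h2 : φ (zv p (i : ZMod p)) ≠ 0 := by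
      intro h
      have h3 : φ (zv p (i : ZMod p)) * φ (zv p (-(i : ZMod p))) = 1 := by
        rw [← map_mul, ← zv_add, add_neg_cancel, zv_zero, map_one]
      rw [h, zero_mul] at h3
      exact zero_ne_one h3
    rw [hw, div_pow, div_eq_iff (pow_ne_zero _ hγ2)]
    refine mul_left_cancel₀ h2 ?_
    rw [← mul_assoc, ← h1]
    exact hmain.symm
  -- the root of unity in the residue field
  have hz1 : φ (zt p) ≠ 1 := by
    intro h
    have h1 : zt p - 1 ∈ l := by
      rw [← hφ0, map_sub, map_one, h, sub_self]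
    have h2 : (p : Oc p) ∈ l := by
      have h3 : zt p - 1 ∣ (p : Oc p) :=
        (IsCyclotomicExtension.zeta_spec p ℚ (Cy p)).toInteger_sub_one_dvd_prime'
      exact l.mem_of_dvd h3 h1
    have h3 : (p : Oc p ⧸ l) = 0 := by
      have := (hφ0 (p : Oc p)).2 h2
      rwa [map_natCast] at this
    have h4 := (CharP.cast_eq_zero_iff (Oc p ⧸ l) 2 p).1 h3
    have h5 := (Nat.prime_dvd_prime_iff_eq Nat.prime_two hp).1 h4
    omega
  have hzp : φ (zt p) ^ p = 1 := by rw [← map_pow, zt_pow, map_one]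
  have hzord : orderOf (φ (zt p)) = p := orderOf_eq_prime hzp hz1
  have hwp1 : w ^ p ≠ 1 := by
    rw [hwp]
    unfold zv
    rw [map_pow]
    intro h
    have h1 := orderOf_dvd_of_pow_eq_one h
    rw [hzord] at h1
    have h2 := Nat.eq_zero_of_dvd_of_lt h1 (ZMod.val_lt a)
    rw [ZMod.val_eq_zero] at h2
    exact ha0 h2
  have hwpp : w ^ p ^ (1 + 1) = 1 := by
    have : p ^ (1 + 1) = p * p := by ring
    rw [this, pow_mul, hwp, ← map_pow, zv_pow]
    simp [zv_zero]
  have hord : orderOf w = p ^ (1 + 1) := orderOf_eq_prime_pow (by rwa [pow_one]) hwpp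
  -- Frobenius
  have hfr : ∀ y : Oc p ⧸ l, y ^ 2 ^ (p - 1) = y := by
    have h1 : (iterateFrobenius (Oc p ⧸ l) 2 (p - 1)).comp φ = φ := by
      apply hom_ext
      rw [RingHom.comp_apply, iterateFrobenius_def]
      have hcop : Nat.Coprime 2 p := by
        rw [Nat.coprime_primes Nat.prime_two hp]
        omega
      have h2 : 2 ^ (p - 1) ≡ 1 [MOD p] := by
        have h3 := Nat.ModEq.pow_totient hcop
        rwa [Nat.totient_prime hp] at h3
      obtain ⟨c, hc⟩ := (Nat.modEq_iff_dvd' Nat.one_le_two_pow).1 h2.symm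
      have h4 : 2 ^ (p - 1) = p * c + 1 := by
        have : 1 ≤ 2 ^ (p - 1) := Nat.one_le_two_pow
        omega
      rw [h4, pow_succ, pow_mul, hzp, one_pow, one_mul]
    intro y
    obtain ⟨x, rfl⟩ := Ideal.Quotient.mk_surjective y
    have := RingHom.congr_fun h1 x
    rwa [RingHom.comp_apply, iterateFrobenius_def] at this
  have hw1 : w ^ (2 ^ (p - 1) - 1) = 1 := by
    have h1 : 1 ≤ 2 ^ (p - 1) := Nat.one_le_two_pow
    refine mul_right_cancel₀ hw0 ?_
    rw [← pow_succ, Nat.sub_add_cancel h1, hfr, one_mul]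
  have := orderOf_dvd_of_pow_eq_one hw1
  rwa [hord] at this

end Pool.Agent.FCW
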