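import Pool.Agent.FCW.CHAR
import Pool.Agent.FCW.DIST
import Pool.Agent.FCW.JAC
import Pool.Agent.FCW.SELF
import Pool.Agent.FCW.ANN
import Pool.Agent.FCW.KEY
import Pool.Agent.FCW.PAD
import Pool.Agent.FCW.TWO
import Pool.Agent.FCW.HARM
import Pool.Agent.FCW.PRM
import Pool.Agent.FCW.CONJ
import Pool.Agent.FCW.NF
import Pool.Agent.FCW.DATA
import Pool.Agent.FCW.PAR
import Pool.Agent.FCW.MODP
import Pool.Agent.FCW.DISC
import Pool.Agent.FCW.POW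
import Pool.Agent.FCW.EIA
import Pool.Agent.FCW.EIB
import Pool.Agent.FCW.Rec
import Pool.Agent.FCW.Main
import Pool.Agent.FCW.DATAB
import Pool.Agent.FCW.NFI
import Pool.Agent.FCW.POWB
import Pool.Agent.FCW.C4
import Pool.Agent.FCW.MainE
import Pool.Agent.FCW.MainF
import Pool.Agent.FCW.EPK

/-!
# The criteria
-/

open NumberField

namespace Pool.Agent.FCW

theorem all_KEY : T_KEY := p_KEY (p_ANN (p_JAC p_CHAR p_DIST) p_SELF)

theorem all_REC : T_REC := p_REC all_KEY p_PAD p_TWO p_HARM p_PRM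

theorem all_W : T_W := p_W p_CONJ (p_DATA p_NF) p_PAR p_MODP p_DISC p_POW all_REC

theorem all_R : T_R := p_R p_CONJ (p_DATA p_NF) p_PAR p_MODP p_DISC p_POW p_EIA p_EIB

theorem all_E : T_E := p_E p_CONJ (p_DATAB p_NF) p_NFI p_PAR p_MODP p_POW (p_POWB p_PRM) p_C4
  all_REC

theorem all_EP : T_EP := p_EP all_E p_CONJ (p_DATAB p_NF) p_NFI (p_POWB p_PRM) all_REC

/-- passing to multiples of the exponent -/
theorem coprime_pow {R : Type*} [CommRing R] {x y z q : R} (h : IsCoprime (x * y * z) q)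
    (k : ℕ) : IsCoprime (x ^ k * y ^ k * z ^ k) q := by
  rw [← mul_pow, ← mul_pow]
  exact h.pow_left

theorem final_E (K : Type) [Field K] [NumberField K] (hK : Module.finrank ℚ K = 2) (p : ℕ)
    (hp : p.Prime) (h7 : 7 ≤ p) (hW : ¬ p ^ 2 ∣ 2 ^ (p - 1) - 1) (n : ℕ) (hn : 2 * p ∣ n)
    (x y z : K) (hxyz : x * y * z ≠ 0) (h : x ^ n + y ^ n = z ^ n)
    (P : IsDedekindDomain.HeightOneSpectrum (𝓞 K)) (hP : (p : 𝓞 K) ∈ P.asIdeal) :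
    ¬ (P.valuation K x = P.valuation K y ∧ P.valuation K y = P.valuation K z) := by
  have : Fact p.Prime := ⟨hp⟩
  obtain ⟨k, rfl⟩ := hn
  rw [mul_comm (2 * p) k, pow_mul x, pow_mul y, pow_mul z] at h
  rintro ⟨h1, h2⟩
  refine p_EPK all_EP K hK p h7 hW (x ^ k) (y ^ k) (z ^ k) ?_ h P hP ⟨?_, ?_⟩
  · rw [← mul_pow, ← mul_pow]
    exact pow_ne_zero k hxyz
  · rw [map_pow, map_pow, h1]
  · rw [map_pow, map_pow, h2]

theorem final_W (K : Type) [Field K] [NumberField K] (hK : Module.finrank ℚ K = 2) (d : ℤ)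
    (hd : Squarefree d) (hd1 : d ≠ 1) (s : K) (hs : s ^ 2 = (d : K)) (p : ℕ) [Fact p.Prime]
    (h7 : 7 ≤ p) (hW : ¬ p ^ 2 ∣ 2 ^ (p - 1) - 1) (k : ℕ)
    (x y z : 𝓞 K) (hco : IsCoprime (x * y * z) (p : 𝓞 K))
    (h : x ^ (k * p) + y ^ (k * p) = z ^ (k * p)) :
    (d % 8 = 5 ∧ legendreSym p d = legendreSym p (-3) ∧
      (p : 𝓞 K) ∣ (x ^ k) ^ 2 + x ^ k * y ^ k + (y ^ k) ^ 2) ∨
    (d % 8 = 1 ∧ legendreSym p d = legendreSym p (-15) ∧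
      ((p : 𝓞 K) ∣ 2 * (x ^ k) ^ 2 + x ^ k * y ^ k + 2 * (y ^ k) ^ 2 ∨
        (p : 𝓞 K) ∣ 2 * (x ^ k) ^ 2 + 3 * x ^ k * y ^ k + 3 * (y ^ k) ^ 2 ∨
        (p : 𝓞 K) ∣ 3 * (x ^ k) ^ 2 + 3 * x ^ k * y ^ k + 2 * (y ^ k) ^ 2)) := by
  rw [pow_mul x, pow_mul y, pow_mul z] at h
  exact all_W K hK d hd hd1 s hs p h7 hW (x ^ k) (y ^ k) (z ^ k) (coprime_pow hco k) h

theorem final_R (K : Type) [Field K] [NumberField K] (hK : Module.finrank ℚ K = 2) (d : ℤ)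
    (hd : Squarefree d) (hd1 : d ≠ 1) (s : K) (hs : s ^ 2 = (d : K)) (p : ℕ) [Fact p.Prime]
    (m : ℕ) (hm : 1 ≤ m) (hpm : 2 * m * (m + 1) + 2 < p)
    (hcl : Nat.card {c : ClassGroup (𝓞 (CyclotomicField p ℚ)) // c ^ p = 1} < p ^ m)
    (k : ℕ) (x y z : 𝓞 K) (hco : IsCoprime (x * y * z) (p : 𝓞 K))
    (h : x ^ (k * p) + y ^ (k * p) = z ^ (k * p)) :
    legendreSym p d = legendreSym p (-3) ∧
      (p : 𝓞 K) ∣ (x ^ k) ^ 2 + x ^ k * y ^ k + (y ^ k) ^ 2 := by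
  rw [pow_mul x, pow_mul y, pow_mul z] at h
  exact all_R K hK d hd hd1 s hs p m hm hpm hcl (x ^ k) (y ^ k) (z ^ k) (coprime_pow hco k) h

end Pool.Agent.FCW
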