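import Pool.Agent.FCW.Targets

/-!
# Final arithmetic: parities, residues and Legendre symbols
-/

open NumberField

namespace Pool.Agent.FCW

namespace Fin_

variable {p : ℕ} [Fact p.Prime]

theorem cast_ne {n : ℕ} (h0 : 0 < n) (hn : n < p) : ((n : ℕ) : ZMod p) ≠ 0 := by
  intro h3
  rw [ZMod.natCast_eq_zero_iff] at h3
  have := Nat.le_of_dvd h0 h3
  omega

/-- the multiplier relation as a divisibility -/
theorem leg_of {d r a k s : ℤ} (ha : ¬ (p : ℤ) ∣ a) (hk : ¬ (p : ℤ) ∣ k) (hs : ¬ (p : ℤ) ∣ s)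
    (h : (p : ℤ) ∣ s ^ 2 * (r ^ 2 * d) - k * a ^ 2) : legendreSym p d = legendreSym p k := by
  have hc : ∀ n : ℤ, ¬ (p : ℤ) ∣ n → ((n : ℤ) : ZMod p) ≠ 0 := by
    intro n hn h0
    exact hn ((ZMod.intCast_zmod_eq_zero_iff_dvd n p).mp h0)
  have h1 : ((s ^ 2 * (r ^ 2 * d) : ℤ) : ZMod p) = ((k * a ^ 2 : ℤ) : ZMod p) := by
    rw [← sub_eq_zero, ← Int.cast_sub]
    exact (ZMod.intCast_zmod_eq_zero_iff_dvd _ p).mpr h
  have h2 : legendreSym p (s ^ 2 * (r ^ 2 * d)) = legendreSym p (k * a ^ 2) := by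
    unfold legendreSym
    rw [h1]
  have hr : ((r : ℤ) : ZMod p) ≠ 0 := by
    intro h0
    have h3 : ((k * a ^ 2 : ℤ) : ZMod p) = 0 := by
      rw [← h1]
      push_cast
      rw [h0]
      ring
    push_cast at h3
    rcases mul_eq_zero.mp h3 with h4 | h4
    · exact hc k hk h4
    · exact hc a ha (pow_eq_zero_iff (two_ne_zero)|>.mp h4)
  rw [legendreSym.mul, legendreSym.mul, legendreSym.mul, legendreSym.sq_one' p (hc s hs),
    legendreSym.sq_one' p hr, legendreSym.sq_one' p (hc a ha), one_mul, one_mul, mul_one] at h2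
  exact h2

/-- the residue of `d` modulo `8` -/
theorem mod8 {T A B r d : ℤ} (hT : ¬ (2 : ℤ) ∣ T) (h : T ^ 2 - 4 * A * B = r ^ 2 * d) :
    (2 ∣ A * B → d % 8 = 1) ∧ (¬ 2 ∣ A * B → d % 8 = 5) := by
  have hsq : ∀ x : ℤ, ¬ (2 : ℤ) ∣ x → x ^ 2 % 8 = 1 := by
    intro x hx
    have h1 : x % 8 = 1 ∨ x % 8 = 3 ∨ x % 8 = 5 ∨ x % 8 = 7 := by omega
    rcases h1 with h1 | h1 | h1 | h1 <;> simp [pow_two, Int.mul_emod, h1]
  have hT2 := hsq T hT
  have hr : ¬ (2 : ℤ) ∣ r := by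
    rintro ⟨k, rfl⟩
    have h3 : (2 * k) ^ 2 * d = 4 * (k ^ 2 * d) := by ring
    rw [h3] at h
    have h4 : 4 * A * B = 4 * (A * B) := by ring
    rw [h4] at h
    omega
  have hr2 := hsq r hr
  have h5 : (r ^ 2 * d) % 8 = d % 8 := by
    rw [Int.mul_emod, hr2, one_mul, Int.emod_emod_of_dvd _ (dvd_refl 8)]
  have h4 : 4 * A * B = 4 * (A * B) := by ring
  rw [h4] at h
  constructor
  · intro h6
    omega
  · intro h6
    omega

theorem dvd_of_mul {n k : ℤ} {m : ℕ} (h0 : 0 < m) (hm : m < p) (h : (p : ℤ) ∣ k)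
    (hk : k = m * n) : (p : ℤ) ∣ n := by
  have hp : Prime (p : ℤ) := Nat.prime_iff_prime_int.mp Fact.out
  rw [hk] at h
  rcases hp.dvd_or_dvd h with h1 | h1
  · exfalso
    have h2 := Nat.le_of_dvd h0 (Int.natCast_dvd_natCast.mp h1)
    omega
  · exact h1

/-- the consequences of the reciprocity law for one pair of variables -/
structure Rel (p : ℕ) (A T B : ℤ) : Prop where
  m2 : 2 ∣ A - B → (p : ℤ) ∣ A - B
  m4 : 2 ∣ A → 2 ∣ T → (p : ℤ) ∣ 2 * A + T
  m3 : 2 ∣ A → 2 ∣ T - B → (p : ℤ) ∣ 3 * A + T - B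
  m0 : 2 ∣ B → 2 ∣ T → (p : ℤ) ∣ T + 2 * B
  m1 : 2 ∣ B → 2 ∣ A - T → (p : ℤ) ∣ A - T - 3 * B

theorem cc_Fz (A T B : ℤ) : zt p ^ 2 * cc p (Fz p A T B) = Fz p B T A := by
  unfold Fz
  rw [map_add, map_add, map_mul, map_mul, map_pow, map_intCast, map_intCast, map_intCast]
  have h1 : zt p * cc p (zt p) = 1 := by
    have h2 : cc p (zt p) = zv p (-1) := by
      have h3 := cc_zv p 1
      rwa [zv_one] at h3
    rw [h2, ← zv_one p, ← zv_add, add_neg_cancel, zv_zero]
  linear_combination ((T : Oc p) * zt p + (B : Oc p) * (zt p * cc p (zt p) + 1)) * h1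

theorem rel_of_rec (hREC : T_REC) (h7 : 7 ≤ p) (hW : ¬ p ^ 2 ∣ 2 ^ (p - 1) - 1) {A T B : ℤ}
    (hprim : Prim A T B) (hN : ¬ (p : ℤ) ∣ A + T + B)
    (hb : ∃ b : Ideal (Oc p), Ideal.span {Fz p A T B} = b ^ p) : Rel p A T B := by
  have key := hREC p (by omega) hW A T B hprim hN hb
  have hc := cc_Fz (p := p) A T B
  have c2 : ∀ n : ℤ, (2 : ℤ) ∣ n → ∃ k : Oc p, (n : Oc p) = 2 * k := by
    rintro n ⟨k, rfl⟩
    exact ⟨k, by push_cast; ring⟩
  constructor
  · intro h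
    obtain ⟨k, hk⟩ := c2 _ h
    push_cast at hk
    have h1 := key 2 (by
      rw [hc]
      refine ⟨k * (1 - zt p ^ 2), ?_⟩
      unfold Fz
      linear_combination (1 - zt p ^ 2) * hk)
    exact dvd_of_mul (m := 2) (by norm_num) (by omega) h1 (by push_cast; ring)
  · intro hA hT
    obtain ⟨k, hk⟩ := c2 _ hA
    obtain ⟨k', hk'⟩ := c2 _ hT
    have h1 := key 4 (by
      have h2 : zt p ^ 4 * cc p (Fz p A T B) = zt p ^ 2 * Fz p B T A := by
        rw [← hc]; ring
      rw [h2]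
      refine ⟨k * (1 - zt p ^ 4) + k' * (zt p - zt p ^ 3), ?_⟩
      unfold Fz
      linear_combination (1 - zt p ^ 4) * hk + (zt p - zt p ^ 3) * hk')
    exact dvd_of_mul (m := 2) (by norm_num) (by omega) h1 (by push_cast; ring)
  · intro hA hT
    obtain ⟨k, hk⟩ := c2 _ hA
    obtain ⟨k', hk'⟩ := c2 _ hT
    push_cast at hk'
    have h1 := key 3 (by
      have h2 : zt p ^ 3 * cc p (Fz p A T B) = zt p * Fz p B T A := by
        rw [← hc]; ring
      rw [h2]
      refine ⟨k * (1 - zt p ^ 3) + k' * (zt p - zt p ^ 2), ?_⟩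
      unfold Fz
      linear_combination (1 - zt p ^ 3) * hk + (zt p - zt p ^ 2) * hk')
    exact dvd_of_mul (m := 1) (by norm_num) (by omega) h1 (by push_cast; ring)
  · intro hB hT
    obtain ⟨k, hk⟩ := c2 _ hB
    obtain ⟨k', hk'⟩ := c2 _ hT
    have h1 := key 0 (by
      have h2 : cc p (Fz p A T B) = A + T * cc p (zt p) + B * cc p (zt p) ^ 2 := by
        unfold Fz
        rw [map_add, map_add, map_mul, map_mul, map_pow, map_intCast, map_intCast, map_intCast]
      rw [pow_zero, one_mul, h2]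
      refine ⟨k * (zt p ^ 2 - cc p (zt p) ^ 2) + k' * (zt p - cc p (zt p)), ?_⟩
      unfold Fz
      linear_combination (zt p ^ 2 - cc p (zt p) ^ 2) * hk + (zt p - cc p (zt p)) * hk')
    have h3 : (p : ℤ) ∣ -(((0 : ℕ) : ℤ) * (A + T + B) - 2 * (T + 2 * B)) := (dvd_neg).mpr h1
    exact dvd_of_mul (m := 2) (by norm_num) (by omega) h3 (by push_cast; ring)
  · intro hB hT
    obtain ⟨k, hk⟩ := c2 _ hB
    obtain ⟨k', hk'⟩ := c2 _ hT
    push_cast at hk'
    have h1 := key 1 (by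
      have h0 : zt p * cc p (zt p) = 1 := by
        have h2 : cc p (zt p) = zv p (-1) := by
          have h3 := cc_zv p 1
          rwa [zv_one] at h3
        rw [h2, ← zv_one p, ← zv_add, add_neg_cancel, zv_zero]
      have h2 : cc p (Fz p A T B) = A + T * cc p (zt p) + B * cc p (zt p) ^ 2 := by
        unfold Fz
        rw [map_add, map_add, map_mul, map_mul, map_pow, map_intCast, map_intCast, map_intCast]
      rw [pow_one, h2]
      refine ⟨k * (zt p ^ 2 - cc p (zt p)) + k' * (1 - zt p), ?_⟩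
      unfold Fz
      linear_combination (zt p ^ 2 - cc p (zt p)) * hk + (1 - zt p) * hk' -
        (T + B * cc p (zt p)) * h0)
    exact dvd_of_mul (m := 1) (by norm_num) (by omega) h1 (by push_cast; ring)

/-- the case analysis -/
theorem cases_aux (h7 : 7 ≤ p) {a b c T₁ T₂ T₃ : ℤ} (e₁ : (2 : ℤ) ∣ a + b + c + T₁) (e₂ : (2 : ℤ) ∣ a + b + c + T₂)
    (e₃ : (2 : ℤ) ∣ a + b + c + T₃) (ha : ¬ (p : ℤ) ∣ a) (hb : ¬ (p : ℤ) ∣ b)
    (hc : ¬ (p : ℤ) ∣ c) (f₁ : (p : ℤ) ∣ 2 * a + T₁ + T₂) (f₂ : (p : ℤ) ∣ 2 * b + T₁ + T₃)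
    (f₃ : (p : ℤ) ∣ 2 * c + T₂ + T₃) (R₁ : Rel p a T₁ b) (R₂ : Rel p a T₂ c)
    (R₃ : Rel p b T₃ c) {d r₁ r₂ r₃ : ℤ} (g₁ : T₁ ^ 2 - 4 * a * b = r₁ ^ 2 * d)
    (g₂ : T₂ ^ 2 - 4 * a * c = r₂ ^ 2 * d) (g₃ : T₃ ^ 2 - 4 * b * c = r₃ ^ 2 * d) :
    (d % 8 = 5 ∧ legendreSym p d = legendreSym p (-3) ∧
      ((p : ℤ) ∣ 1 * a - 1 * b ∧ (p : ℤ) ∣ 1 * T₁ + 1 * b)) ∨
    (d % 8 = 1 ∧ legendreSym p d = legendreSym p (-15) ∧
      (((p : ℤ) ∣ 2 * a - 2 * b ∧ (p : ℤ) ∣ 2 * T₁ + 1 * b) ∨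
       ((p : ℤ) ∣ 2 * a - 3 * b ∧ (p : ℤ) ∣ 2 * T₁ + 3 * b) ∨
       ((p : ℤ) ∣ 3 * a - 2 * b ∧ (p : ℤ) ∣ 3 * T₁ + 3 * b))) := by
  have hp : Prime (p : ℤ) := Nat.prime_iff_prime_int.mp Fact.out
  have hsmall : ∀ n : ℕ, 0 < n → n < p → ¬ (p : ℤ) ∣ (n : ℤ) := by
    intro n h1 h2 h3
    have := Nat.le_of_dvd h1 (Int.natCast_dvd_natCast.mp h3)
    omega
  have h2' : ∀ n : ℤ, (p : ℤ) ∣ 2 * n → (p : ℤ) ∣ n := fun n h =>
    dvd_of_mul (m := 2) (by norm_num) (by omega) h (by push_cast; ring)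
  have hneg : ∀ n : ℕ, 0 < n → ¬ (p : ℤ) ∣ (n : ℤ) → ¬ (p : ℤ) ∣ -(n : ℤ) := by
    intro n _ h1 h2
    exact h1 ((dvd_neg).mp h2)
  have h15 : ¬ (p : ℤ) ∣ -15 := by
    intro h
    have h1 : (p : ℤ) ∣ ((15 : ℕ) : ℤ) := by
      have := (dvd_neg).mp h
      exact_mod_cast this
    have h3 : p ∣ 3 * 5 := by exact_mod_cast Int.natCast_dvd_natCast.mp h1
    rcases (Fact.out : p.Prime).dvd_mul.mp h3 with h4 | h4
    · have := Nat.le_of_dvd (by norm_num) h4
      omega
    · have := Nat.le_of_dvd (by norm_num) h4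
      omega
  have h3n : ¬ (p : ℤ) ∣ -3 := by
    intro h
    have h1 : (p : ℤ) ∣ ((3 : ℕ) : ℤ) := by
      have := (dvd_neg).mp h
      exact_mod_cast this
    exact hsmall 3 (by norm_num) (by omega) h1
  have h2n : ¬ (p : ℤ) ∣ 2 := by
    intro h
    exact hsmall 2 (by norm_num) (by omega) (by exact_mod_cast h)
  have h1n : ¬ (p : ℤ) ∣ 1 := by
    intro h
    exact hsmall 1 (by norm_num) (by omega) (by exact_mod_cast h)
  have t₁ : (p : ℤ) ∣ a + b + T₁ - c := by
    apply h2'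
    have h : 2 * (a + b + T₁ - c) =
      (2 * a + T₁ + T₂) + (2 * b + T₁ + T₃) - (2 * c + T₂ + T₃) := by ring
    rw [h]
    exact dvd_sub (dvd_add f₁ f₂) f₃
  have t₂ : (p : ℤ) ∣ a + c + T₂ - b := by
    apply h2'
    have h : 2 * (a + c + T₂ - b) =
      (2 * a + T₁ + T₂) + (2 * c + T₂ + T₃) - (2 * b + T₁ + T₃) := by ring
    rw [h]
    exact dvd_sub (dvd_add f₁ f₃) f₂
  have t₃ : (p : ℤ) ∣ b + c + T₃ - a := by
    apply h2'
    have h : 2 * (b + c + T₃ - a) =
      (2 * b + T₁ + T₃) + (2 * c + T₂ + T₃) - (2 * a + T₁ + T₂) := by ring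
    rw [h]
    exact dvd_sub (dvd_add f₂ f₃) f₁
  by_cases hT : (2 : ℤ) ∣ T₁
  · -- all traces are even
    exfalso
    have hT₂ : (2 : ℤ) ∣ T₂ := by omega
    have hT₃ : (2 : ℤ) ∣ T₃ := by omega
    by_cases ea : (2 : ℤ) ∣ a
    · have h1 := R₁.m4 ea hT
      have h2 := R₂.m4 ea hT₂
      apply ha
      apply h2'
      have h : 2 * a = (2 * a + T₁) + (2 * a + T₂) - (2 * a + T₁ + T₂) := by ring
      rw [h]
      exact dvd_sub (dvd_add h1 h2) f₁
    by_cases eb : (2 : ℤ) ∣ b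
    · have h1 := R₁.m0 eb hT
      have h2 := R₃.m4 eb hT₃
      apply hb
      apply h2'
      have h : 2 * b = (T₁ + 2 * b) + (2 * b + T₃) - (2 * b + T₁ + T₃) := by ring
      rw [h]
      exact dvd_sub (dvd_add h1 h2) f₂
    have ec : (2 : ℤ) ∣ c := by omega
    have h1 := R₂.m0 ec hT₂
    have h2 := R₃.m0 ec hT₃
    apply hc
    apply h2'
    have h : 2 * c = (T₂ + 2 * c) + (T₃ + 2 * c) - (2 * c + T₂ + T₃) := by ring
    rw [h]
    exact dvd_sub (dvd_add h1 h2) f₃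
  · have hT₂ : ¬ (2 : ℤ) ∣ T₂ := by omega
    have hT₃ : ¬ (2 : ℤ) ∣ T₃ := by omega
    obtain ⟨m₁, m₁'⟩ := mod8 hT g₁
    obtain ⟨m₂, m₂'⟩ := mod8 hT₂ g₂
    obtain ⟨m₃, m₃'⟩ := mod8 hT₃ g₃
    have cz : ∀ n : ℤ, (p : ℤ) ∣ n → ((n : ℤ) : ZMod p) = 0 := fun n h =>
      (ZMod.intCast_zmod_eq_zero_iff_dvd n p).mpr h
    have zc : ∀ n : ℤ, ((n : ℤ) : ZMod p) = 0 → (p : ℤ) ∣ n := fun n h =>
      (ZMod.intCast_zmod_eq_zero_iff_dvd n p).mp h
    have two : (2 : ZMod p) ≠ 0 := by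
      have := cast_ne (p := p) (n := 2) (by norm_num) (by omega)
      exact_mod_cast this
    have F₁ := cz _ f₁
    have F₂ := cz _ f₂
    have F₃ := cz _ f₃
    have G₁ := cz _ t₁
    have G₂ := cz _ t₂
    have G₃ := cz _ t₃
    push_cast at F₁ F₂ F₃ G₁ G₂ G₃
    by_cases ea : (2 : ℤ) ∣ a
    · by_cases eb : (2 : ℤ) ∣ b
      · -- `a`, `b` even, `c` odd
        right
        have h1 := cz _ (R₁.m2 (by omega))
        have h2 := cz _ (R₂.m3 ea (by omega))
        have h3 := cz _ (R₃.m3 eb (by omega))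
        push_cast at h1 h2 h3
        have h5 : 2 * (T₁ : ZMod p) + a = 0 := by
          apply mul_left_cancel₀ two
          linear_combination 4 * G₁ + F₃ - h2 - h3 + h1
        have h6 : (b : ZMod p) = a := by linear_combination -h1
        refine ⟨m₁ (Dvd.dvd.mul_right ea b), ?_, Or.inl ⟨zc _ ?_, zc _ ?_⟩⟩
        rotate_left
        · push_cast
          linear_combination 2 * h1
        · push_cast
          linear_combination h5 - h1
        refine leg_of (s := 2) (r := r₁) ha h15 h2n ?_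
        rw [← g₁]
        apply zc
        push_cast
        rw [h6]
        linear_combination (2 * (T₁ : ZMod p) - a) * h5
      · -- `a`, `c` even, `b` odd
        have ec : (2 : ℤ) ∣ c := by omega
        right
        have h1 := cz _ (R₂.m2 (by omega))
        have h2 := cz _ (R₁.m3 ea (by omega))
        have h3 := cz _ (R₃.m1 ec (by omega))
        push_cast at h1 h2 h3
        have h5 : 2 * (T₂ : ZMod p) + a = 0 := by
          apply mul_left_cancel₀ two
          linear_combination 4 * G₂ + F₂ - h2 + h3 + h1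
        have h6 : (c : ZMod p) = a := by linear_combination -h1
        refine ⟨m₂ (Dvd.dvd.mul_right ea c), ?_, Or.inr (Or.inr ⟨zc _ ?_, zc _ ?_⟩)⟩
        rotate_left
        · push_cast
          linear_combination 2 * G₂ - h5 + 2 * h1
        · push_cast
          linear_combination 3 * F₁ - 3 * G₂ - 3 * h1
        refine leg_of (s := 2) (r := r₂) ha h15 h2n ?_
        rw [← g₂]
        apply zc
        push_cast
        rw [h6]
        linear_combination (2 * (T₂ : ZMod p) - a) * h5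
    · by_cases eb : (2 : ℤ) ∣ b
      · -- `b`, `c` even, `a` odd
        have ec : (2 : ℤ) ∣ c := by omega
        right
        have h1 := cz _ (R₃.m2 (by omega))
        have h2 := cz _ (R₁.m1 eb (by omega))
        have h3 := cz _ (R₂.m1 ec (by omega))
        push_cast at h1 h2 h3
        have h5 : 2 * (T₃ : ZMod p) + b = 0 := by
          apply mul_left_cancel₀ two
          linear_combination 4 * G₃ + F₁ + h2 + h3 + h1
        have h6 : (c : ZMod p) = b := by linear_combination -h1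
        refine ⟨m₃ (Dvd.dvd.mul_right eb c), ?_, Or.inr (Or.inl ⟨zc _ ?_, zc _ ?_⟩)⟩
        rotate_left
        · push_cast
          linear_combination -2 * G₃ + h5 - 2 * h1
        · push_cast
          linear_combination 2 * F₂ - h5
        refine leg_of (s := 2) (r := r₃) hb h15 h2n ?_
        rw [← g₃]
        apply zc
        push_cast
        rw [h6]
        linear_combination (2 * (T₃ : ZMod p) - b) * h5
      · -- all odd
        have ec : ¬ (2 : ℤ) ∣ c := by omega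
        left
        have hab : ¬ (2 : ℤ) ∣ a * b := by
          intro h
          rcases Int.prime_two.dvd_or_dvd h with h | h
          · exact ea h
          · exact eb h
        have h1 := cz _ (R₁.m2 (by omega))
        have h2 := cz _ (R₂.m2 (by omega))
        push_cast at h1 h2
        have h5 : (T₁ : ZMod p) + a = 0 := by
          linear_combination G₁ + h1 - h2
        have h6 : (b : ZMod p) = a := by linear_combination -h1
        refine ⟨m₁' hab, ?_, zc _ ?_, zc _ ?_⟩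
        rotate_left
        · push_cast
          linear_combination h1
        · push_cast
          linear_combination h5 - h1
        refine leg_of (s := 1) (r := r₁) ha h3n h1n ?_
        rw [← g₁]
        apply zc
        push_cast
        rw [h6]
        linear_combination ((T₁ : ZMod p) - a) * h5

end Fin_

end Pool.Agent.FCW
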