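import Pool.Agent.FCW.Targets

/-!
# CHAR: Jacobi sums
-/

open NumberField

namespace Pool.Agent.FCW

namespace CHAR_

/-- power sums in `ZMod q` between `q-1` and `2(q-1)` -/
lemma psum_hi (q : ℕ) [Fact q.Prime] (i : ℕ) (h1 : q - 1 < i) (h2 : i < 2 * (q - 1)) :
    ∑ x : ZMod q, x ^ i = 0 := by
  have h3 : ∀ x : ZMod q, x ^ i = x ^ (i - (q - 1)) := by
    intro x
    by_cases hx : x = 0
    · rw [hx, zero_pow (by omega), zero_pow (by omega)]
    · have h4 := ZMod.pow_card_sub_one_eq_one hx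
      have h5 : i = (q - 1) + (i - (q - 1)) := by omega
      conv_lhs => rw [h5, pow_add, h4, one_mul]
  simp_rw [h3]
  apply FiniteField.sum_pow_lt_card_sub_one
  rw [ZMod.card]
  omega

lemma psum_lo (q : ℕ) [Fact q.Prime] (i : ℕ) (h1 : i < q - 1) :
    ∑ x : ZMod q, x ^ i = 0 := by
  apply FiniteField.sum_pow_lt_card_sub_one
  rw [ZMod.card]
  omega

lemma psum_eq (q : ℕ) [Fact q.Prime] : ∑ x : ZMod q, x ^ (q - 1) = -1 := by
  have hq : 2 ≤ q := (Fact.out : q.Prime).two_le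
  have h3 : ∀ x : ZMod q, x ^ (q - 1) = 1 - (if x = 0 then 1 else 0) := by
    intro x
    by_cases hx : x = 0
    · rw [hx, zero_pow (by omega)]; simp
    · rw [ZMod.pow_card_sub_one_eq_one hx, if_neg hx, sub_zero]
  simp_rw [h3]
  rw [Finset.sum_sub_distrib]
  simp

lemma expand (q : ℕ) [Fact q.Prime] (n : ℕ) :
    ∑ x : ZMod q, x ^ n * (1 - x) ^ n =
      ∑ m ∈ Finset.range (n + 1), (-1) ^ m * (n.choose m : ZMod q) * ∑ x : ZMod q, x ^ (n + m) := by
  have h1 : ∀ x : ZMod q, x ^ n * (1 - x) ^ n =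
      ∑ m ∈ Finset.range (n + 1), (-1) ^ m * (n.choose m : ZMod q) * x ^ (n + m) := by
    intro x
    have h2 : (1 - x) ^ n = (-x + 1) ^ n := by ring
    rw [h2, add_pow, Finset.mul_sum]
    apply Finset.sum_congr rfl
    intro m _
    rw [one_pow, neg_pow x m, pow_add]
    ring
  simp_rw [h1]
  rw [Finset.sum_comm]
  apply Finset.sum_congr rfl
  intro m _
  rw [Finset.mul_sum]

lemma sum_lo (q : ℕ) [Fact q.Prime] (n : ℕ) (h : 2 * n < q - 1) :
    ∑ x : ZMod q, x ^ n * (1 - x) ^ n = 0 := by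
  rw [expand]
  apply Finset.sum_eq_zero
  intro m hm
  rw [Finset.mem_range] at hm
  rw [psum_lo q (n + m) (by omega), mul_zero]

lemma sum_hi (q : ℕ) [Fact q.Prime] (n : ℕ) (h1 : n < q - 1) (h2 : q - 1 ≤ 2 * n) :
    ∑ x : ZMod q, x ^ n * (1 - x) ^ n ≠ 0 := by
  have hq : q.Prime := Fact.out
  have hq2 := hq.two_le
  rw [expand, Finset.sum_eq_single (q - 1 - n)]
  · have h3 : n + (q - 1 - n) = q - 1 := by omega
    rw [h3, psum_eq]
    have h4 : ((n.choose (q - 1 - n) : ℕ) : ZMod q) ≠ 0 := by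
      rw [Ne, ZMod.natCast_eq_zero_iff]
      intro h5
      have h6 := Nat.choose_mul_factorial_mul_factorial (n := n) (k := q - 1 - n) (by omega)
      have h7 : q ∣ n.factorial := by
        rw [← h6]
        exact Dvd.dvd.mul_right (Dvd.dvd.mul_right h5 _) _
      have h8 := (hq.dvd_factorial).1 h7
      omega
    have h9 : ((-1 : ZMod q)) ^ (q - 1 - n) ≠ 0 := pow_ne_zero _ (neg_ne_zero.2 one_ne_zero)
    exact mul_ne_zero (mul_ne_zero h9 h4) (neg_ne_zero.2 one_ne_zero)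
  · intro m hm hmn
    rw [Finset.mem_range] at hm
    rcases lt_trichotomy (n + m) (q - 1) with h | h | h
    · rw [psum_lo q _ h, mul_zero]
    · omega
    · rw [psum_hi q _ h (by omega), mul_zero]
  · intro h
    rw [Finset.mem_range] at h
    omega

end CHAR_

open CHAR_ in
theorem p_CHAR : T_CHAR := by
  intro p hpF hp3 l q hq hl hql hqp
  have hp : p.Prime := hpF.out
  have : Fact q.Prime := ⟨hq⟩
  have hq2 := hq.two_le
  set φ : Oc p →+* (Oc p ⧸ l) := Ideal.Quotient.mk l with hφ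
  have : IsDomain (Oc p ⧸ l) := Ideal.Quotient.isDomain l
  have hq0 : ((q : ℕ) : Oc p ⧸ l) = 0 := by
    have h1 : φ (q : Oc p) = 0 := Ideal.Quotient.eq_zero_iff_mem.2 hql
    rwa [map_natCast] at h1
  have : CharP (Oc p ⧸ l) q := (CharP.charP_iff_prime_eq_zero hq).2 hq0
  set ψ : ZMod q →+* (Oc p ⧸ l) := ZMod.castHom (dvd_refl q) (Oc p ⧸ l) with hψ
  have hψi : Function.Injective ψ := ψ.injective
  have hqne : q ≠ p := by
    rintro rfl
    rw [ZMod.natCast_self] at hqp
    exact zero_ne_one hqp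
  -- `k`
  obtain ⟨k, hk⟩ : p ∣ q - 1 := by
    have h1 : (1 : ℕ) ≡ q [MOD p] := by
      rw [← ZMod.natCast_eq_natCast_iff, hqp, Nat.cast_one]
    exact (Nat.modEq_iff_dvd' (by omega)).1 h1
  have hk0 : 0 < k := by
    rcases Nat.eq_zero_or_pos k with h | h
    · rw [h, mul_zero] at hk; omega
    · exact h
  -- the root of unity
  set z := φ (zt p) with hz
  have hzp : z ^ p = 1 := by rw [hz, ← map_pow, zt_pow, map_one]
  have hz1 : z ≠ 1 := by
    intro h
    have h1 := (zt_prim p).geom_sum_eq_zero hp.one_lt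
    have h2 := congrArg φ h1
    rw [map_sum, map_zero] at h2
    simp only [map_pow, ← hz, h, one_pow, Finset.sum_const, Finset.card_range, nsmul_eq_mul,
      mul_one] at h2
    have h3 := (CharP.cast_eq_zero_iff (Oc p ⧸ l) q p).1 h2
    exact hqne ((Nat.prime_dvd_prime_iff_eq hq hp).1 h3)
  have hzprim : IsPrimitiveRoot z p := by
    have h := orderOf_eq_prime hzp hz1
    have h2 := IsPrimitiveRoot.orderOf z
    rwa [h] at h2
  -- generator
  obtain ⟨g, hg⟩ := IsCyclic.exists_generator (α := (ZMod q)ˣ)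
  have hog : orderOf g = q - 1 := by
    rw [orderOf_eq_card_of_forall_mem_zpowers hg, Nat.card_eq_fintype_card, ZMod.card_units]
  have hgp : (ψ ((g : ZMod q) ^ k)) ^ p = 1 := by
    rw [← map_pow, ← pow_mul, mul_comm k p, ← hk, ← hog, ← Units.val_pow_eq_pow_val,
      pow_orderOf_eq_one, Units.val_one, map_one]
  obtain ⟨w, hwp, hw⟩ := hzprim.eq_pow_of_pow_eq_one hgp
  have hw0 : w ≠ 0 := by
    rintro rfl
    rw [pow_zero] at hw
    have h1 : (g : ZMod q) ^ k = 1 := hψi (by rw [← hw, map_one])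
    have h2 : g ^ k = 1 := Units.ext (by rw [Units.val_pow_eq_pow_val, h1, Units.val_one])
    have h3 := orderOf_dvd_of_pow_eq_one h2
    rw [hog, hk] at h3
    have h4 := Nat.le_of_dvd hk0 h3
    nlinarith
  have hwd : ¬ p ∣ w := fun h => hw0 (Nat.eq_zero_of_dvd_of_lt h hwp)
  -- the character
  set ζu : (Oc p)ˣ := ((zt_prim p).isUnit hp.ne_zero).unit with hζu
  have hζuv : (ζu : Oc p) = zt p := IsUnit.unit_spec _
  have hdvd : orderOf (ζu ^ w) ∣ orderOf g := by
    apply orderOf_dvd_of_pow_eq_one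
    apply Units.ext
    rw [Units.val_pow_eq_pow_val, Units.val_pow_eq_pow_val, hζuv, hog, hk, ← pow_mul,
      mul_left_comm, pow_mul, zt_pow, one_pow, Units.val_one]
  set f : (ZMod q)ˣ →* (Oc p)ˣ := monoidHomOfForallMemZpowers hg hdvd with hf
  have hfg : f g = ζu ^ w := monoidHomOfForallMemZpowers_apply_gen hg hdvd
  set χ : MulChar (ZMod q) (Oc p) := MulChar.ofUnitHom f with hχ
  have hχu : ∀ a : (ZMod q)ˣ, ∃ n : ℕ, a = g ^ n ∧ χ a = zt p ^ (w * n) := by
    intro a
    obtain ⟨n, hn⟩ := (mem_powers_iff_mem_zpowers).2 (hg a)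
    have hn' : g ^ n = a := hn
    refine ⟨n, hn'.symm, ?_⟩
    rw [hχ, MulChar.ofUnitHom_coe, ← hn', map_pow, hfg, Units.val_pow_eq_pow_val,
      Units.val_pow_eq_pow_val, hζuv, ← pow_mul]
  have hχ0 : χ 0 = 0 := χ.map_nonunit not_isUnit_zero
  have hχ1 : ∀ a : ZMod q, φ (χ a) = ψ a ^ k := by
    intro a
    by_cases ha : a = 0
    · rw [ha, hχ0, map_zero, map_zero, zero_pow hk0.ne']
    · obtain ⟨u, rfl⟩ := (isUnit_iff_ne_zero.2 ha)
      obtain ⟨n, hn, hn2⟩ := hχu u
      rw [hn2, map_pow, ← hz, pow_mul, hw, hn, Units.val_pow_eq_pow_val, ← map_pow, ← map_pow,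
        ← pow_mul, ← pow_mul, mul_comm]
  have hχ2 : ∀ (u : (ZMod p)ˣ) (a : ZMod q), sg p u (χ a) = χ a ^ (u : ZMod p).val := by
    intro u a
    have hv : (u : ZMod p).val ≠ 0 := by
      rw [Ne, ZMod.val_eq_zero]
      exact u.ne_zero
    by_cases ha : a = 0
    · rw [ha, hχ0, map_zero, zero_pow hv]
    · obtain ⟨a', rfl⟩ := (isUnit_iff_ne_zero.2 ha)
      obtain ⟨n, hn, hn2⟩ := hχu a'
      rw [hn2, map_pow, sg_zt]
      unfold zv
      rw [← pow_mul, ← pow_mul, mul_comm]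
  -- values of the Jacobi sum
  have hJ : ∀ u : (ZMod p)ˣ, φ (sg p u (jacobiSum χ χ)) =
      ψ (∑ x : ZMod q, x ^ (k * (u : ZMod p).val) * (1 - x) ^ (k * (u : ZMod p).val)) := by
    intro u
    unfold jacobiSum
    rw [map_sum, map_sum, map_sum]
    apply Finset.sum_congr rfl
    intro x _
    rw [map_mul, map_mul, hχ2, hχ2, map_pow, map_pow, hχ1, hχ1, map_mul, map_pow, map_pow,
      ← pow_mul, ← pow_mul]
  refine ⟨jacobiSum χ χ, ?_, ?_⟩
  · -- product
    have hcc : χ.ringHomComp ((cc p : Oc p ≃+* Oc p) : Oc p →+* Oc p) = χ⁻¹ := by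
      apply eq_inv_of_mul_eq_one_left
      ext a
      obtain ⟨n, hn, hn2⟩ := hχu a
      rw [MulChar.mul_apply, MulChar.ringHomComp_apply, MulChar.one_apply_coe, hn2,
        ← zv_natCast]
      have h1 : ((cc p : Oc p ≃+* Oc p) : Oc p →+* Oc p) (zv p ((w * n : ℕ) : ZMod p))
          = zv p (-((w * n : ℕ) : ZMod p)) := cc_zv p _
      rw [h1, ← zv_add, neg_add_cancel, zv_zero]
    have h1 : cc p (jacobiSum χ χ) = jacobiSum χ⁻¹ χ⁻¹ := by
      rw [← hcc, jacobiSum_ringHomComp]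
      rfl
    have hinj : Function.Injective (algebraMap (Oc p) (Cy p)) := RingOfIntegers.coe_injective
    apply hinj
    rw [map_mul, h1, ← jacobiSum_ringHomComp, ← jacobiSum_ringHomComp, ← MulChar.ringHomComp_inv]
    have hne1 : χ ≠ 1 := by
      intro h
      have h2 : χ g = 1 := by rw [h, MulChar.one_apply_coe]
      rw [hχ, MulChar.ofUnitHom_coe, hfg, Units.val_pow_eq_pow_val, hζuv] at h2
      exact hwd ((zt_prim p).dvd_of_pow_eq_one w h2)
    have hne2 : χ * χ ≠ 1 := by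
      intro h
      have h2 : (χ * χ) g = 1 := by rw [h, MulChar.one_apply_coe]
      rw [MulChar.mul_apply, hχ, MulChar.ofUnitHom_coe, hfg, Units.val_pow_eq_pow_val, hζuv,
        ← pow_add] at h2
      have h3 := (zt_prim p).dvd_of_pow_eq_one _ h2
      rw [← two_mul] at h3
      rcases (hp.dvd_mul).1 h3 with h4 | h4
      · have := Nat.le_of_dvd (by norm_num) h4
        omega
      · exact hwd h4
    have hne1' : χ.ringHomComp (algebraMap (Oc p) (Cy p)) ≠ 1 := by
      rwa [Ne, MulChar.ringHomComp_eq_one_iff hinj]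
    have hne2' : χ.ringHomComp (algebraMap (Oc p) (Cy p)) *
        χ.ringHomComp (algebraMap (Oc p) (Cy p)) ≠ 1 := by
      rwa [Ne, ← MulChar.ringHomComp_mul, MulChar.ringHomComp_eq_one_iff hinj]
    have hchar : ringChar (Cy p) ≠ ringChar (ZMod q) := by
      rw [ZMod.ringChar_zmod_n, ringChar.eq_zero]
      omega
    rw [jacobiSum_mul_jacobiSum_inv hchar hne1' hne1' hne2', ZMod.card, map_natCast]
  · intro u
    have hmem : sg p u (jacobiSum χ χ) ∈ l ↔ φ (sg p u (jacobiSum χ χ)) = 0 :=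
      Ideal.Quotient.eq_zero_iff_mem.symm
    rw [hmem, hJ u, map_eq_zero_iff ψ hψi]
    have hv : (u : ZMod p).val < p := ZMod.val_lt _
    have hh : u ∈ half p ↔ 2 * (u : ZMod p).val < p := by
      simp [half]
    rw [hh]
    constructor
    · intro h
      by_contra hcon
      push Not at hcon
      have h2 : k * (u : ZMod p).val < q - 1 := by
        rw [hk, mul_comm p k]
        exact Nat.mul_lt_mul_of_pos_left hv hk0
      have h3 : q - 1 ≤ 2 * (k * (u : ZMod p).val) := by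
        rw [hk, mul_left_comm, mul_comm p k]
        exact Nat.mul_le_mul_left k hcon
      exact sum_hi q _ h2 h3 h
    · intro h
      apply sum_lo
      rw [hk, mul_left_comm, mul_comm p k]
      exact Nat.mul_lt_mul_of_pos_left h hk0

end Pool.Agent.FCW
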