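import Mathlib

/-!
# The first case of Fermat's equation over quadratic fields: the cyclotomic field

`Cy p` is the `p`-th cyclotomic field, `zt p` the primitive `p`-th root of unity in its ring
of integers, `sg p u` the automorphism `ζ ↦ ζ^u`, `cc p` complex conjugation.
-/

open NumberField

namespace Pool.Agent.FCW

variable (p : ℕ) [Fact p.Prime]

/-- the `p`-th cyclotomic field -/
abbrev Cy : Type := CyclotomicField p ℚ

/-- the ring of integers of `Cy p` -/
abbrev Oc : Type := 𝓞 (Cy p)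

instance instNeZero : NeZero p := ⟨(Fact.out : p.Prime).ne_zero⟩

instance instCyc : IsCyclotomicExtension {p} ℚ (Cy p) :=
  CyclotomicField.isCyclotomicExtension p ℚ

/-- the root of unity `ζ` -/
noncomputable def zt : Oc p := (IsCyclotomicExtension.zeta_spec p ℚ (Cy p)).toInteger

theorem zt_prim : IsPrimitiveRoot (zt p) p :=
  (IsCyclotomicExtension.zeta_spec p ℚ (Cy p)).toInteger_isPrimitiveRoot

theorem zt_pow : zt p ^ p = 1 := (zt_prim p).pow_eq_one

/-- `ζ` to a power given modulo `p` -/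
noncomputable def zv (a : ZMod p) : Oc p := zt p ^ a.val

theorem zv_natCast (n : ℕ) : zv p (n : ZMod p) = zt p ^ n := by
  unfold zv
  rw [ZMod.val_natCast]
  conv_rhs => rw [← Nat.div_add_mod n p, pow_add, pow_mul, zt_pow, one_pow, one_mul]

theorem zv_add (a b : ZMod p) : zv p (a + b) = zv p a * zv p b := by
  rw [← ZMod.natCast_zmod_val a, ← ZMod.natCast_zmod_val b, ← Nat.cast_add, zv_natCast,
    zv_natCast, zv_natCast, pow_add]

theorem zv_zero : zv p 0 = 1 := by
  unfold zv
  rw [ZMod.val_zero, pow_zero]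

theorem zv_one : zv p 1 = zt p := by
  have h := zv_natCast p 1
  rwa [Nat.cast_one, pow_one] at h

theorem zv_pow (a : ZMod p) (n : ℕ) : zv p a ^ n = zv p (n * a) := by
  rw [← ZMod.natCast_zmod_val a, ← Nat.cast_mul, zv_natCast, zv_natCast, ← pow_mul, mul_comm]

/-- the automorphism `σ_u` with `σ_u ζ = ζ^u` -/
noncomputable def sg (u : (ZMod p)ˣ) : Oc p ≃+* Oc p :=
  MulSemiringAction.toRingEquiv Gal(Cy p/ℚ) (Oc p)
    ((IsCyclotomicExtension.Rat.galEquivZMod p (Cy p)).symm u)

theorem sg_zt (u : (ZMod p)ˣ) : sg p u (zt p) = zv p u := by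
  have h := IsCyclotomicExtension.Rat.galEquivZMod_smul_of_pow_eq p (Cy p)
    ((IsCyclotomicExtension.Rat.galEquivZMod p (Cy p)).symm u) (zt_pow p)
  rw [MulEquiv.apply_symm_apply] at h
  exact h

theorem sg_zv (u : (ZMod p)ˣ) (a : ZMod p) : sg p u (zv p a) = zv p (u * a) := by
  unfold zv
  rw [map_pow, sg_zt]
  change zv p u ^ a.val = zv p (u * a)
  rw [zv_pow, ZMod.natCast_zmod_val, mul_comm]

theorem sg_mul (u v : (ZMod p)ˣ) (x : Oc p) : sg p (u * v) x = sg p u (sg p v x) := by
  unfold sg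
  rw [map_mul]
  exact mul_smul ((IsCyclotomicExtension.Rat.galEquivZMod p (Cy p)).symm u)
    ((IsCyclotomicExtension.Rat.galEquivZMod p (Cy p)).symm v) x

theorem sg_one (x : Oc p) : sg p 1 x = x := by
  unfold sg
  rw [map_one]
  exact one_smul Gal(Cy p/ℚ) x

theorem sg_int (u : (ZMod p)ˣ) (n : ℤ) : sg p u (n : Oc p) = n := map_intCast _ n

/-- complex conjugation -/
noncomputable def cc : Oc p ≃+* Oc p := sg p (-1)

theorem cc_zv (a : ZMod p) : cc p (zv p a) = zv p (-a) := by
  unfold cc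
  rw [sg_zv]
  congr 1
  simp

theorem cc_cc (x : Oc p) : cc p (cc p x) = x := by
  unfold cc
  rw [← sg_mul, neg_mul_neg, one_mul, sg_one]

theorem cc_sg (u : (ZMod p)ˣ) (x : Oc p) : cc p (sg p u x) = sg p u (cc p x) := by
  unfold cc
  rw [← sg_mul, ← sg_mul, mul_comm]

/-- the units `u` with representative in `1, …, (p-1)/2` -/
def half : Finset (ZMod p)ˣ := Finset.univ.filter fun u => 2 * (u : ZMod p).val < p

/-- the half sum -/
def Hs : ZMod p := ∑ u ∈ half p, ((u⁻¹ : (ZMod p)ˣ) : ZMod p)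

/-- the Stickelberger product of an element -/
noncomputable def st (x : Oc p) : Oc p := ∏ u ∈ half p, sg p u⁻¹ x

/-- the Stickelberger product of an ideal -/
noncomputable def stI (I : Ideal (Oc p)) : Ideal (Oc p) :=
  ∏ u ∈ half p, I.map (sg p u⁻¹ : Oc p →+* Oc p)

/-- the element `A + T ζ + B ζ²` -/
noncomputable def Fz (A T B : ℤ) : Oc p := A + T * zt p + B * zt p ^ 2

theorem exists_poly (x : Oc p) : ∃ P : Polynomial ℤ, Polynomial.aeval (zt p) P = x := by
  have h := (IsCyclotomicExtension.zeta_spec p ℚ (Cy p)).integralPowerBasis.exists_eq_aeval' x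
  obtain ⟨P, hP⟩ := h
  rw [IsPrimitiveRoot.integralPowerBasis_gen] at hP
  exact ⟨P, hP.symm⟩

theorem hom_ext {S : Type*} [CommRing S] (f g : Oc p →+* S) (h : f (zt p) = g (zt p)) :
    f = g := by
  ext x
  obtain ⟨P, rfl⟩ := exists_poly p x
  induction P using Polynomial.induction_on' with
  | add a b ha hb => rw [map_add, map_add, map_add, ha, hb]
  | monomial n a =>
    rw [Polynomial.aeval_monomial, map_mul, map_mul, map_pow, map_pow, h]
    congr 1
    simp

theorem norm_zt (φ : Oc p →+* ℂ) : ‖φ (zt p)‖ = 1 := by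
  apply Complex.norm_eq_one_of_pow_eq_one (n := p) _ (Fact.out : p.Prime).ne_zero
  rw [← map_pow, zt_pow, map_one]

theorem cc_conj (φ : Oc p →+* ℂ) (x : Oc p) : φ (cc p x) = (starRingEnd ℂ) (φ x) := by
  have h : φ.comp (cc p : Oc p →+* Oc p) = (starRingEnd ℂ).comp φ := by
    apply hom_ext
    rw [RingHom.comp_apply, RingHom.comp_apply]
    have h1 : (cc p : Oc p →+* Oc p) (zt p) = zv p (-1) := by
      have h2 := cc_zv p 1
      rwa [zv_one] at h2
    rw [h1]
    have h3 : φ (zt p) * φ (zv p (-1)) = 1 := by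
      rw [← map_mul, ← zv_one p, ← zv_add, add_neg_cancel, zv_zero, map_one]
    have h4 : φ (zt p) * (starRingEnd ℂ) (φ (zt p)) = 1 := by
      rw [Complex.mul_conj, Complex.normSq_eq_norm_sq, norm_zt p φ]
      norm_num
    have h5 : φ (zt p) ≠ 0 := left_ne_zero_of_mul_eq_one h3
    exact mul_left_cancel₀ h5 (h3.trans h4.symm)
  exact RingHom.congr_fun h x

end Pool.Agent.FCW
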