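import Pool.Agent.FCW.Defs

/-!
# The first case of Fermat's equation over quadratic fields: targets

The notation is that of `Defs.lean`.  Every target is a statement `T_X : Prop`; it is proved
as `theorem p_X : T_X` (or `theorem p_X (h : T_Y) : T_X`) in the file `X.lean`.
-/

open NumberField

namespace Pool.Agent.FCW

/-! ## Jacobi sums and the annihilation of ideals -/

/-- Jacobi sum: for a prime `l` over a rational prime `q ≡ 1 mod p` there is `J` with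
`J * conj J = q` and `σ_u J ∈ l` exactly for `u` in the lower half. -/
def T_CHAR : Prop := ∀ (p : ℕ) [Fact p.Prime], 3 ≤ p → ∀ (l : Ideal (Oc p)) (q : ℕ), q.Prime →
  l.IsPrime → (q : Oc p) ∈ l → (q : ZMod p) = 1 →
  ∃ J : Oc p, J * cc p J = (q : Oc p) ∧ ∀ u : (ZMod p)ˣ, sg p u J ∈ l ↔ u ∈ half p

/-- primes over `q ≡ 1 mod p` have degree one and trivial decomposition group -/
def T_DIST : Prop := ∀ (p : ℕ) [Fact p.Prime] (l : Ideal (Oc p)) (q : ℕ), q.Prime →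
  l.IsPrime → (q : Oc p) ∈ l → (q : ZMod p) = 1 →
  Ideal.absNorm l = q ∧
  ∀ u v : (ZMod p)ˣ, l.map (sg p u : Oc p →+* Oc p) = l.map (sg p v : Oc p →+* Oc p) → u = v

/-- Stickelberger's relation for the prime `l` -/
def T_JAC : Prop := ∀ (p : ℕ) [Fact p.Prime], 3 ≤ p → ∀ (l : Ideal (Oc p)) (q : ℕ), q.Prime →
  l.IsPrime → (q : Oc p) ∈ l → (q : ZMod p) = 1 →
  ∃ J : Oc p, J * cc p J = (q : Oc p) ∧ stI p l = Ideal.span {J}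

/-- primes over `q ≡ -1 mod p` are invariant under complex conjugation -/
def T_SELF : Prop := ∀ (p : ℕ) [Fact p.Prime] (l : Ideal (Oc p)) (q : ℕ), q.Prime →
  l.IsPrime → (q : Oc p) ∈ l → (q : ZMod p) = -1 → l.map (cc p : Oc p →+* Oc p) = l

/-- the prime factors of `b` lie over primes `q ≡ ± 1 mod p` -/
def PM (p : ℕ) [Fact p.Prime] (b : Ideal (Oc p)) : Prop :=
  ∀ l : Ideal (Oc p), l.IsPrime → b ≤ l → ∀ q : ℕ, q.Prime → (q : Oc p) ∈ l →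
    (q : ZMod p) = 1 ∨ (q : ZMod p) = -1

/-- annihilation of ideals by the Stickelberger product -/
def T_ANN : Prop := ∀ (p : ℕ) [Fact p.Prime], 5 ≤ p → ∀ b : Ideal (Oc p), b ≠ ⊥ → PM p b →
  ∃ (γ : Oc p) (n : ℕ), n.Coprime (2 * p) ∧ γ * cc p γ = (n : Oc p) ∧
    stI p b * Ideal.span {cc p γ} = stI p (b.map (cc p : Oc p →+* Oc p)) * Ideal.span {γ}

/-- the key equation -/
def KeyEq (p : ℕ) [Fact p.Prime] (β γ : Oc p) (n i : ℕ) (e : ℤ) : Prop :=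
  n.Coprime (2 * p) ∧ γ * cc p γ = (n : Oc p) ∧ (e = 1 ∨ e = -1) ∧
  st p β * cc p γ ^ p = (e : Oc p) * zt p ^ i * cc p (st p β) * γ ^ p

def T_KEY : Prop := ∀ (p : ℕ) [Fact p.Prime], 5 ≤ p → ∀ (β : Oc p) (b : Ideal (Oc p)), β ≠ 0 →
  Ideal.span {β} = b ^ p → PM p b →
  ∃ (γ : Oc p) (n i : ℕ) (e : ℤ), KeyEq p β γ n i e

/-! ## The residues modulo `p` and modulo `2` -/

/-- comparison modulo `(ζ - 1)²` -/
def T_PAD : Prop := ∀ (p : ℕ) [Fact p.Prime], 5 ≤ p → ∀ (A T B : ℤ), ¬ (p : ℤ) ∣ A + T + B →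
  ∀ (γ : Oc p) (n i : ℕ) (e : ℤ), KeyEq p (Fz p A T B) γ n i e →
  ((i : ℕ) : ZMod p) * ((A + T + B : ℤ) : ZMod p) = 2 * ((T + 2 * B : ℤ) : ZMod p) * Hs p

/-- comparison modulo a prime over `2` -/
def T_TWO : Prop := ∀ (p : ℕ) [Fact p.Prime], 5 ≤ p → ∀ (β : Oc p) (M : ℕ),
  (2 : Oc p) ∣ β - zt p ^ M * cc p β → (∀ l : Ideal (Oc p), l.IsPrime → (2 : Oc p) ∈ l → β ∉ l) →
  ∀ (γ : Oc p) (n i : ℕ) (e : ℤ), KeyEq p β γ n i e →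
  ((i : ℕ) : ZMod p) = (M : ZMod p) * Hs p ∨ p ^ 2 ∣ 2 ^ (p - 1) - 1

/-- the half harmonic sum and the Fermat quotient -/
def T_HARM : Prop := ∀ (p : ℕ) [Fact p.Prime], 3 ≤ p → Hs p = 0 → p ^ 2 ∣ 2 ^ (p - 1) - 1

/-- prime factors of `A + T ζ + B ζ²` -/
def T_PRM : Prop := ∀ (p : ℕ) [Fact p.Prime] (A T B : ℤ),
  (∀ q : ℕ, q.Prime → (q : ℤ) ∣ A → (q : ℤ) ∣ T → (q : ℤ) ∣ B → False) →
  ¬ (p : ℤ) ∣ A + T + B → ∀ l : Ideal (Oc p), l.IsPrime → Fz p A T B ∈ l →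
  ∀ q : ℕ, q.Prime → (q : Oc p) ∈ l → (q : ZMod p) = 1 ∨ (q : ZMod p) = -1

/-- the reciprocity law that is used -/
def T_REC : Prop := ∀ (p : ℕ) [Fact p.Prime], 5 ≤ p → ¬ p ^ 2 ∣ 2 ^ (p - 1) - 1 →
  ∀ (A T B : ℤ), (∀ q : ℕ, q.Prime → (q : ℤ) ∣ A → (q : ℤ) ∣ T → (q : ℤ) ∣ B → False) →
  ¬ (p : ℤ) ∣ A + T + B → (∃ b : Ideal (Oc p), Ideal.span {Fz p A T B} = b ^ p) →
  ∀ M : ℕ, (2 : Oc p) ∣ Fz p A T B - zt p ^ M * cc p (Fz p A T B) →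
  (p : ℤ) ∣ M * (A + T + B) - 2 * (T + 2 * B)

/-! ## The quadratic field -/

/-- Conjugation on the ring of integers of a quadratic field. -/
structure IsConj (K : Type) [Field K] [NumberField K] (τ : 𝓞 K ≃+* 𝓞 K) : Prop where
  invol : ∀ x, τ (τ x) = x
  fix : ∀ x, τ x = x → ∃ n : ℤ, x = n
  ne : ∃ x, τ x ≠ x

def T_CONJ : Prop := ∀ (K : Type) [Field K] [NumberField K], Module.finrank ℚ K = 2 →
  ∃ τ : 𝓞 K ≃+* 𝓞 K, IsConj K τ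

/-- `A, T, B` have no common prime factor -/
def Prim (A T B : ℤ) : Prop :=
  ∀ q : ℕ, q.Prime → (q : ℤ) ∣ A → (q : ℤ) ∣ T → (q : ℤ) ∣ B → False

/-- the norm form of `x, y` divided by its content `g` -/
structure NF (K : Type) [Field K] [NumberField K] (τ : 𝓞 K ≃+* 𝓞 K) (x y : 𝓞 K)
    (g A T B : ℤ) : Prop where
  hA : x * τ x = (g : 𝓞 K) * (A : 𝓞 K)
  hT : x * τ y + y * τ x = (g : 𝓞 K) * (T : 𝓞 K)
  hB : y * τ y = (g : 𝓞 K) * (B : 𝓞 K)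
  prim : Prim A T B
  ideal : Ideal.span {x, y} * (Ideal.span {x, y}).map (τ : 𝓞 K →+* 𝓞 K) =
    Ideal.span {(g : 𝓞 K)}

def T_NF : Prop := ∀ (K : Type) [Field K] [NumberField K] (τ : 𝓞 K ≃+* 𝓞 K), IsConj K τ →
  ∀ x y : 𝓞 K, x ≠ 0 → ∃ g A T B : ℤ, 0 < g ∧ NF K τ x y g A T B

/-- the three norm forms of a solution -/
def T_DATA : Prop := ∀ (K : Type) [Field K] [NumberField K] (τ : 𝓞 K ≃+* 𝓞 K), IsConj K τ →
  ∀ (p : ℕ), 1 ≤ p → ∀ x y z : 𝓞 K, x ≠ 0 → y ≠ 0 → z ≠ 0 → x ^ p + y ^ p + z ^ p = 0 →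
  ∃ g a b c T₁ T₂ T₃ : ℤ, 0 < g ∧ NF K τ x y g a T₁ b ∧ NF K τ x z g a T₂ c ∧
    NF K τ y z g b T₃ c

/-- parity -/
def T_PAR : Prop := ∀ (K : Type) [Field K] [NumberField K] (τ : 𝓞 K ≃+* 𝓞 K), IsConj K τ →
  ∀ (p : ℕ), p.Prime → 5 ≤ p → ∀ x y z : 𝓞 K, x ^ p + y ^ p + z ^ p = 0 →
  ∀ g a b c T : ℤ, g ≠ 0 → NF K τ x y g a T b → z * τ z = (g : 𝓞 K) * (c : 𝓞 K) →
  (2 : ℤ) ∣ a + b + c + T

/-- residues modulo `p` -/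
def T_MODP : Prop := ∀ (K : Type) [Field K] [NumberField K] (τ : 𝓞 K ≃+* 𝓞 K), IsConj K τ →
  ∀ (p : ℕ), p.Prime → ∀ x y z : 𝓞 K, x ^ p + y ^ p + z ^ p = 0 →
  IsCoprime (x * y * z) (p : 𝓞 K) →
  ∀ g a b c T₁ T₂ : ℤ, g ≠ 0 → x * τ x = (g : 𝓞 K) * (a : 𝓞 K) →
  x * τ y + y * τ x = (g : 𝓞 K) * (T₁ : 𝓞 K) → x * τ z + z * τ x = (g : 𝓞 K) * (T₂ : 𝓞 K) →
  ¬ (p : ℤ) ∣ a ∧ (p : ℤ) ∣ 2 * a + T₁ + T₂

/-- the discriminant of the norm form -/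
def T_DISC : Prop := ∀ (K : Type) [Field K] [NumberField K] (τ : 𝓞 K ≃+* 𝓞 K), IsConj K τ →
  ∀ (d : ℤ), Squarefree d → ∀ s : K, s ^ 2 = (d : K) → (∀ r : ℚ, s ≠ (r : K)) →
  ∀ x y : 𝓞 K, ∀ g A T B : ℤ, g ≠ 0 → NF K τ x y g A T B →
  ∃ r : ℤ, T ^ 2 - 4 * A * B = r ^ 2 * d

/-- `A + T ζ + B ζ²` generates the `p`-th power of an ideal -/
def T_POW : Prop := ∀ (K : Type) [Field K] [NumberField K], Module.finrank ℚ K = 2 →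
  ∀ (τ : 𝓞 K ≃+* 𝓞 K), IsConj K τ → ∀ (p : ℕ) [Fact p.Prime], 5 ≤ p →
  ∀ x y z : 𝓞 K, x ≠ 0 → y ≠ 0 → x ^ p + y ^ p + z ^ p = 0 → IsCoprime z (p : 𝓞 K) →
  ∀ g A T B : ℤ, g ≠ 0 → NF K τ x y g A T B →
  ∃ b : Ideal (Oc p), Ideal.span {Fz p A T B} = b ^ p

/-! ## Eichler's argument -/

/-- `A + T X + B X²` at `X^k` -/
noncomputable def FX (A T B : ℤ) (k : ℕ) : Polynomial ℤ :=
  Polynomial.C A + Polynomial.C T * Polynomial.X ^ k + Polynomial.C B * Polynomial.X ^ (2 * k)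

/-- the product of the `F(X^(j+1))^(f_j)`, negative powers being replaced by the powers of
the reversed polynomial -/
noncomputable def PX {m : ℕ} (A T B : ℤ) (f : Fin m → ℤ) : Polynomial ℤ :=
  ∏ j : Fin m, (FX A T B ((j : ℕ) + 1) ^ (f j).toNat * FX B T A ((j : ℕ) + 1) ^ (-f j).toNat)

/-- pigeonhole in the class group -/
def T_EIA : Prop := ∀ (p : ℕ) [Fact p.Prime], 5 ≤ p → ∀ m : ℕ, 1 ≤ m → m < p →
  Nat.card {c : ClassGroup (Oc p) // c ^ p = 1} < p ^ m →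
  ∀ A T B : ℤ, ¬ (p : ℤ) ∣ A + T + B → (∃ b : Ideal (Oc p), Ideal.span {Fz p A T B} = b ^ p) →
  ∃ f : Fin m → ℤ, f ≠ 0 ∧ (∀ j, |f j| < p) ∧ ∃ k : ℕ,
    (p : Oc p) ∣ Polynomial.aeval (zt p) (PX A T B f) -
      zt p ^ k * Polynomial.aeval (zt p) (PX B T A f)

/-- the logarithmic derivative -/
def T_EIB : Prop := ∀ (p : ℕ) [Fact p.Prime] (m : ℕ), 1 ≤ m → 2 * m * (m + 1) + 2 < p →
  ∀ A T B : ℤ, ¬ (p : ℤ) ∣ A → ¬ (p : ℤ) ∣ B → ¬ (p : ℤ) ∣ A + T + B →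
  ∀ f : Fin m → ℤ, f ≠ 0 → (∀ j, |f j| < p) → ∀ k : ℕ,
  (p : Oc p) ∣ Polynomial.aeval (zt p) (PX A T B f) -
      zt p ^ k * Polynomial.aeval (zt p) (PX B T A f) →
  (p : ℤ) ∣ A - B

end Pool.Agent.FCW
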